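import Pool.Agent.Work.MP_a2bf38_gt.Fu.Q.Exh
import Mathlib.Analysis.InnerProductSpace.PiL2
import Pool.Agent.Work.MP_a2bf38_gt.Fu.G.Chart2
import Pool.Agent.Work.MP_a2bf38_gt.Fu.W.EmbDefs
import Mathlib
import Pool.Agent.Work.MP_a2bf38_gt.Fu.Z.Pole
import Pool.Agent.Work.MP_a2bf38_gt.Fu.I.GapA

section

/-!
# Calculus for the Levi form
-/

open scoped ContDiff Topology
open Set Filter Pool.Agent.ToricKRF Pool.Agent.ToricKRF.G Pool.Agent.KRFS

namespace Pool.Agent.KRFCh.Cp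

variable {n : ℕ} {f g : Cn n → ℝ} {z : Cn n}

/-- `|∂f(u)|^2` -/
noncomputable def dsq (f : Cn n → ℝ) (u z : Cn n) : ℝ := ((D u f z) ^ 2 + (D (J u) f z) ^ 2) / 4

theorem dsq_nonneg (f : Cn n → ℝ) (u z : Cn n) : 0 ≤ dsq f u z := by
  unfold dsq
  positivity

theorem dsq_congr (h : f =ᶠ[𝓝 z] g) (u : Cn n) : dsq f u z = dsq g u z := by
  unfold dsq
  rw [LC.D_congr _ h, LC.D_congr _ h]

/-- the Levi form of a function of a function -/
theorem levz_fun {φ : ℝ → ℝ} (hφ : ContDiffAt ℝ 2 φ (g z)) (hg : ContDiffAt ℝ 2 g z) (u : Cn n) :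
    levz (fun x => φ (g x)) u z =
      deriv φ (g z) * levz g u z + deriv (deriv φ) (g z) * dsq g u z := by
  have hd : DifferentiableAt ℝ g z := hg.differentiableAt (by norm_num)
  have key : ∀ w : Cn n, D w (D w fun x => φ (g x)) z =
      deriv φ (g z) * D w (D w g) z + deriv (deriv φ) (g z) * (D w g z) ^ 2 := by
    intro w
    have h1 : D w (fun x => φ (g x)) =ᶠ[𝓝 z] fun x => deriv φ (g x) * D w g x := by
      have h2 : ∀ᶠ x in 𝓝 z, DifferentiableAt ℝ φ (g x) :=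
        hg.continuousAt.eventually ((hφ.eventually (by simp)).mono fun y hy =>
          hy.differentiableAt (by norm_num))
      filter_upwards [h2, LC.evDiff hg] with x h2 h3
      exact D_comp h3 h2.hasDerivAt w
    have h4 : ContDiffAt ℝ 1 (deriv φ) (g z) := by
      have h5 : ContDiffAt ℝ 1 (fun x => fderiv ℝ φ x (1 : ℝ)) (g z) :=
        (hφ.fderiv_right (m := 1) (by norm_num)).clm_apply contDiffAt_const
      exact h5
    have h6 : DifferentiableAt ℝ (deriv φ) (g z) := h4.differentiableAt (by norm_num)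
    have h7 : DifferentiableAt ℝ (fun x => deriv φ (g x)) z := h6.comp z hd
    have h8 : DifferentiableAt ℝ (D w g) z :=
      (LC.contDiffAt_D w hg (m := 1) (by norm_num)).differentiableAt (by norm_num)
    rw [LC.D_congr w h1, LC.D_mul w h7 h8, D_comp hd h6.hasDerivAt w]
    ring
  unfold levz dsq
  rw [key, key]
  ring

theorem dsq_fun {φ : ℝ → ℝ} (hφ : DifferentiableAt ℝ φ (g z)) (hg : DifferentiableAt ℝ g z)
    (u : Cn n) : dsq (fun x => φ (g x)) u z = deriv φ (g z) ^ 2 * dsq g u z := by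
  unfold dsq
  rw [D_comp hg hφ.hasDerivAt, D_comp hg hφ.hasDerivAt]
  ring

theorem levz_log (hf : ContDiffAt ℝ 2 f z) (h0 : f z ≠ 0) (u : Cn n) :
    levz (fun x => Real.log (f x)) u z = levz f u z / f z - dsq f u z / f z ^ 2 := by
  unfold levz dsq
  rw [LC.D_D_log _ _ hf h0, LC.D_D_log _ _ hf h0]
  field_simp
  ring

theorem dsq_log (hf : DifferentiableAt ℝ f z) (h0 : f z ≠ 0) (u : Cn n) :
    dsq (fun x => Real.log (f x)) u z = dsq f u z / f z ^ 2 := by
  unfold dsq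
  rw [LC.D_log _ hf h0, LC.D_log _ hf h0]
  field_simp

theorem levz_mul (hf : ContDiffAt ℝ 2 f z) (hg : ContDiffAt ℝ 2 g z) (u : Cn n) :
    levz (fun x => f x * g x) u z = f z * levz g u z + g z * levz f u z +
      (D u f z * D u g z + D (J u) f z * D (J u) g z) / 2 := by
  unfold levz
  rw [LC.D_D_mul _ _ hf hg, LC.D_D_mul _ _ hf hg]
  ring

/-- at a minimum the Levi form is nonnegative -/
theorem levz_nonneg_of_isLocalMin (hf : ContDiffAt ℝ 2 f z) (h : IsLocalMin f z) (u : Cn n) :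
    0 ≤ levz f u z := by
  have key : ∀ w : Cn n, 0 ≤ D w (D w f) z := by
    intro w
    obtain ⟨h1, -, h3⟩ := line_facts w hf.neg
    have h4 : deriv (deriv fun s : ℝ => -f (z + s • w)) 0 ≤ 0 := by
      apply deriv_deriv_nonpos_of_isLocalMax h1
      have hc : Tendsto (fun s : ℝ => z + s • w) (𝓝 0) (𝓝 z) := by
        have : Continuous fun s : ℝ => z + s • w := by fun_prop
        simpa using this.tendsto 0
      filter_upwards [hc.eventually h] with s hs
      simpa using hs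
    rw [h3] at h4
    have h5 : fderiv ℝ (fun q => fderiv ℝ (fun x => -f x) q w) z w = -D w (D w f) z := by
      have h6 : (fun q => fderiv ℝ (fun x => -f x) q w) = fun q => -D w f q := by
        funext q
        rw [fderiv_fun_neg]
        rfl
      rw [h6, fderiv_fun_neg]
      rfl
    linarith
  unfold levz
  have h1 := key u
  have h2 := key (J u)
  linarith

theorem D_eq_zero_of_isLocalMin (h : IsLocalMin f z) (u : Cn n) : D u f z = 0 := by
  unfold D
  rw [h.fderiv_eq_zero]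
  rfl

theorem contDiffAt_sum {ι : Type*} {s : Finset ι} {F : ι → Cn n → ℝ} {m : WithTop ℕ∞}
    (hF : ∀ i ∈ s, ContDiffAt ℝ m (F i) z) : ContDiffAt ℝ m (fun x => ∑ i ∈ s, F i x) z :=
  ContDiffAt.sum hF

theorem levz_sum {ι : Type*} (s : Finset ι) {F : ι → Cn n → ℝ}
    (hF : ∀ i ∈ s, ContDiffAt ℝ 2 (F i) z) (u : Cn n) :
    levz (fun x => ∑ i ∈ s, F i x) u z = ∑ i ∈ s, levz (F i) u z := by
  classical
  induction s using Finset.induction_on with
  | empty => simp [Bd.levz_const]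
  | insert a s ha ih =>
    rw [Finset.sum_insert ha]
    have h1 : (fun x => ∑ i ∈ insert a s, F i x) = fun x => F a x + ∑ i ∈ s, F i x := by
      funext x
      rw [Finset.sum_insert ha]
    rw [h1, Bd.levz_add (hF a (by simp)) (contDiffAt_sum fun i hi => hF i (by simp [hi])),
      ih fun i hi => hF i (by simp [hi])]

/-- The Levi form of the logarithm of a sum of nonnegative functions. -/
theorem levz_log_sum' {ι : Type*} (s : Finset ι) {F : ι → Cn n → ℝ}
    (hF : ∀ i ∈ s, ContDiffAt ℝ 2 (F i) z) (h0' : ∀ i ∈ s, ∀ᶠ x in 𝓝 z, 0 ≤ F i x)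
    (hpos : 0 < ∑ i ∈ s, F i z) (u : Cn n) {m : ι → ℝ}
    (hm : ∀ i ∈ s, F i z ≠ 0 → m i ≤ levz (fun x => Real.log (F i x)) u z) :
    ∑ i ∈ s, F i z / (∑ j ∈ s, F j z) * m i ≤
      levz (fun x => Real.log (∑ i ∈ s, F i x)) u z := by
  classical
  have h0 : ∀ i ∈ s, 0 ≤ F i z := fun i hi => (h0' i hi).self_of_nhds
  have hs : ContDiffAt ℝ 2 (fun x => ∑ i ∈ s, F i x) z := contDiffAt_sum hF
  rw [levz_log hs hpos.ne', levz_sum s hF]
  set S : ℝ := ∑ j ∈ s, F j z with hS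
  -- pointwise lower bound
  have h1 : ∀ i ∈ s, F i z * m i + (if F i z = 0 then 0 else dsq (F i) u z / F i z) ≤
      levz (F i) u z := by
    intro i hi
    by_cases hz : F i z = 0
    · rw [if_pos hz, hz, zero_mul, zero_add]
      refine levz_nonneg_of_isLocalMin (hF i hi) ?_ u
      filter_upwards [h0' i hi] with x hx
      rw [hz]
      exact hx
    · rw [if_neg hz]
      have h2 := hm i hi hz
      rw [levz_log (hF i hi) hz] at h2
      have h3 : 0 < F i z := lt_of_le_of_ne (h0 i hi) (Ne.symm hz)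
      have h4 := mul_le_mul_of_nonneg_left h2 h3.le
      have h5 : F i z * (levz (F i) u z / F i z - dsq (F i) u z / F i z ^ 2) =
          levz (F i) u z - dsq (F i) u z / F i z := by
        field_simp
      rw [h5] at h4
      linarith
  -- Cauchy-Schwarz
  have hcs : ∀ w : Cn n, (D w (fun x => ∑ i ∈ s, F i x) z) ^ 2 ≤
      (∑ i ∈ s, if F i z = 0 then 0 else (D w (F i) z) ^ 2 / F i z) * S := by
    intro w
    have h2 : D w (fun x => ∑ i ∈ s, F i x) z = ∑ i ∈ s, D w (F i) z :=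
      D_sum s (fun i hi => (hF i hi).differentiableAt (by norm_num)) w
    rw [h2]
    refine Finset.sum_sq_le_sum_mul_sum_of_sq_le_mul s (fun i hi => ?_) (fun i hi => h0 i hi)
      fun i hi => le_of_eq ?_
    · split_ifs with h
      · exact le_rfl
      · exact div_nonneg (sq_nonneg _) (h0 i hi)
    · by_cases hz : F i z = 0
      · have h3 : D w (F i) z = 0 := by
          refine D_eq_zero_of_isLocalMin ?_ w
          filter_upwards [h0' i hi] with x hx
          rw [hz]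
          exact hx
        rw [h3, hz]
        simp
      · rw [if_neg hz]
        field_simp
  have h2 : dsq (fun x => ∑ i ∈ s, F i x) u z ≤
      (∑ i ∈ s, if F i z = 0 then 0 else dsq (F i) u z / F i z) * S := by
    have h3 := hcs u
    have h4 := hcs (J u)
    have h5 : (∑ i ∈ s, if F i z = 0 then 0 else dsq (F i) u z / F i z) =
        ((∑ i ∈ s, if F i z = 0 then 0 else (D u (F i) z) ^ 2 / F i z) +
          ∑ i ∈ s, if F i z = 0 then 0 else (D (J u) (F i) z) ^ 2 / F i z) / 4 := by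
      rw [← Finset.sum_add_distrib, Finset.sum_div]
      refine Finset.sum_congr rfl fun i _ => ?_
      split_ifs with h
      · simp
      · unfold dsq
        field_simp
    rw [h5]
    unfold dsq
    linarith
  have h3 : dsq (fun x => ∑ i ∈ s, F i x) u z / S ^ 2 ≤
      (∑ i ∈ s, if F i z = 0 then 0 else dsq (F i) u z / F i z) / S := by
    rw [div_le_div_iff₀ (by positivity) hpos]
    nlinarith
  have h4 : (∑ i ∈ s, (F i z * m i + (if F i z = 0 then 0 else dsq (F i) u z / F i z))) / S ≤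
      (∑ i ∈ s, levz (F i) u z) / S := by
    gcongr with i hi
    exact h1 i hi
  rw [Finset.sum_add_distrib, add_div] at h4
  have h5 : ∑ i ∈ s, F i z / S * m i = (∑ i ∈ s, F i z * m i) / S := by
    rw [Finset.sum_div]
    refine Finset.sum_congr rfl fun i _ => ?_
    ring
  rw [h5]
  linarith

end Pool.Agent.KRFCh.Cp

end

section

/-!
# A sharp form of the inequality of Cauchy and Schwarz
-/

open scoped ComplexConjugate InnerProductSpace

namespace Pool.Agent.KRFCh.Cp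

theorem norm_sq_perp {E : Type*} [NormedAddCommGroup E] [InnerProductSpace ℂ E] (X V : E) :
    ‖((‖X‖ ^ 2 : ℝ) : ℂ) • V - ⟪X, V⟫_ℂ • X‖ ^ 2 =
      ‖X‖ ^ 2 * (‖X‖ ^ 2 * ‖V‖ ^ 2 - ‖⟪X, V⟫_ℂ‖ ^ 2) := by
  have h := @norm_sub_sq ℂ E _ _ _ (((‖X‖ ^ 2 : ℝ) : ℂ) • V) (⟪X, V⟫_ℂ • X)
  rw [h, norm_smul, norm_smul, inner_smul_left, inner_smul_right, Complex.norm_real,
    Real.norm_of_nonneg (by positivity), Complex.conj_ofReal]
  have h1 : ⟪X, V⟫_ℂ * ⟪V, X⟫_ℂ = ((‖⟪X, V⟫_ℂ‖ ^ 2 : ℝ) : ℂ) := by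
    rw [← inner_conj_symm V X, Complex.mul_conj, Complex.normSq_eq_norm_sq]
  have h2 : RCLike.re (((‖X‖ ^ 2 : ℝ) : ℂ) * (⟪X, V⟫_ℂ * ⟪V, X⟫_ℂ)) =
      ‖X‖ ^ 2 * ‖⟪X, V⟫_ℂ‖ ^ 2 := by
    rw [h1, ← Complex.ofReal_mul]
    exact Complex.ofReal_re _
  rw [h2]
  ring

theorem cs_gen {E : Type*} [NormedAddCommGroup E] [InnerProductSpace ℂ E] (X V B : E) (hX : X ≠ 0) :
    ‖((‖X‖ ^ 2 : ℝ) : ℂ) * ⟪B, V⟫_ℂ - ⟪X, V⟫_ℂ * ⟪B, X⟫_ℂ‖ ^ 2 ≤
      (‖X‖ ^ 2 * ‖V‖ ^ 2 - ‖⟪X, V⟫_ℂ‖ ^ 2) * (‖X‖ ^ 2 * ‖B‖ ^ 2 - ‖⟪X, B⟫_ℂ‖ ^ 2) := by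
  set v' := ((‖X‖ ^ 2 : ℝ) : ℂ) • V - ⟪X, V⟫_ℂ • X with hv
  set b' := ((‖X‖ ^ 2 : ℝ) : ℂ) • B - ⟪X, B⟫_ℂ • X with hb
  have h1 : ⟪b', v'⟫_ℂ = ((‖X‖ ^ 2 : ℝ) : ℂ) *
      (((‖X‖ ^ 2 : ℝ) : ℂ) * ⟪B, V⟫_ℂ - ⟪X, V⟫_ℂ * ⟪B, X⟫_ℂ) := by
    have h2 : ⟪X, v'⟫_ℂ = 0 := by
      rw [hv, inner_sub_right, inner_smul_right, inner_smul_right, inner_self_eq_norm_sq_to_K]
      push_cast
      simp
      ring
    rw [hb, inner_sub_left, inner_smul_left, inner_smul_left, h2, mul_zero, sub_zero,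
      Complex.conj_ofReal, hv, inner_sub_right, inner_smul_right, inner_smul_right]
  have h2 := norm_inner_le_norm (𝕜 := ℂ) b' v'
  have h3 : ‖⟪b', v'⟫_ℂ‖ ^ 2 ≤ ‖b'‖ ^ 2 * ‖v'‖ ^ 2 := by
    rw [← mul_pow]
    exact pow_le_pow_left₀ (norm_nonneg _) h2 2
  rw [h1, norm_mul, mul_pow, hb, hv, norm_sq_perp, norm_sq_perp, Complex.norm_real,
    Real.norm_of_nonneg (by positivity)] at h3
  have hX0 : 0 < ‖X‖ ^ 2 := by
    have := norm_pos_iff.2 hX
    positivity
  have h4 : (‖X‖ ^ 2) ^ 2 * ‖((‖X‖ ^ 2 : ℝ) : ℂ) * ⟪B, V⟫_ℂ - ⟪X, V⟫_ℂ * ⟪B, X⟫_ℂ‖ ^ 2 ≤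
      (‖X‖ ^ 2) ^ 2 * ((‖X‖ ^ 2 * ‖V‖ ^ 2 - ‖⟪X, V⟫_ℂ‖ ^ 2) *
        (‖X‖ ^ 2 * ‖B‖ ^ 2 - ‖⟪X, B⟫_ℂ‖ ^ 2)) := by
    calc _ ≤ _ := h3
      _ = _ := by ring
  exact le_of_mul_le_mul_left h4 (by positivity)

end Pool.Agent.KRFCh.Cp

end

section

/-!
# Calculus for the Fubini-Study form
-/

open scoped ContDiff Topology
open Set Filter Pool.Agent.ToricKRF Pool.Agent.ToricKRF.G Pool.Agent.KRFS
open Pool.Agent.KRFX.NC (fs fs_nonneg contDiff_nsq nsq_nonneg nsq_eq_zero levz_log_nsq D_log_nsq)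
open Pool.Agent.KRFS.ABP (ip ip_self)

namespace Pool.Agent.KRFCh.Cp

variable {l : ℕ}

/-- `∑ b_j x_j` -/
noncomputable def lf (b : Fin l → ℂ) (x : Cn l) : ℂ := ∑ j, b j * cc x j

/-- the chordal function `|∑ b_j x_j|^2 / |x|^2` -/
noncomputable def hb (b : Fin l → ℂ) (x : Cn l) : ℝ := Complex.normSq (lf b x) / nsq x

/-- the Fubini-Study form -/
noncomputable def FS (x v : Cn l) : ℝ := fs x v / nsq x ^ 2

theorem FS_nonneg (x v : Cn l) : 0 ≤ FS x v := div_nonneg (fs_nonneg x v) (sq_nonneg _)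

theorem nsq_eq (x : Cn l) : nsq x = ∑ j, Complex.normSq (cc x j) := by
  unfold nsq dotProduct
  rw [← Finset.sum_add_distrib]
  rfl

/-- hermitian Cauchy-Schwarz with the Lagrange identity -/
theorem fs_eq (x v : Cn l) :
    fs x v = nsq v * nsq x - Complex.normSq (∑ j, cc v j * (starRingEnd ℂ) (cc x j)) := by
  have h1 : ip x v = (∑ j, cc v j * (starRingEnd ℂ) (cc x j)).re := by
    rw [Complex.re_sum]
    unfold ip dotProduct
    rw [← Finset.sum_add_distrib]
    refine Finset.sum_congr rfl fun j _ => ?_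
    simp [cc]
    ring
  have h2 : ip x (J v) = -(∑ j, cc v j * (starRingEnd ℂ) (cc x j)).im := by
    rw [Complex.im_sum, ← Finset.sum_neg_distrib]
    unfold ip dotProduct
    rw [← Finset.sum_add_distrib]
    refine Finset.sum_congr rfl fun j _ => ?_
    simp [cc, J]
    ring
  rw [fs, h1, h2, Complex.normSq_apply]
  ring

/-- `|<x,x> <v,b> - <v,x> <x,b>|^2 ≤ fs x v * (|x|^2 |b|^2 - |<x,b>|^2)` -/
theorem cs_key (b : Fin l → ℂ) (x v : Cn l) (hx : nsq x ≠ 0) :
    Complex.normSq ((nsq x : ℂ) * lf b v - (∑ j, cc v j * (starRingEnd ℂ) (cc x j)) * lf b x) ≤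
      fs x v * (nsq x * (∑ j, Complex.normSq (b j)) - Complex.normSq (lf b x)) := by
  set E := EuclideanSpace ℂ (Fin l)
  set X : E := WithLp.toLp 2 (cc x) with hX
  set V : E := WithLp.toLp 2 (cc v) with hV
  set B : E := WithLp.toLp 2 (fun j => (starRingEnd ℂ) (b j)) with hB
  have nX : ‖X‖ ^ 2 = nsq x := by
    rw [EuclideanSpace.norm_sq_eq, nsq_eq]
    exact Finset.sum_congr rfl fun j _ => (Complex.normSq_eq_norm_sq _).symm
  have nV : ‖V‖ ^ 2 = nsq v := by
    rw [EuclideanSpace.norm_sq_eq, nsq_eq]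
    exact Finset.sum_congr rfl fun j _ => (Complex.normSq_eq_norm_sq _).symm
  have nB : ‖B‖ ^ 2 = ∑ j, Complex.normSq (b j) := by
    rw [EuclideanSpace.norm_sq_eq]
    refine Finset.sum_congr rfl fun j _ => ?_
    rw [Complex.normSq_eq_norm_sq, hB]
    simp
  have iXV : inner ℂ X V = ∑ j, cc v j * (starRingEnd ℂ) (cc x j) := by
    rw [PiLp.inner_apply]
    exact Finset.sum_congr rfl fun j _ => rfl
  have iBV : inner ℂ B V = lf b v := by
    rw [PiLp.inner_apply]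
    refine Finset.sum_congr rfl fun j _ => ?_
    simp [hB, hV, mul_comm]
  have iBX : inner ℂ B X = lf b x := by
    rw [PiLp.inner_apply]
    refine Finset.sum_congr rfl fun j _ => ?_
    simp [hB, hX, mul_comm]
  have iXB : ‖inner ℂ X B‖ ^ 2 = Complex.normSq (lf b x) := by
    rw [norm_inner_symm, iBX, Complex.normSq_eq_norm_sq]
  have hX0 : X ≠ 0 := by
    intro h
    rw [h] at nX
    simp at nX
    exact hx nX.symm
  have h := cs_gen X V B hX0
  rw [nX, nV, nB, iXV, iBV, iBX, iXB, ← Complex.normSq_eq_norm_sq,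
    ← Complex.normSq_eq_norm_sq] at h
  rw [fs_eq, mul_comm (nsq v) (nsq x)]
  exact h

/-! ### The function `log h_b` -/

variable {b : Fin l → ℂ} {x : Cn l}

theorem hb_nonneg (b : Fin l → ℂ) (x : Cn l) : 0 ≤ hb b x :=
  div_nonneg (Complex.normSq_nonneg _) (nsq_nonneg x)

theorem lf_add (b : Fin l → ℂ) (x y : Cn l) : lf b (x + y) = lf b x + lf b y := by
  unfold lf
  rw [← Finset.sum_add_distrib]
  refine Finset.sum_congr rfl fun j _ => ?_
  rw [Pool.Agent.KRFQ.cc_add]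
  ring

theorem lf_smul (b : Fin l → ℂ) (r : ℝ) (x : Cn l) : lf b (r • x) = r * lf b x := by
  unfold lf
  rw [Finset.mul_sum]
  refine Finset.sum_congr rfl fun j _ => ?_
  rw [Pool.Agent.KRFQ.cc_smul]
  ring

theorem lf_J (b : Fin l → ℂ) (x : Cn l) : lf b (J x) = Complex.I * lf b x := by
  unfold lf
  rw [Finset.mul_sum]
  refine Finset.sum_congr rfl fun j _ => ?_
  rw [cc_J]
  ring

/-- the form `lf b` as a continuous linear map -/
noncomputable def lfL (b : Fin l → ℂ) : Cn l →L[ℝ] ℂ :=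
  LinearMap.toContinuousLinearMap
    { toFun := lf b
      map_add' := lf_add b
      map_smul' := fun r x => by
        rw [lf_smul]
        simp }

theorem lfL_apply (b : Fin l → ℂ) (x : Cn l) : lfL b x = lf b x := rfl

theorem contDiff_lf (b : Fin l → ℂ) : ContDiff ℝ ∞ (lf b : Cn l → ℂ) := (lfL b).contDiff

theorem fderiv_lf (b : Fin l → ℂ) (x v : Cn l) : fderiv ℝ (lf b) x v = lf b v := by
  have h : fderiv ℝ (lf b) x = lfL b := (lfL b).hasFDerivAt.fderiv
  rw [h, lfL_apply]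

theorem holC_lf (b : Fin l → ℂ) : Pool.Agent.KRFF.NF.HolC (lf b : Cn l → ℂ) univ :=
  ⟨(contDiff_lf b).contDiffOn, fun x _ v => by rw [fderiv_lf, fderiv_lf, lf_J]⟩

theorem contDiff_normSq_lf (b : Fin l → ℂ) :
    ContDiff ℝ ∞ fun x : Cn l => Complex.normSq (lf b x) := by
  have h : (fun x : Cn l => Complex.normSq (lf b x)) = fun x =>
      (lf b x).re * (lf b x).re + (lf b x).im * (lf b x).im := by
    funext x
    exact Complex.normSq_apply _
  rw [h]
  have h1 := Complex.reCLM.contDiff.comp (contDiff_lf b)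
  have h2 := Complex.imCLM.contDiff.comp (contDiff_lf b)
  exact (h1.mul h1).add (h2.mul h2)

theorem contDiffAt_hb (hx : nsq x ≠ 0) : ContDiffAt ℝ ∞ (hb b) x :=
  (contDiff_normSq_lf b).contDiffAt.div contDiff_nsq.contDiffAt hx

theorem normSq_ne (_hx : nsq x ≠ 0) (h : hb b x ≠ 0) : Complex.normSq (lf b x) ≠ 0 := by
  intro h1
  exact h (by rw [hb, h1, zero_div])

theorem lf_ne (h : hb b x ≠ 0) : lf b x ≠ 0 := by
  intro h1
  exact h (by rw [hb, h1, map_zero, zero_div])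

theorem log_hb_ev (hx : nsq x ≠ 0) (h : hb b x ≠ 0) :
    (fun x => Real.log (hb b x)) =ᶠ[𝓝 x]
      fun x => Real.log (Complex.normSq (lf b x)) - Real.log (nsq x) := by
  have h1 : ∀ᶠ y in 𝓝 x, Complex.normSq (lf b y) ≠ 0 :=
    (contDiff_normSq_lf b).continuous.continuousAt.eventually_ne (normSq_ne hx h)
  have h2 : ∀ᶠ y in 𝓝 x, nsq y ≠ 0 := contDiff_nsq.continuous.continuousAt.eventually_ne hx
  filter_upwards [h1, h2] with y h1 h2
  exact Real.log_div h1 h2

theorem levz_log_hb (hx : nsq x ≠ 0) (h : hb b x ≠ 0) (v : Cn l) :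
    levz (fun x => Real.log (hb b x)) v x = -FS x v := by
  have c1 : ContDiffAt ℝ 2 (fun x => Real.log (Complex.normSq (lf b x))) x :=
    (((contDiff_normSq_lf b).contDiffAt).of_le two_le_infty).log (normSq_ne hx h)
  have c2 : ContDiffAt ℝ 2 (fun x : Cn l => Real.log (nsq x)) x :=
    ((contDiff_nsq.contDiffAt).of_le two_le_infty).log hx
  rw [Bd.levz_congr (log_hb_ev hx h), Bd.levz_sub c1 c2, levz_log_nsq hx,
    Pool.Agent.KRFF.NF.levz_log_normSq isOpen_univ (holC_lf b) (mem_univ x) (lf_ne h) v, FS]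
  ring

theorem dsq_log_hb (hx : nsq x ≠ 0) (h : hb b x ≠ 0) (hb1 : ∑ j, Complex.normSq (b j) = 1)
    (v : Cn l) : dsq (fun x => Real.log (hb b x)) v x ≤ ((hb b x)⁻¹ - 1) * FS x v := by
  have key : dsq (fun x => Real.log (hb b x)) v x = Complex.normSq ((nsq x : ℂ) * lf b v -
      (∑ j, cc v j * (starRingEnd ℂ) (cc x j)) * lf b x) /
        (nsq x ^ 2 * Complex.normSq (lf b x)) := by
    set H : Cn l → ℂ := fun w => ∑ j, cc w j * (starRingEnd ℂ) (cc x j) with hH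
    set β : Cn l → ℂ := fun w => ((nsq x : ℂ) * lf b w - H w * lf b x) /
      ((nsq x : ℂ) * lf b x) with hβ
    have hx' : (nsq x : ℂ) ≠ 0 := by exact_mod_cast hx
    have hne := lf_ne h
    have hD : ∀ w, D w (fun x => Real.log (hb b x)) x = 2 * (β w).re := by
      intro w
      have d1 : DifferentiableAt ℝ (fun x => Complex.normSq (lf b x)) x :=
        (contDiff_normSq_lf b).contDiffAt.differentiableAt (by simp)
      have d2 : DifferentiableAt ℝ (fun x : Cn l => nsq x) x :=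
        contDiff_nsq.contDiffAt.differentiableAt (by simp)
      rw [LC.D_congr w (log_hb_ev hx h), LC.D_sub w (d1.log (normSq_ne hx h)) (d2.log hx),
        LC.D_log w d1 (normSq_ne hx h), D_log_nsq hx]
      have e1 : D w (fun x => Complex.normSq (lf b x)) x =
          2 * (lf b w * (starRingEnd ℂ) (lf b x)).re := by
        have e2 : (fun x : Cn l => Complex.normSq (lf b x)) = fun x =>
            (lf b x).re * (lf b x).re + (lf b x).im * (lf b x).im := by
          funext x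
          exact Complex.normSq_apply _
        have d3 : HasFDerivAt (fun x : Cn l => (lf b x).re) (Complex.reCLM.comp (lfL b)) x :=
          (Complex.reCLM.comp (lfL b)).hasFDerivAt
        have d4 : HasFDerivAt (fun x : Cn l => (lf b x).im) (Complex.imCLM.comp (lfL b)) x :=
          (Complex.imCLM.comp (lfL b)).hasFDerivAt
        have d5 := ((d3.fun_mul d3).fun_add (d4.fun_mul d4)).fderiv
        unfold D
        rw [e2, d5]
        simp [lfL_apply]
        ring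
      have e3 : (β w).re = (lf b w * (starRingEnd ℂ) (lf b x)).re / Complex.normSq (lf b x) -
          (H w).re / nsq x := by
        have e4 : β w = lf b w * (starRingEnd ℂ) (lf b x) / (Complex.normSq (lf b x) : ℂ) -
            H w / (nsq x : ℂ) := by
          have e5 : (Complex.normSq (lf b x) : ℂ) = lf b x * (starRingEnd ℂ) (lf b x) :=
            (Complex.mul_conj _).symm
          have e6 : (starRingEnd ℂ) (lf b x) ≠ 0 := (map_ne_zero _).2 hne
          rw [hβ, e5]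
          field_simp
        rw [e4, Complex.sub_re, Complex.div_ofReal_re, Complex.div_ofReal_re]
      have e7 : ip x w = (H w).re := by
        rw [hH, Complex.re_sum]
        unfold ip dotProduct
        rw [← Finset.sum_add_distrib]
        refine Finset.sum_congr rfl fun j _ => ?_
        simp [cc]
        ring
      rw [e1, e3, e7]
      ring
    have hJ : β (J v) = Complex.I * β v := by
      have e1 : H (J v) = Complex.I * H v := by
        rw [hH]
        simp only [Finset.mul_sum]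
        refine Finset.sum_congr rfl fun j _ => ?_
        rw [cc_J]
        ring
      simp only [hβ]
      rw [e1, lf_J]
      ring
    have e1 : dsq (fun x => Real.log (hb b x)) v x = Complex.normSq (β v) := by
      unfold dsq
      rw [hD, hD, hJ, Complex.normSq_apply]
      simp
      ring
    rw [e1, hβ, Complex.normSq_div, Complex.normSq_mul, Complex.normSq_ofReal]
    ring
  rw [key]
  have h1 := cs_key b x v hx
  rw [hb1, mul_one] at h1
  have h2 := nsq_nonneg x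
  have h3 : 0 < nsq x := lt_of_le_of_ne h2 (Ne.symm hx)
  have h4 : 0 < Complex.normSq (lf b x) := Complex.normSq_pos.2 (lf_ne h)
  rw [div_le_iff₀ (by positivity)]
  refine h1.trans (le_of_eq ?_)
  rw [hb, FS]
  field_simp

theorem hb_le_one (hb1 : ∑ j, Complex.normSq (b j) = 1) (x : Cn l) : hb b x ≤ 1 := by
  have h1 : Complex.normSq (lf b x) ≤ nsq x := by
    have h2 : ‖lf b x‖ ≤ ∑ j, ‖b j‖ * ‖cc x j‖ := by
      refine (norm_sum_le _ _).trans (le_of_eq ?_)
      exact Finset.sum_congr rfl fun j _ => norm_mul _ _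
    have h3 : (∑ j, ‖b j‖ * ‖cc x j‖) ^ 2 ≤ (∑ j, ‖b j‖ ^ 2) * ∑ j, ‖cc x j‖ ^ 2 :=
      Finset.sum_mul_sq_le_sq_mul_sq _ _ _
    simp only [← Complex.normSq_eq_norm_sq] at h3
    rw [hb1, one_mul, ← nsq_eq] at h3
    rw [Complex.normSq_eq_norm_sq]
    exact (pow_le_pow_left₀ (norm_nonneg _) h2 2).trans h3
  exact div_le_one_of_le₀ h1 (nsq_nonneg x)

theorem dsq_hb (hx : nsq x ≠ 0) (h : hb b x ≠ 0) (v : Cn l) :
    dsq (hb b) v x = hb b x ^ 2 * dsq (fun x => Real.log (hb b x)) v x := by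
  have d : DifferentiableAt ℝ (hb b) x := (contDiffAt_hb hx).differentiableAt (by simp)
  rw [dsq_log d h]
  field_simp

theorem dsq_hb_le (hx : nsq x ≠ 0) (h : hb b x ≠ 0) (hb1 : ∑ j, Complex.normSq (b j) = 1)
    (v : Cn l) : dsq (hb b) v x ≤ hb b x * (1 - hb b x) * FS x v := by
  rw [dsq_hb hx h]
  calc hb b x ^ 2 * dsq (fun x => Real.log (hb b x)) v x ≤
      hb b x ^ 2 * (((hb b x)⁻¹ - 1) * FS x v) :=
        mul_le_mul_of_nonneg_left (dsq_log_hb hx h hb1 v) (sq_nonneg _)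
    _ = _ := by field_simp

theorem levz_hb (hx : nsq x ≠ 0) (h : hb b x ≠ 0) (v : Cn l) :
    levz (hb b) v x = -(hb b x * FS x v) + dsq (hb b) v x / hb b x := by
  have c : ContDiffAt ℝ 2 (hb b) x := (contDiffAt_hb hx).of_le two_le_infty
  have h1 := levz_log_hb hx h v
  rw [levz_log c h] at h1
  have h2 : levz (hb b) v x = hb b x * (levz (hb b) v x / hb b x - dsq (hb b) v x / hb b x ^ 2) +
      dsq (hb b) v x / hb b x := by
    field_simp
    ring
  rw [h2, h1]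
  ring

theorem abs_levz_hb (hx : nsq x ≠ 0) (h : hb b x ≠ 0) (hb1 : ∑ j, Complex.normSq (b j) = 1)
    (v : Cn l) : |levz (hb b) v x| ≤ FS x v := by
  have h0 : 0 < hb b x := lt_of_le_of_ne (hb_nonneg b x) (Ne.symm h)
  have h1 := hb_le_one hb1 x
  have h2 := FS_nonneg x v
  have h3 : dsq (hb b) v x / hb b x ≤ (1 - hb b x) * FS x v := by
    rw [div_le_iff₀ h0]
    refine (dsq_hb_le hx h hb1 v).trans (le_of_eq ?_)
    ring
  have h4 : 0 ≤ dsq (hb b) v x / hb b x := div_nonneg (dsq_nonneg _ _ _) h0.le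
  rw [levz_hb hx h, abs_le]
  constructor <;> nlinarith

/-! ### The cut-off -/

theorem exists_Xi {s₀ s₁ : ℝ} (hs : s₀ < s₁) : ∃ Xi : ℝ → ℝ, ContDiff ℝ ∞ Xi ∧
    (∀ s, 0 ≤ Xi s) ∧ (∀ s, Xi s ≤ 1) ∧ (∀ s, Xi s = 0 ↔ s ≤ s₀) ∧ (∀ s, s₁ ≤ s → Xi s = 1) ∧
    ∃ C : ℝ, 0 ≤ C ∧ ∀ s ∈ Icc (0 : ℝ) 1, |deriv Xi s| ≤ C ∧
      |deriv (deriv Xi) s| ≤ C ∧ deriv Xi s ^ 2 ≤ C * Xi s := by
  have hc : 0 < s₁ - s₀ := sub_pos.2 hs
  set θ : ℝ → ℝ := fun s => Real.smoothTransition ((s - s₀) / (s₁ - s₀)) with hθ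
  have cθ : ContDiff ℝ ∞ θ := Real.smoothTransition.contDiff.comp
    ((contDiff_id.sub contDiff_const).div_const _)
  set Xi : ℝ → ℝ := fun s => θ s ^ 2 with hXi
  have cX : ContDiff ℝ ∞ Xi := cθ.pow 2
  have c1 : Continuous (deriv Xi) := cX.continuous_deriv (by simp)
  have c2 : Continuous (deriv (deriv Xi)) := by
    have h1 : ContDiff ℝ 1 (deriv Xi) := by
      have h2 : ContDiff ℝ (1 + 1) Xi := by
        rw [one_add_one_eq_two]
        exact cX.of_le two_le_infty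
      exact (contDiff_succ_iff_deriv.1 h2).2.2
    exact h1.continuous_deriv le_rfl
  have c3 : Continuous (deriv θ) := cθ.continuous_deriv (by simp)
  have hd : ∀ s, deriv Xi s = 2 * θ s * deriv θ s := by
    intro s
    have h1 : HasDerivAt θ (deriv θ s) s := (cθ.differentiable (by simp) s).hasDerivAt
    have h2 := (h1.fun_pow 2).deriv
    rw [hXi, h2]
    simp
  obtain ⟨C1, hC1⟩ := (isCompact_Icc (a := (0 : ℝ)) (b := 1)).exists_bound_of_continuousOn
    c1.continuousOn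
  obtain ⟨C2, hC2⟩ := (isCompact_Icc (a := (0 : ℝ)) (b := 1)).exists_bound_of_continuousOn
    c2.continuousOn
  obtain ⟨C3, hC3⟩ := (isCompact_Icc (a := (0 : ℝ)) (b := 1)).exists_bound_of_continuousOn
    c3.continuousOn
  refine ⟨Xi, cX, fun s => sq_nonneg _, fun s => ?_, fun s => ⟨fun h => ?_, fun h => ?_⟩,
    fun s hs => ?_, max (max C1 C2) (4 * C3 ^ 2), ?_, fun s hs => ⟨?_, ?_, ?_⟩⟩
  · have h1 := Real.smoothTransition.le_one ((s - s₀) / (s₁ - s₀))
    have h2 := Real.smoothTransition.nonneg ((s - s₀) / (s₁ - s₀))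
    exact pow_le_one₀ h2 h1
  · by_contra hlt
    rw [not_le] at hlt
    have h1 : 0 < θ s := Real.smoothTransition.pos_of_pos (div_pos (sub_pos.2 hlt) hc)
    have h2 : 0 < Xi s := pow_pos h1 2
    exact h2.ne' h
  · have h1 : θ s = 0 := Real.smoothTransition.zero_of_nonpos
      (div_nonpos_of_nonpos_of_nonneg (sub_nonpos.2 h) hc.le)
    simp [hXi, h1]
  · have h1 : θ s = 1 := Real.smoothTransition.one_of_one_le (by rw [le_div_iff₀ hc]; linarith)
    simp [hXi, h1]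
  · exact (by positivity : (0 : ℝ) ≤ 4 * C3 ^ 2).trans (le_max_right _ _)
  · exact ((hC1 s hs).trans (le_max_left _ _)).trans (le_max_left _ _)
  · exact ((hC2 s hs).trans (le_max_right _ _)).trans (le_max_left _ _)
  · rw [hd]
    have h1 : deriv θ s ^ 2 ≤ C3 ^ 2 := by
      rw [← sq_abs]
      exact pow_le_pow_left₀ (abs_nonneg _) (hC3 s hs) 2
    have h2 : 4 * C3 ^ 2 ≤ max (max C1 C2) (4 * C3 ^ 2) := le_max_right _ _
    calc (2 * θ s * deriv θ s) ^ 2 = 4 * deriv θ s ^ 2 * Xi s := by rw [hXi]; ring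
      _ ≤ 4 * C3 ^ 2 * Xi s := by
        refine mul_le_mul_of_nonneg_right ?_ (sq_nonneg _)
        linarith
      _ ≤ _ := mul_le_mul_of_nonneg_right h2 (sq_nonneg _)

/-- The Levi form of `log Xi(h_b)`. -/
theorem levz_log_kappa {Xi : ℝ → ℝ} (hXi : ContDiff ℝ ∞ Xi) (h0 : ∀ s, 0 ≤ Xi s)
    {C : ℝ} (hC : ∀ s ∈ Icc (0 : ℝ) 1, |deriv Xi s| ≤ C ∧
      |deriv (deriv Xi) s| ≤ C ∧ deriv Xi s ^ 2 ≤ C * Xi s)
    (hb1 : ∑ j, Complex.normSq (b j) = 1) (hx : nsq x ≠ 0) (h : hb b x ≠ 0)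
    (hk : Xi (hb b x) ≠ 0) (v : Cn l) :
    -(3 * C * FS x v / Xi (hb b x)) ≤ levz (fun x => Real.log (Xi (hb b x))) v x := by
  have hmem : hb b x ∈ Icc (0 : ℝ) 1 := ⟨hb_nonneg b x, hb_le_one hb1 x⟩
  obtain ⟨C1, C2, C3⟩ := hC _ hmem
  have ch : ContDiffAt ℝ 2 (hb b) x := (contDiffAt_hb hx).of_le two_le_infty
  have cX : ContDiffAt ℝ 2 Xi (hb b x) := hXi.contDiffAt.of_le two_le_infty
  have ck : ContDiffAt ℝ 2 (fun x => Xi (hb b x)) x := cX.comp x ch
  have hpos : 0 < Xi (hb b x) := lt_of_le_of_ne (h0 _) (Ne.symm hk)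
  rw [levz_log ck hk, levz_fun cX ch, dsq_fun (cX.differentiableAt (by norm_num))
    (ch.differentiableAt (by norm_num))]
  have hF := FS_nonneg x v
  have hd0 := dsq_nonneg (hb b) v x
  have hd1 : dsq (hb b) v x ≤ FS x v := by
    refine (dsq_hb_le hx h hb1 v).trans ?_
    have h1 : hb b x * (1 - hb b x) ≤ 1 := by nlinarith [hmem.1, hmem.2]
    exact (mul_le_mul_of_nonneg_right h1 hF).trans (le_of_eq (one_mul _))
  have hC0 : 0 ≤ C := (abs_nonneg _).trans C1
  have e1 : -(C * FS x v) ≤ deriv Xi (hb b x) * levz (hb b) v x := by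
    have h1 : |deriv Xi (hb b x) * levz (hb b) v x| ≤ C * FS x v := by
      rw [abs_mul]
      exact mul_le_mul C1 (abs_levz_hb hx h hb1 v) (abs_nonneg _) hC0
    exact (abs_le.1 h1).1
  have e2 : -(C * FS x v) ≤ deriv (deriv Xi) (hb b x) * dsq (hb b) v x := by
    have h1 : |deriv (deriv Xi) (hb b x) * dsq (hb b) v x| ≤ C * FS x v := by
      rw [abs_mul, abs_of_nonneg hd0]
      exact mul_le_mul C2 hd1 hd0 hC0
    exact (abs_le.1 h1).1
  have e3 : deriv Xi (hb b x) ^ 2 * dsq (hb b) v x / Xi (hb b x) ^ 2 ≤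
      C * FS x v / Xi (hb b x) := by
    rw [div_le_div_iff₀ (by positivity) hpos]
    have h1 : deriv Xi (hb b x) ^ 2 * dsq (hb b) v x ≤ C * Xi (hb b x) * FS x v :=
      mul_le_mul C3 hd1 hd0 (by positivity)
    calc deriv Xi (hb b x) ^ 2 * dsq (hb b) v x * Xi (hb b x) ≤
        C * Xi (hb b x) * FS x v * Xi (hb b x) := mul_le_mul_of_nonneg_right h1 hpos.le
      _ = _ := by ring
  have e4 : -(2 * C * FS x v) / Xi (hb b x) ≤ (deriv Xi (hb b x) * levz (hb b) v x +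
      deriv (deriv Xi) (hb b x) * dsq (hb b) v x) / Xi (hb b x) := by
    gcongr
    linarith
  have e5 : -(3 * C * FS x v / Xi (hb b x)) = -(2 * C * FS x v) / Xi (hb b x) -
      C * FS x v / Xi (hb b x) := by ring
  rw [e5]
  linarith

end Pool.Agent.KRFCh.Cp

end

section

/-!
# Cut-off functions on the caps
-/

open scoped ContDiff Topology
open Set Filter Pool.Agent.ToricKRF Pool.Agent.ToricKRF.G Pool.Agent.KRFS
open Pool.Agent.KRFX.NC (contDiff_nsq nsq_nonneg nsq_eq_zero levz_log_nsq)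

namespace Pool.Agent.KRFCh

variable {l : ℕ}

/-- the coefficients of the linear form `<x, b> / |b|` -/
noncomputable def ucf (b : Cn l) (k : Fin l) : ℂ :=
  (starRingEnd ℂ) (cc b k) * (((√(nsq b))⁻¹ : ℝ) : ℂ)

theorem lf_ucf (b x : Cn l) : Cp.lf (ucf b) x =
    (((√(nsq b))⁻¹ : ℝ) : ℂ) * ∑ k, cc x k * (starRingEnd ℂ) (cc b k) := by
  unfold Cp.lf ucf
  rw [Finset.mul_sum]
  refine Finset.sum_congr rfl fun k _ => ?_
  ring

theorem hb_ucf (b x : Cn l) : Cp.hb (ucf b) x = hcap b x := by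
  have h0 := nsq_nonneg b
  rw [Cp.hb, lf_ucf, hcap, Complex.normSq_mul, Complex.normSq_ofReal,
    Complex.normSq_eq_norm_sq]
  have h1 : (√(nsq b))⁻¹ * (√(nsq b))⁻¹ = (nsq b)⁻¹ := by
    rw [← mul_inv, Real.mul_self_sqrt h0]
  rw [h1, div_eq_mul_inv, div_eq_mul_inv, mul_inv]
  ring

theorem sum_ucf {b : Cn l} (hb : b ≠ 0) : ∑ k, Complex.normSq (ucf b k) = 1 := by
  have h0 : 0 < nsq b := lt_of_le_of_ne (nsq_nonneg b) fun h => hb (nsq_eq_zero.1 h.symm)
  have h1 : ∀ k, Complex.normSq (ucf b k) = Complex.normSq (cc b k) * (nsq b)⁻¹ := by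
    intro k
    rw [ucf, Complex.normSq_mul, Complex.normSq_ofReal, Complex.normSq_conj, ← mul_inv,
      Real.mul_self_sqrt h0.le]
  simp only [h1]
  rw [← Finset.sum_mul, ← Cp.nsq_eq, mul_inv_cancel₀ h0.ne']

theorem hcap_eq (b : Cn l) : hcap b = Cp.hb (ucf b) := funext fun x => (hb_ucf b x).symm

theorem contDiffOn_hcap {l : ℕ} (b : Cn l) : ContDiffOn ℝ ∞ (hcap b) {x | x ≠ 0} := by
  intro x hx
  rw [hcap_eq]
  exact (Cp.contDiffAt_hb fun h => hx (nsq_eq_zero.1 h)).contDiffWithinAt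

theorem exists_cap (l : ℕ) {η : ℝ} (hη : 0 < η) (hη1 : η ≤ 1) : ∃ (χ : ℝ → ℝ) (C : ℝ),
    ContDiff ℝ ∞ χ ∧ 0 < C ∧ (∀ s, 0 ≤ χ s ∧ χ s ≤ 1) ∧ (∀ s, χ s = 0 ↔ s ≤ 1 - η / 2) ∧
    (∀ s, 1 - η / 4 ≤ s → C⁻¹ ≤ χ s) ∧
    ∀ b x v : Cn l, b ≠ 0 → x ≠ 0 → 1 - η / 2 < hcap b x →
      -C * levz (fun x => Real.log (nsq x)) v x ≤
        χ (hcap b x) * levz (fun x => Real.log (χ (hcap b x))) v x := by
  obtain ⟨χ, h1, h2, h3, h4, h5, C, hC0, hC⟩ :=
    Cp.exists_Xi (s₀ := 1 - η / 2) (s₁ := 1 - η / 4) (by linarith)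
  refine ⟨χ, 3 * C + 1, h1, by positivity, fun s => ⟨h2 s, h3 s⟩, h4, fun s hs => ?_,
    fun b x v hb hx hbx => ?_⟩
  · rw [h5 s hs]
    exact inv_le_one_of_one_le₀ (by linarith)
  · have hx0 : nsq x ≠ 0 := fun h => hx (nsq_eq_zero.1 h)
    have hh : Cp.hb (ucf b) x ≠ 0 := by
      rw [hb_ucf]
      have : 0 < hcap b x := by linarith
      exact this.ne'
    have hk : χ (Cp.hb (ucf b) x) ≠ 0 := by
      rw [hb_ucf]
      intro h
      have := (h4 _).1 h
      linarith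
    have h6 := Cp.levz_log_kappa h1 h2 hC (sum_ucf hb) hx0 hh hk v
    have h7 : 0 < χ (Cp.hb (ucf b) x) := lt_of_le_of_ne (h2 _) (Ne.symm hk)
    rw [levz_log_nsq hx0]
    change -(3 * C + 1) * Cp.FS x v ≤ _
    have h8 := Cp.FS_nonneg x v
    have h9 := mul_le_mul_of_nonneg_left h6 h7.le
    rw [hcap_eq]
    refine le_trans ?_ h9
    have h10 : χ (Cp.hb (ucf b) x) * -(3 * C * Cp.FS x v / χ (Cp.hb (ucf b) x)) =
        -(3 * C * Cp.FS x v) := by
      field_simp
    rw [h10]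
    linarith

end Pool.Agent.KRFCh

end

section

/-!
# Finitely many caps
-/

open scoped ContDiff ENNReal ComplexOrder LinearAlgebra.Projectivization Topology
open Set Filter Pool.Agent.ToricKRF Pool.Agent.ToricKRF.G Pool.Agent.KRFS Pool.Agent.KRFF
  Pool.Agent.KRFZ
open Pool.Agent.KRFX.NC (contDiff_nsq nsq_nonneg nsq_eq_zero)

namespace Pool.Agent.KRFCh

section Cap

variable {l : ℕ}

theorem nsq_pos {x : Cn l} (hx : x ≠ 0) : 0 < nsq x :=
  lt_of_le_of_ne (nsq_nonneg x) fun h => hx (nsq_eq_zero.1 h.symm)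

/-- the multiple `c x` -/
noncomputable def csm (c : ℂ) (x : Cn l) : Cn l := c.re • x + c.im • J x

theorem cc_csm (c : ℂ) (x : Cn l) (k : Fin l) : cc (csm c x) k = c * cc x k := by
  unfold csm
  rw [Pool.Agent.KRFQ.cc_add, Pool.Agent.KRFQ.cc_smul, Pool.Agent.KRFQ.cc_smul, cc_J]
  conv_rhs => rw [← Complex.re_add_im c]
  ring

theorem csm_csm (c d : ℂ) (x : Cn l) : csm c (csm d x) = csm (c * d) x :=
  Pool.Agent.KRFQ.cc_ext fun k => by rw [cc_csm, cc_csm, cc_csm]; ring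

theorem csm_one (x : Cn l) : csm 1 x = x :=
  Pool.Agent.KRFQ.cc_ext fun k => by rw [cc_csm, one_mul]

theorem normSq_re_im {c : ℂ} (hc : c ≠ 0) : c.re ^ 2 + c.im ^ 2 ≠ 0 := by
  have h := Complex.normSq_pos.2 hc
  rw [Complex.normSq_apply] at h
  nlinarith

/-- the distance of `b` to the line of `x` -/
theorem exists_mult {b x : Cn l} (hx : x ≠ 0) (h : 0 < hcap b x) : ∃ c : ℂ, c ≠ 0 ∧
    nsq (csm c x - b) = nsq b * (1 - hcap b x) := by
  have hx0 := nsq_pos hx
  have hb : b ≠ 0 := by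
    rintro rfl
    simp [hcap, nsq] at h
  have hb0 := nsq_pos hb
  set s : ℂ := ∑ k, cc x k * (starRingEnd ℂ) (cc b k) with hs
  have hs0 : s ≠ 0 := by
    intro h0
    rw [hcap, ← hs, h0] at h
    simp at h
  refine ⟨(starRingEnd ℂ) s / (nsq x : ℂ), div_ne_zero ((map_ne_zero _).2 hs0)
    (by exact_mod_cast hx0.ne'), ?_⟩
  set c : ℂ := (starRingEnd ℂ) s / (nsq x : ℂ) with hc
  have h1 : (nsq (csm c x - b) : ℂ) = c * (starRingEnd ℂ) c * (nsq x : ℂ) -
      c * s - (starRingEnd ℂ) (c * s) + (nsq b : ℂ) := by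
    rw [Cp.nsq_eq, Cp.nsq_eq x, Cp.nsq_eq b]
    push_cast
    simp only [← Complex.mul_conj, hs, Finset.mul_sum, map_sum]
    rw [← Finset.sum_sub_distrib, ← Finset.sum_sub_distrib, ← Finset.sum_add_distrib]
    refine Finset.sum_congr rfl fun k _ => ?_
    rw [Pool.Agent.KRFQ.cc_sub, cc_csm]
    simp only [map_sub, map_mul, Complex.conj_conj]
    ring
  have h2 : c * s = ((‖s‖ ^ 2 / nsq x : ℝ) : ℂ) := by
    rw [hc]
    push_cast
    rw [← Complex.conj_mul']
    ring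
  have h3 : c * (starRingEnd ℂ) c * (nsq x : ℂ) = ((‖s‖ ^ 2 / nsq x : ℝ) : ℂ) := by
    have hx1 : (nsq x : ℂ) ≠ 0 := by exact_mod_cast hx0.ne'
    rw [hc]
    push_cast
    rw [map_div₀, Complex.conj_conj, Complex.conj_ofReal, ← Complex.conj_mul']
    field_simp
  rw [h2, h3, Complex.conj_ofReal] at h1
  have h4 : nsq (csm c x - b) = ‖s‖ ^ 2 / nsq x - ‖s‖ ^ 2 / nsq x - ‖s‖ ^ 2 / nsq x + nsq b := by
    exact_mod_cast h1
  rw [h4, hcap, ← hs]
  field_simp
  ring

/-- a cone which contains `b` contains a cap -/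
theorem exists_eta {O : Set (Cn l)} (hO : IsOpen O)
    (hc : ∀ x ∈ O, ∀ a b : ℝ, a ^ 2 + b ^ 2 ≠ 0 → a • x + b • J x ∈ O) {b : Cn l} (hb : b ∈ O)
    (hb0 : b ≠ 0) : ∃ η : ℝ, 0 < η ∧ η ≤ 1 ∧ ∀ x, x ≠ 0 → 1 - η < hcap b x → x ∈ O := by
  obtain ⟨δ, hδ, hball⟩ : ∃ δ > 0, ∀ y : Cn l, nsq (y - b) < δ → y ∈ O := by
    obtain ⟨r, hr, hsub⟩ := Metric.isOpen_iff.1 hO b hb
    refine ⟨r ^ 2, by positivity, fun y hy => hsub ?_⟩
    rw [Metric.mem_ball, dist_eq_norm, Prod.norm_def]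
    have h1 : ∀ i, |(y - b).1 i| < r := fun i => by
      have h2 := Pool.Agent.KRFS.ABP.sq_le_nsq₁ (y - b) i
      exact abs_lt_of_sq_lt_sq (lt_of_le_of_lt h2 hy) hr.le
    have h2 : ∀ i, |(y - b).2 i| < r := fun i => by
      have h2 := Pool.Agent.KRFS.ABP.sq_le_nsq₂ (y - b) i
      exact abs_lt_of_sq_lt_sq (lt_of_le_of_lt h2 hy) hr.le
    exact max_lt ((pi_norm_lt_iff hr).2 h1) ((pi_norm_lt_iff hr).2 h2)
  have hb1 := nsq_pos hb0
  refine ⟨min 1 (δ / nsq b), lt_min one_pos (by positivity), min_le_left _ _, fun x hx hx1 => ?_⟩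
  have h0 : 0 < hcap b x := by
    have := min_le_left (1 : ℝ) (δ / nsq b)
    linarith
  obtain ⟨c, hc0, h1⟩ := exists_mult hx h0
  have h2 : nsq (csm c x - b) < δ := by
    rw [h1]
    have h3 : 1 - hcap b x < δ / nsq b := by
      have := min_le_right (1 : ℝ) (δ / nsq b)
      linarith
    rw [lt_div_iff₀ hb1] at h3
    linarith
  have h3 := hball _ h2
  have h4 := hc _ h3 (c⁻¹).re (c⁻¹).im (normSq_re_im (inv_ne_zero hc0))
  change csm c⁻¹ (csm c x) ∈ O at h4
  rwa [csm_csm, inv_mul_cancel₀ hc0, csm_one] at h4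

theorem hcap_self {b : Cn l} (hb : b ≠ 0) : hcap b b = 1 := by
  have h1 : ∑ k, cc b k * (starRingEnd ℂ) (cc b k) = ((nsq b : ℝ) : ℂ) := by
    rw [Cp.nsq_eq]
    push_cast
    exact Finset.sum_congr rfl fun k _ => Complex.mul_conj _
  have hb1 := nsq_pos hb
  rw [hcap, h1, Complex.norm_real, Real.norm_of_nonneg hb1.le]
  field_simp

theorem hcap_smul {r : ℝ} (hr : r ≠ 0) (b x : Cn l) : hcap b (r • x) = hcap b x := by
  unfold hcap
  have h1 : ∑ k, cc (r • x) k * (starRingEnd ℂ) (cc b k) =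
      (r : ℂ) * ∑ k, cc x k * (starRingEnd ℂ) (cc b k) := by
    rw [Finset.mul_sum]
    refine Finset.sum_congr rfl fun k _ => ?_
    rw [Pool.Agent.KRFQ.cc_smul]
    ring
  rw [h1, Pool.Agent.KRFS.ABP.nsq_smul, norm_mul, mul_pow, Complex.norm_real, Real.norm_eq_abs,
    sq_abs, mul_assoc, mul_div_mul_left _ _ (pow_ne_zero 2 hr)]

/-- finitely many caps cover -/
theorem exists_finite_caps (η : Cn l → ℝ) (hη : ∀ b, b ≠ 0 → 0 < η b) :
    ∃ t : Finset (Cn l), (∀ b ∈ t, b ≠ 0) ∧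
      ∀ x, x ≠ 0 → ∃ b ∈ t, 1 - η b / 4 < hcap b x := by
  classical
  set K : Set (Cn l) := {x | nsq x = 1} with hK
  have hKc : IsCompact K := by
    have h1 : K = {x | nsq x ≤ 1} ∩ {x | nsq x = 1} := by
      ext x
      simp only [hK, mem_ofPred_eq, mem_inter_iff]
      constructor
      · intro h
        exact ⟨h.le, h⟩
      · exact fun h => h.2
    rw [h1]
    exact Pool.Agent.KRFS.ABP.isCompact_nsq.inter_right
      (isClosed_eq contDiff_nsq.continuous continuous_const)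
  have hne : ∀ x ∈ K, x ≠ 0 := by
    rintro x hx rfl
    simp [hK, nsq] at hx
  set V : Cn l → Set (Cn l) := fun b => {x | x ≠ 0 ∧ 1 - η b / 4 < hcap b x} with hV
  have hVo : ∀ b, IsOpen (V b) := fun b =>
    (contDiffOn_hcap b).continuousOn.isOpen_inter_preimage isOpen_ne isOpen_Ioi
  obtain ⟨t, ht, hcov⟩ := hKc.elim_nhds_subcover V fun b hb =>
    (hVo b).mem_nhds ⟨hne b hb, by
      rw [hcap_self (hne b hb)]
      have := hη b (hne b hb)
      linarith⟩
  refine ⟨t, fun b hb => hne b (ht b hb), fun x hx => ?_⟩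
  have hx0 := nsq_pos hx
  have hs : √(nsq x) ≠ 0 := (Real.sqrt_pos.2 hx0).ne'
  have h1 : (√(nsq x))⁻¹ • x ∈ K := by
    rw [hK, mem_ofPred_eq, Pool.Agent.KRFS.ABP.nsq_smul, inv_pow, Real.sq_sqrt hx0.le,
      inv_mul_cancel₀ hx0.ne']
  have h2 := hcov h1
  simp only [mem_iUnion, exists_prop] at h2
  obtain ⟨b, hb, hbx⟩ := h2
  refine ⟨b, hb, ?_⟩
  have h3 := hbx.2
  rwa [hcap_smul (inv_ne_zero hs)] at h3

end Cap

section

variable {M Z : Type} [MetricSpace M] [CompactSpace M] [MetricSpace Z]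
  {f : M → Z} {S : Set Z} {L : ℕ} {ι : M → ℙ ℂ (Fin (L + 1) → ℂ)}

omit [MetricSpace M] [CompactSpace M] in
theorem IsEq.mono {r : ℕ} {O : Set (Cn (L + 1))} {S₁ S₂ : Set Z}
    {E : Z → Cn (L + 1) → Cn r} {C₁ C₂ : ℝ} (h : IsEq f ι O S₁ E C₁) (hS : S₂ ⊆ S₁)
    (hC : C₁ ≤ C₂) : IsEq f ι O S₂ E C₂ where
  isOpen := h.isOpen
  ne := h.ne
  cone := h.cone
  hol := fun w hw => h.hol w (hS hw)
  upper := fun w hw x hx p x' hx' hp => (h.upper w (hS hw) x hx p x' hx' hp).trans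
    (mul_le_mul_of_nonneg_right hC (add_nonneg (div_nonneg (nsq_nonneg _) (nsq_nonneg _))
      (sq_nonneg _)))
  lower := fun w hw x hx => by
    obtain ⟨p, x', hx', hp, h1⟩ := h.lower w (hS hw) x hx
    exact ⟨p, x', hx', hp, h1.trans (mul_le_mul_of_nonneg_right hC (nsq_nonneg _))⟩

omit [CompactSpace M] in
theorem exists_cover {r : ℕ} {z₀ : Z} (h : ∀ x₁ : Cn (L + 1), x₁ ≠ 0 →
    ∃ (O : Set (Cn (L + 1))) (S' : Set Z) (E : Z → Cn (L + 1) → Cn r) (C : ℝ),
      x₁ ∈ O ∧ IsOpen S' ∧ z₀ ∈ S' ∧ S' ⊆ S ∧ 0 < C ∧ IsEq f ι O S' E C) :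
    ∃ (S' : Set Z) (C : ℝ) (m : ℕ) (b : Fin m → Cn (L + 1)) (η : Fin m → ℝ)
      (O : Fin m → Set (Cn (L + 1))) (E : Fin m → Z → Cn (L + 1) → Cn r),
      IsOpen S' ∧ z₀ ∈ S' ∧ S' ⊆ S ∧ 0 < C ∧
      (∀ i, b i ≠ 0 ∧ 0 < η i ∧ η i ≤ 1 ∧ IsEq f ι (O i) S' (E i) C ∧
        ∀ x, x ≠ 0 → 1 - η i < hcap (b i) x → x ∈ O i) ∧
      ∀ x, x ≠ 0 → ∃ i, 1 - η i / 4 < hcap (b i) x := by
  classical
  choose! O S' E C hxO hS'o hz hS'S hC hE using h
  have h1 : ∀ b : Cn (L + 1), b ≠ 0 → ∃ η : ℝ, 0 < η ∧ η ≤ 1 ∧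
      ∀ x, x ≠ 0 → 1 - η < hcap b x → x ∈ O b := fun b hb =>
    exists_eta (hE b hb).isOpen (hE b hb).cone (hxO b hb) hb
  choose! η hη hη1 hcap' using h1
  obtain ⟨t, ht, hcov⟩ := exists_finite_caps η hη
  set g : Fin t.card → Cn (L + 1) := fun i => (t.equivFin.symm i : Cn (L + 1)) with hg
  have hgt : ∀ i, g i ∈ t := fun i => (t.equivFin.symm i).2
  have hg0 : ∀ i, g i ≠ 0 := fun i => ht _ (hgt i)
  have hCi : ∀ i, C (g i) ≤ 1 + ∑ j, C (g j) := fun i => by
    have : C (g i) ≤ ∑ j, C (g j) :=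
      Finset.single_le_sum (f := fun j => C (g j)) (fun j _ => (hC _ (hg0 j)).le)
        (Finset.mem_univ i)
    linarith
  have hne : ∃ i, g i = g i ∧ S' (g i) ⊆ S := by
    have h2 : ((fun _ => 1, 0) : Cn (L + 1)) ≠ 0 := by
      intro h
      have h3 := congrFun (congrArg Prod.fst h) 0
      simp at h3
    obtain ⟨b, hb, -⟩ := hcov _ h2
    exact ⟨t.equivFin ⟨b, hb⟩, rfl, hS'S _ (hg0 _)⟩
  obtain ⟨i₀, -, hi₀⟩ := hne
  refine ⟨⋂ i, S' (g i), 1 + ∑ j, C (g j), t.card, g, fun i => η (g i),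
    fun i => O (g i), fun i => E (g i), isOpen_iInter_of_finite fun i => hS'o _ (hg0 i),
    mem_iInter.2 fun i => hz _ (hg0 i), (iInter_subset _ i₀).trans hi₀, ?_, fun i => ?_, ?_⟩
  · have : 0 ≤ ∑ j, C (g j) := Finset.sum_nonneg fun j _ => (hC _ (hg0 j)).le
    linarith
  · exact ⟨hg0 i, hη _ (hg0 i), hη1 _ (hg0 i),
      (hE _ (hg0 i)).mono (iInter_subset _ i) (hCi i),
      hcap' _ (hg0 i)⟩
  · intro x hx
    obtain ⟨b, hb, hbx⟩ := hcov x hx
    refine ⟨t.equivFin ⟨b, hb⟩, ?_⟩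
    have h2 : g (t.equivFin ⟨b, hb⟩) = b := by
      rw [hg]
      simp
    change 1 - η (g (t.equivFin ⟨b, hb⟩)) / 4 < hcap (g (t.equivFin ⟨b, hb⟩)) x
    rw [h2]
    exact hbx

end

end Pool.Agent.KRFCh

end

section

/-!
# Homogenisation of polynomials and limits of polynomials of bounded degree (helper28)
-/

open Filter Topology

namespace Pool.Agent.KRFCh.Hg

/-- The form `x_a^(D+1) P(x / x_a)` of degree `D + 1`: the coordinates `x_j / x_a`, `j` different
from `a`, are listed by `Fin.succAbove`. -/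
theorem exists_homog {L : ℕ} (a : Fin (L + 1)) (D : ℕ) (P : MvPolynomial (Fin L) ℂ)
    (hP : P.totalDegree ≤ D) :
    ∃ Q : MvPolynomial (Fin (L + 1)) ℂ, Q.IsHomogeneous (D + 1) ∧
      (∀ x : Fin (L + 1) → ℂ, x a = 0 → MvPolynomial.eval x Q = 0) ∧
      ∀ x : Fin (L + 1) → ℂ, x a ≠ 0 → MvPolynomial.eval x Q =
        x a ^ (D + 1) * MvPolynomial.eval (fun j => x (a.succAbove j) / x a) P := by
  classical
  refine ⟨∑ m ∈ P.support, MvPolynomial.C (P.coeff m) *
    ((∏ j, MvPolynomial.X (a.succAbove j) ^ m j) * MvPolynomial.X a ^ (D + 1 - ∑ j, m j)),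
    ?_, ?_, ?_⟩
  · refine MvPolynomial.IsHomogeneous.sum _ _ _ fun m hm => ?_
    have hdeg : ∑ j, m j ≤ D := by
      have := MvPolynomial.le_totalDegree hm
      rw [Finsupp.sum_fintype _ _ (by simp)] at this
      exact this.trans hP
    have h1 : (∏ j, (MvPolynomial.X (a.succAbove j) : MvPolynomial (Fin (L + 1)) ℂ) ^ m j).IsHomogeneous
        (∑ j, m j) := by
      refine MvPolynomial.IsHomogeneous.prod _ _ _ fun j _ => ?_
      simpa using (MvPolynomial.isHomogeneous_X ℂ (a.succAbove j)).pow (m j)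
    have h2 : ((MvPolynomial.X a : MvPolynomial (Fin (L + 1)) ℂ) ^ (D + 1 - ∑ j, m j)).IsHomogeneous
        (D + 1 - ∑ j, m j) := by
      simpa using (MvPolynomial.isHomogeneous_X ℂ a).pow (D + 1 - ∑ j, m j)
    have h3 := (MvPolynomial.isHomogeneous_C (Fin (L + 1)) (P.coeff m)).mul (h1.mul h2)
    have e : 0 + (∑ j, m j + (D + 1 - ∑ j, m j)) = D + 1 := by omega
    rw [e] at h3
    exact h3
  · intro x hx
    rw [map_sum]
    refine Finset.sum_eq_zero fun m hm => ?_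
    have hdeg : ∑ j, m j ≤ D := by
      have := MvPolynomial.le_totalDegree hm
      rw [Finsupp.sum_fintype _ _ (by simp)] at this
      exact this.trans hP
    rw [map_mul, map_mul, map_pow, MvPolynomial.eval_X, hx, zero_pow (by omega), mul_zero, mul_zero]
  · intro x hx
    rw [map_sum, MvPolynomial.eval_eq, Finset.mul_sum]
    refine Finset.sum_congr rfl fun m hm => ?_
    have hdeg : ∑ j, m j ≤ D := by
      have := MvPolynomial.le_totalDegree hm
      rw [Finsupp.sum_fintype _ _ (by simp)] at this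
      exact this.trans hP
    rw [map_mul, map_mul, map_pow, MvPolynomial.eval_X, MvPolynomial.eval_C, map_prod]
    simp only [map_pow, MvPolynomial.eval_X]
    have h1 : ∀ j, (x (a.succAbove j) / x a) ^ m j = x (a.succAbove j) ^ m j * (x a ^ m j)⁻¹ := by
      intro j
      rw [div_pow, div_eq_mul_inv]
    have h2 : ∏ i ∈ m.support, (x (a.succAbove i) / x a) ^ m i =
        ∏ i, (x (a.succAbove i) / x a) ^ m i := by
      refine Finset.prod_subset (Finset.subset_univ _) fun i _ hi => ?_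
      rw [Finsupp.notMem_support_iff.1 hi, pow_zero]
    rw [h2, Finset.prod_congr rfl fun j _ => h1 j, Finset.prod_mul_distrib, Finset.prod_inv_distrib,
      Finset.prod_pow_eq_pow_sum]
    have h3 : x a ^ (D + 1) = x a ^ (D + 1 - ∑ j, m j) * x a ^ (∑ j, m j) := by
      rw [← pow_add]
      congr 1
      omega
    have h4 : x a ^ (∑ j, m j) ≠ 0 := pow_ne_zero _ hx
    rw [h3]
    field_simp

/-- A sequence of polynomials of bounded degree with bounded coefficients has a limit. -/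
theorem exists_limit {L : ℕ} (D : ℕ) (C : ℝ) (P : ℕ → MvPolynomial (Fin L) ℂ)
    (hP : ∀ k, (P k).totalDegree ≤ D) (hC : ∀ k m, ‖(P k).coeff m‖ ≤ C) :
    ∃ (Q : MvPolynomial (Fin L) ℂ) (φ : ℕ → ℕ), StrictMono φ ∧ Q.totalDegree ≤ D ∧
      ∀ t, Tendsto (fun k => MvPolynomial.eval t (P (φ k))) atTop (𝓝 (MvPolynomial.eval t Q)) := by
  classical
  -- the finitely many exponents
  set E : Finset (Fin L →₀ ℕ) := (Finset.univ : Finset (Fin L → Fin (D + 1))).image
    (fun m => Finsupp.equivFunOnFinite.symm fun j => (m j : ℕ)) with hE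
  have hmem : ∀ k, (P k).support ⊆ E := by
    intro k m hm
    have h1 := MvPolynomial.le_totalDegree hm
    rw [Finsupp.sum_fintype _ _ (by simp)] at h1
    have h2 : ∀ j, m j < D + 1 := by
      intro j
      have h3 : m j ≤ ∑ j, m j := Finset.single_le_sum (f := fun j => m j) (fun _ _ => Nat.zero_le _)
        (Finset.mem_univ j)
      have := hP k
      omega
    rw [hE, Finset.mem_image]
    refine ⟨fun j => ⟨m j, h2 j⟩, Finset.mem_univ _, ?_⟩
    ext j
    simp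
  -- compactness
  set K : Set (E → ℂ) := Metric.closedBall 0 (|C|) with hK
  have hKc : IsCompact K := isCompact_closedBall _ _
  have hin : ∀ k, (fun m : E => (P k).coeff m.1) ∈ K := by
    intro k
    rw [hK, mem_closedBall_zero_iff, pi_norm_le_iff_of_nonneg (abs_nonneg _)]
    exact fun m => (hC k m.1).trans (le_abs_self C)
  obtain ⟨c, -, φ, hφ, hlim⟩ := hKc.tendsto_subseq hin
  rw [tendsto_pi_nhds] at hlim
  refine ⟨∑ m ∈ E.attach, if m.1.sum (fun _ e => e) ≤ D then MvPolynomial.monomial m.1 (c m) else 0,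
    φ, hφ, ?_, ?_⟩
  · refine MvPolynomial.totalDegree_finsetSum_le fun m _ => ?_
    split_ifs with h
    · exact (MvPolynomial.totalDegree_monomial_le _ _).trans h
    · simp
  · intro t
    have h1 : ∀ k, MvPolynomial.eval t (P (φ k)) =
        ∑ m ∈ E.attach, if m.1.sum (fun _ e => e) ≤ D then
          (P (φ k)).coeff m.1 * ∏ i, t i ^ m.1 i else 0 := by
      intro k
      rw [MvPolynomial.eval_eq', Finset.sum_attach E fun m => if m.sum (fun _ e => e) ≤ D then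
          (P (φ k)).coeff m * ∏ i, t i ^ m i else 0]
      rw [Finset.sum_subset (hmem (φ k))]
      · refine Finset.sum_congr rfl fun m _ => ?_
        split_ifs with h
        · rfl
        · have h2 : m ∉ (P (φ k)).support := fun h3 =>
            h ((MvPolynomial.le_totalDegree h3).trans (hP _))
          rw [MvPolynomial.notMem_support_iff.1 h2, zero_mul]
      · intro m _ hm
        rw [MvPolynomial.notMem_support_iff.1 hm, zero_mul]
    have h2 : MvPolynomial.eval t (∑ m ∈ E.attach, if m.1.sum (fun _ e => e) ≤ D then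
        MvPolynomial.monomial m.1 (c m) else 0) =
        ∑ m ∈ E.attach, if m.1.sum (fun _ e => e) ≤ D then c m * ∏ i, t i ^ m.1 i else 0 := by
      rw [map_sum]
      refine Finset.sum_congr rfl fun m _ => ?_
      split_ifs with h
      · rw [MvPolynomial.eval_monomial, Finsupp.prod_fintype _ _ (by simp)]
      · exact map_zero _
    simp only [h1, h2]
    refine tendsto_finsetSum _ fun m _ => ?_
    split_ifs with h
    · exact (hlim m).mul_const _
    · exact tendsto_const_nhds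

end Pool.Agent.KRFCh.Hg

end

section

/-!
# Polynomials of bounded degree: duality and homogenisation (helper55)
-/

open Set Filter Module

namespace Pool.Agent.KRFCh

/-- Let `T` be a set of points. If for every finite subset `s` of `T` there are polynomials of degree
at most `d` that are nearly `1` at `t₀` and nearly `0` on `s`, then there is one that vanishes on `T`
and not at `t₀`. -/
theorem exists_poly_of_approx {L d : ℕ} (T : Set (Fin L → ℂ)) (t₀ : Fin L → ℂ)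
    (h : ∀ s : Finset (Fin L → ℂ), (s : Set (Fin L → ℂ)) ⊆ T → ∀ δ > 0,
      ∃ P : MvPolynomial (Fin L) ℂ, P.totalDegree ≤ d ∧
        ‖MvPolynomial.eval t₀ P - 1‖ ≤ δ ∧ ∀ t ∈ s, ‖MvPolynomial.eval t P‖ ≤ δ) :
    ∃ P : MvPolynomial (Fin L) ℂ, P.totalDegree ≤ d ∧ MvPolynomial.eval t₀ P ≠ 0 ∧
      ∀ t ∈ T, MvPolynomial.eval t P = 0 := by
  classical
  set V : Submodule ℂ (MvPolynomial (Fin L) ℂ) := MvPolynomial.restrictTotalDegree (Fin L) ℂ d
    with hV
  let ev : (Fin L → ℂ) → Dual ℂ V := fun t =>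
    (MvPolynomial.aeval t : MvPolynomial (Fin L) ℂ →ₐ[ℂ] ℂ).toLinearMap.comp V.subtype
  have hev : ∀ t (P : V), ev t P = MvPolynomial.eval t (P : MvPolynomial (Fin L) ℂ) := by
    intro t P
    simp [ev, MvPolynomial.aeval_eq_eval]
  by_contra hcon
  push Not at hcon
  -- the evaluation at `t₀` is a combination of the evaluations at the points of `T`
  set W : Submodule ℂ (Dual ℂ V) := Submodule.span ℂ (ev '' T) with hW
  have hmem : ev t₀ ∈ W := by
    rw [← Subspace.dualCoannihilator_dualAnnihilator_eq (W := W), Submodule.mem_dualAnnihilator]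
    intro P hP
    rw [Submodule.mem_dualCoannihilator] at hP
    by_contra h0
    obtain ⟨t, ht, hne⟩ := hcon P.1 ((MvPolynomial.mem_restrictTotalDegree _ _ _).1 P.2)
      (by rw [← hev]; exact h0)
    exact hne (by rw [← hev]; exact hP _ (Submodule.subset_span ⟨t, ht, rfl⟩))
  obtain ⟨c, hc, hsum⟩ := (Finsupp.mem_span_image_iff_linearCombination ℂ).1 hmem
  set s : Finset (Fin L → ℂ) := c.support with hs
  have hsT : (s : Set (Fin L → ℂ)) ⊆ T := (Finsupp.mem_supported ℂ c).1 hc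
  have hval : ∀ P : V, MvPolynomial.eval t₀ (P : MvPolynomial (Fin L) ℂ) =
      ∑ t ∈ s, c t * MvPolynomial.eval t (P : MvPolynomial (Fin L) ℂ) := by
    intro P
    rw [← hev, ← hsum, Finsupp.linearCombination_apply, Finsupp.sum, LinearMap.sum_apply]
    refine Finset.sum_congr rfl fun t _ => ?_
    rw [LinearMap.smul_apply, hev, smul_eq_mul]
  -- contradiction
  set K : ℝ := ∑ t ∈ s, ‖c t‖ with hK
  have hK0 : 0 ≤ K := Finset.sum_nonneg fun _ _ => norm_nonneg _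
  have hδ : 0 < 1 / (2 * (K + 1)) := by positivity
  obtain ⟨P, hPd, hP1, hPs⟩ := h s hsT _ hδ
  have hP := hval ⟨P, (MvPolynomial.mem_restrictTotalDegree _ _ _).2 hPd⟩
  simp only at hP
  have h1 : ‖MvPolynomial.eval t₀ P‖ ≤ K * (1 / (2 * (K + 1))) := by
    rw [hP, hK, Finset.sum_mul]
    refine (norm_sum_le _ _).trans (Finset.sum_le_sum fun t ht => ?_)
    rw [norm_mul]
    exact mul_le_mul_of_nonneg_left (hPs t ht) (norm_nonneg _)
  have h2 : (1 : ℝ) ≤ ‖MvPolynomial.eval t₀ P‖ + ‖MvPolynomial.eval t₀ P - 1‖ := by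
    have : (1 : ℂ) = MvPolynomial.eval t₀ P - (MvPolynomial.eval t₀ P - 1) := by ring
    calc (1 : ℝ) = ‖(1 : ℂ)‖ := by simp
      _ = ‖MvPolynomial.eval t₀ P - (MvPolynomial.eval t₀ P - 1)‖ := by rw [← this]
      _ ≤ _ := norm_sub_le _ _
  have h3 : (K + 1) * (1 / (2 * (K + 1))) = 1 / 2 := by
    field_simp
  nlinarith

/-- the form `x_a^(d+1) P(x / x_a)` -/
theorem exists_homog {L d : ℕ} (a : Fin (L + 1)) (P : MvPolynomial (Fin L) ℂ)
    (hP : P.totalDegree ≤ d) : ∃ Q : MvPolynomial (Fin (L + 1)) ℂ, Q.IsHomogeneous (d + 1) ∧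
      (∀ (c : ℂ) (t : Fin L → ℂ), MvPolynomial.eval (c • a.insertNth (1 : ℂ) t) Q =
        c ^ (d + 1) * MvPolynomial.eval t P) ∧
      ∀ x : Fin (L + 1) → ℂ, x a = 0 → MvPolynomial.eval x Q = 0 := by
  obtain ⟨Q, hQ, h0, h1⟩ := Hg.exists_homog a d P hP
  refine ⟨Q, hQ, fun c t => ?_, h0⟩
  have ha : (c • a.insertNth (1 : ℂ) t : Fin (L + 1) → ℂ) a = c := by
    simp
  rcases eq_or_ne c 0 with rfl | hc
  · rw [h0 _ ha, zero_pow (Nat.succ_ne_zero d), zero_mul]
  · rw [h1 _ (by rw [ha]; exact hc), ha]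
    congr 3
    funext j
    simp [hc]

end Pool.Agent.KRFCh

end

section

/-!
# The affine slices of the cone
-/

open scoped ContDiff Topology
open Set Filter Pool.Agent.ToricKRF Pool.Agent.ToricKRF.G Pool.Agent.KRFS Pool.Agent.KRFF
  Pool.Agent.KRFZ
open Pool.Agent.KRFX.NC (contDiff_nsq nsq_nonneg nsq_eq_zero fs fs_nonneg D_nsq)
open Pool.Agent.KRFS.ABP (ip)

namespace Pool.Agent.KRFCh

theorem cc_slice {L : ℕ} (a : Fin (L + 1)) (t : Cn L) :
    cc (slice a t) = a.insertNth (1 : ℂ) (cc t) := by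
  funext k
  refine Fin.succAboveCases a ?_ (fun j => ?_) k
  · simp only [slice, cc, Fin.insertNth_apply_same]
    rfl
  · simp only [slice, cc, Fin.insertNth_apply_succAbove]

theorem nsq_slice {L : ℕ} (a : Fin (L + 1)) (t : Cn L) : nsq (slice a t) = 1 + nsq t := by
  unfold nsq dotProduct
  rw [Fin.sum_univ_succAbove _ a, Fin.sum_univ_succAbove _ a]
  simp only [slice, Fin.insertNth_apply_same, Fin.insertNth_apply_succAbove]
  ring

theorem slice_sub_same {L : ℕ} (a : Fin (L + 1)) (t t' : Cn L) :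
    (slice a t - slice a t').1 a = 0 ∧ (slice a t - slice a t').2 a = 0 := by
  simp [slice]

theorem slice_sub_succ {L : ℕ} (a : Fin (L + 1)) (t t' : Cn L) (j : Fin L) :
    (slice a t - slice a t').1 (a.succAbove j) = (t - t').1 j ∧
      (slice a t - slice a t').2 (a.succAbove j) = (t - t').2 j := by
  simp [slice]

theorem nsq_slice_sub {L : ℕ} (a : Fin (L + 1)) (t t' : Cn L) :
    nsq (slice a t - slice a t') = nsq (t - t') := by
  unfold nsq dotProduct
  rw [Fin.sum_univ_succAbove _ a, Fin.sum_univ_succAbove (fun i => _ * _) a]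
  simp only [slice_sub_same, slice_sub_succ]
  ring

/-- the linear part of the slice -/
noncomputable def sliceL {L : ℕ} (a : Fin (L + 1)) : Cn L →L[ℝ] Cn (L + 1) :=
  LinearMap.toContinuousLinearMap
    { toFun := fun v => slice a v - slice a 0
      map_add' := fun u v => by
        refine Prod.ext (funext fun k => ?_) (funext fun k => ?_)
        · refine Fin.succAboveCases a ?_ (fun j => ?_) k
          · simp [slice]
          · simp [slice]
        · refine Fin.succAboveCases a ?_ (fun j => ?_) k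
          · simp [slice]
          · simp [slice]
      map_smul' := fun r v => by
        refine Prod.ext (funext fun k => ?_) (funext fun k => ?_)
        · refine Fin.succAboveCases a ?_ (fun j => ?_) k
          · simp [slice]
          · simp [slice]
        · refine Fin.succAboveCases a ?_ (fun j => ?_) k
          · simp [slice]
          · simp [slice] }

theorem sliceL_apply {L : ℕ} (a : Fin (L + 1)) (v : Cn L) :
    sliceL a v = slice a v - slice a 0 := rfl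

theorem sliceL_J {L : ℕ} (a : Fin (L + 1)) (v : Cn L) : sliceL a (J v) = J (sliceL a v) := by
  rw [sliceL_apply, sliceL_apply]
  refine Prod.ext (funext fun k => ?_) (funext fun k => ?_)
  · refine Fin.succAboveCases a ?_ (fun j => ?_) k
    · simp [slice, J]
    · simp [slice, J]
  · refine Fin.succAboveCases a ?_ (fun j => ?_) k
    · simp [slice, J]
    · simp [slice, J]

theorem slice_eq {L : ℕ} (a : Fin (L + 1)) :
    (slice a : Cn L → Cn (L + 1)) = fun t => sliceL a t + slice a 0 := by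
  funext t
  rw [sliceL_apply, sub_add_cancel]

theorem contDiff_slice {L : ℕ} (a : Fin (L + 1)) : ContDiff ℝ ∞ (slice (L := L) a) := by
  rw [slice_eq]
  exact (sliceL a).contDiff.add contDiff_const

theorem fderiv_slice {L : ℕ} (a : Fin (L + 1)) (t : Cn L) :
    fderiv ℝ (slice (L := L) a) t = sliceL a := by
  rw [slice_eq]
  exact ((sliceL a).hasFDerivAt.add_const _).fderiv

theorem levz_slice {L : ℕ} (a : Fin (L + 1)) {H : Cn (L + 1) → ℝ} {t : Cn L}
    (hH : ContDiffAt ℝ 2 H (slice a t)) (v : Cn L) :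
    levz (fun t => H (slice a t)) v t = levz H (slice a v - slice a 0) (slice a t) := by
  have hc : ContDiffAt ℝ 2 (slice (L := L) a) t := (contDiff_slice a).contDiffAt.of_le two_le_infty
  have h0 : ∀ w, fderiv ℝ (fun q => fderiv ℝ (slice (L := L) a) q w) t w = 0 := by
    intro w
    have h1 : (fun q => fderiv ℝ (slice (L := L) a) q w) = fun _ => sliceL a w := by
      funext q
      rw [fderiv_slice]
    rw [h1]
    simp
  unfold levz
  rw [D_D_comp hH hc, D_D_comp hH hc, h0, h0, map_zero, add_zero, add_zero, fderiv_slice,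
    sliceL_J, D_D_eq hH, D_D_eq hH, sliceL_apply]

theorem exists_slice {L : ℕ} {x : Cn (L + 1)} (hx : x ≠ 0) : ∃ (a : Fin (L + 1)) (t : Cn L)
    (c : ℂ), c ≠ 0 ∧ cc x = c • cc (slice a t) := by
  obtain ⟨a, ha⟩ : ∃ a, cc x a ≠ 0 := by
    by_contra h
    push Not at h
    exact cc_ne_zero hx (funext h)
  refine ⟨a, Pool.Agent.KRFQ.ofv fun j => cc x (a.succAbove j) / cc x a, cc x a, ha, ?_⟩
  rw [cc_slice]
  funext k
  refine Fin.succAboveCases a ?_ (fun j => ?_) k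
  · simp
  · simp only [Pi.smul_apply, Fin.insertNth_apply_succAbove, Pool.Agent.KRFQ.cc_ofv, smul_eq_mul]
    field_simp

/-- the Levi form of `log (1 + |t|^2)` -/
theorem levz_log_one_add {L : ℕ} (v t : Cn L) :
    levz (fun t => Real.log (1 + nsq t)) v t = (nsq v + fs t v) / (1 + nsq t) ^ 2 := by
  have h0 : 0 < 1 + nsq t := by
    have := nsq_nonneg t
    linarith
  have c : ContDiffAt ℝ 2 (fun t : Cn L => 1 + nsq t) t :=
    (contDiff_const.add contDiff_nsq).contDiffAt.of_le two_le_infty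
  have hD : ∀ w, D w (fun t : Cn L => 1 + nsq t) t = 2 * ip t w := by
    intro w
    have h1 : D w (fun t : Cn L => 1 + nsq t) t = D w nsq t := by
      unfold D
      rw [fderiv_const_add]
    rw [h1, D_nsq]
  have hl : levz (fun t : Cn L => 1 + nsq t) v t = nsq v := by
    rw [Bd.levz_add contDiffAt_const (contDiff_nsq.contDiffAt.of_le two_le_infty),
      Bd.levz_const, Gap.levz_nsq', zero_add]
  rw [Cp.levz_log c h0.ne', hl, Cp.dsq, hD, hD, fs]
  field_simp
  ring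

theorem le_levz_log_one_add {L : ℕ} (v t : Cn L) :
    nsq v ≤ (1 + nsq t) ^ 2 * levz (fun t => Real.log (1 + nsq t)) v t := by
  have h0 : 0 < 1 + nsq t := by
    have := nsq_nonneg t
    linarith
  rw [levz_log_one_add]
  have h1 := fs_nonneg t v
  have h2 : (1 + nsq t) ^ 2 * ((nsq v + fs t v) / (1 + nsq t) ^ 2) = nsq v + fs t v := by
    field_simp
  linarith

/-- a cut-off function at `t₀` -/
theorem exists_cutoff {L : ℕ} (t₀ : Cn L) {r : ℝ} (hr : 0 < r) : ∃ (u : Cn L → ℂ)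
    (B : Cn L → ℝ), ContDiff ℝ ∞ u ∧ HasCompactSupport u ∧ Continuous B ∧ HasCompactSupport B ∧
    (∀ t, 0 ≤ B t) ∧ (∀ t, nsq (t - t₀) ≤ r ^ 2 / 4 → u t = 1 ∧ B t = 0) ∧
    (∀ t, r ^ 2 ≤ nsq (t - t₀) → u t = 0 ∧ B t = 0) ∧
    ∀ t v, ‖dbv u v t‖ ^ 2 ≤ B t * levz (fun t => Real.log (1 + nsq t)) v t := by
  set θ : ℝ → ℝ := fun s => Real.smoothTransition ((r ^ 2 / 2 - s) / (r ^ 2 / 6)) with hθ
  have hr6 : 0 < r ^ 2 / 6 := by positivity
  have cθ : ContDiff ℝ ∞ θ := Real.smoothTransition.contDiff.comp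
    ((contDiff_const.sub contDiff_id).div_const _)
  have θ1 : ∀ s, s ≤ r ^ 2 / 3 → θ s = 1 := fun s hs =>
    Real.smoothTransition.one_of_one_le (by rw [le_div_iff₀ hr6]; linarith)
  have θ0 : ∀ s, r ^ 2 / 2 ≤ s → θ s = 0 := fun s hs =>
    Real.smoothTransition.zero_of_nonpos (div_nonpos_of_nonpos_of_nonneg (by linarith) hr6.le)
  have dθ1 : ∀ s, s < r ^ 2 / 3 → deriv θ s = 0 := by
    intro s hs
    have h1 : θ =ᶠ[𝓝 s] fun _ => (1 : ℝ) := by
      filter_upwards [isOpen_Iio.mem_nhds hs] with s' hs'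
      exact θ1 s' (le_of_lt hs')
    rw [h1.deriv_eq, deriv_const]
  have dθ0 : ∀ s, r ^ 2 / 2 < s → deriv θ s = 0 := by
    intro s hs
    have h1 : θ =ᶠ[𝓝 s] fun _ => (0 : ℝ) := by
      filter_upwards [isOpen_Ioi.mem_nhds hs] with s' hs'
      exact θ0 s' (le_of_lt hs')
    rw [h1.deriv_eq, deriv_const]
  have cd : Continuous (deriv θ) := cθ.continuous_deriv (by simp)
  set N : Cn L → ℝ := fun t => nsq (t - t₀) with hN
  have cN : ContDiff ℝ ∞ N := contDiff_nsq.comp (contDiff_id.sub contDiff_const)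
  have hcpt : IsCompact {t : Cn L | nsq (t - t₀) ≤ r ^ 2} := HM.isCompact_ball t₀ r
  have cu : ContDiff ℝ ∞ fun t => θ (N t) := cθ.comp cN
  refine ⟨fun t => ((θ (N t) : ℝ) : ℂ),
    fun t => 2 * (deriv θ (N t) ^ 2 * N t) * (1 + nsq t) ^ 2,
    Complex.ofRealCLM.contDiff.comp cu, ?_, ?_, ?_, fun t => ?_, fun t ht => ?_,
    fun t ht => ?_, fun t v => ?_⟩
  · refine HasCompactSupport.intro hcpt fun t ht => ?_
    have h1 : r ^ 2 < N t := not_le.1 ht
    rw [θ0 _ (by nlinarith)]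
    rfl
  · have c1 : Continuous N := cN.continuous
    have c2 : Continuous fun t : Cn L => nsq t := contDiff_nsq.continuous
    exact ((continuous_const.mul (((cd.comp c1).pow 2).mul c1))).mul
      ((continuous_const.add c2).pow 2)
  · refine HasCompactSupport.intro hcpt fun t ht => ?_
    have h1 : r ^ 2 < N t := not_le.1 ht
    rw [dθ0 _ (by nlinarith)]
    ring
  · have h1 := nsq_nonneg (t - t₀)
    positivity
  · have h1 : N t < r ^ 2 / 3 := by
      have : 0 < r ^ 2 := by positivity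
      have h2 : N t ≤ r ^ 2 / 4 := ht
      linarith
    constructor
    · change ((θ (N t) : ℝ) : ℂ) = 1
      rw [θ1 _ h1.le, Complex.ofReal_one]
    · change 2 * (deriv θ (N t) ^ 2 * N t) * (1 + nsq t) ^ 2 = 0
      rw [dθ1 _ h1]
      ring
  · have h1 : r ^ 2 / 2 < N t := by
      have : 0 < r ^ 2 := by positivity
      have h2 : r ^ 2 ≤ N t := ht
      linarith
    constructor
    · change ((θ (N t) : ℝ) : ℂ) = 0
      rw [θ0 _ h1.le, Complex.ofReal_zero]
    · change 2 * (deriv θ (N t) ^ 2 * N t) * (1 + nsq t) ^ 2 = 0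
      rw [dθ0 _ h1]
      ring
  · have hd : DifferentiableAt ℝ (fun t => θ (N t)) t := cu.differentiable (by simp) t
    have h1 : ‖dbv (fun t => ((θ (N t) : ℝ) : ℂ)) v t‖ ^ 2 = Cp.dsq (fun t => θ (N t)) v t := by
      rw [Cp.dsq, ← Pool.Agent.KRFQ.norm_dbar_real hd v, ← Pool.Agent.KRFQ.dbar_apply]
      rfl
    have h2 : Cp.dsq (fun t => θ (N t)) v t = deriv θ (N t) ^ 2 * Cp.dsq N v t :=
      Cp.dsq_fun (cθ.differentiable (by simp) _) (cN.differentiable (by simp) t) v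
    have hDN : ∀ w, D w N t = 2 * ip (t - t₀) w := by
      intro w
      have h3 : HasFDerivAt N (fderiv ℝ nsq (t - t₀)) t := by
        have h0 : HasFDerivAt (nsq : Cn L → ℝ) (fderiv ℝ nsq (t - t₀)) (t - t₀) :=
          (contDiff_nsq.differentiable (by simp) (t - t₀)).hasFDerivAt
        exact h0.comp t ((hasFDerivAt_id t).sub_const t₀)
      have h4 := D_nsq (t - t₀) w
      unfold D at h4 ⊢
      rw [h3.fderiv, h4]
    have h3 : Cp.dsq N v t ≤ 2 * (N t * nsq v) := by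
      rw [Cp.dsq, hDN, hDN]
      have e1 := Pool.Agent.KRFS.ABP.ip_sq_le (t - t₀) v
      have e2 := Pool.Agent.KRFS.ABP.ip_sq_le (t - t₀) (J v)
      have e3 : nsq (J v) = nsq v := by
        rw [← Pool.Agent.KRFS.ABP.ip_self, ← Pool.Agent.KRFS.ABP.ip_self,
          Pool.Agent.KRFX.NC.ip_J_J]
      rw [e3] at e2
      change ((2 * ip (t - t₀) v) ^ 2 + (2 * ip (t - t₀) (J v)) ^ 2) / 4 ≤
        2 * (nsq (t - t₀) * nsq v)
      nlinarith
    have hN0 : 0 ≤ N t := nsq_nonneg (t - t₀)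
    rw [h1, h2]
    calc deriv θ (N t) ^ 2 * Cp.dsq N v t ≤ deriv θ (N t) ^ 2 * (2 * (N t * nsq v)) :=
          mul_le_mul_of_nonneg_left h3 (sq_nonneg _)
      _ = 2 * (deriv θ (N t) ^ 2 * N t) * nsq v := by ring
      _ ≤ 2 * (deriv θ (N t) ^ 2 * N t) * ((1 + nsq t) ^ 2 *
          levz (fun t => Real.log (1 + nsq t)) v t) :=
          mul_le_mul_of_nonneg_left (le_levz_log_one_add v t) (by positivity)
      _ = _ := by ring

theorem exists_cutoff_slice {L : ℕ} (t₀ : Cn L) {r : ℝ} (hr : 0 < r) : ∃ (u : Cn L → ℂ)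
    (B : Cn L → ℝ), ContDiff ℝ ∞ u ∧ HasCompactSupport u ∧ Continuous B ∧ HasCompactSupport B ∧
    (∀ t, 0 ≤ B t) ∧ (∀ t, nsq (t - t₀) ≤ r ^ 2 / 4 → u t = 1 ∧ B t = 0) ∧
    (∀ t, r ^ 2 ≤ nsq (t - t₀) → u t = 0 ∧ B t = 0) ∧
    ∀ t v, ‖dbv u v t‖ ^ 2 ≤ B t * levz (fun t => Real.log (1 + nsq t)) v t :=
  exists_cutoff t₀ hr

end Pool.Agent.KRFCh

end

section

/-!
# Forms which vanish on the zeros of a weight
-/

open scoped ContDiff ENNReal ComplexOrder LinearAlgebra.Projectivization Topology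
open Set Filter MeasureTheory Pool.Agent.ToricKRF Pool.Agent.ToricKRF.G Pool.Agent.KRFS
  Pool.Agent.KRFF Pool.Agent.KRFZ Pool.Agent.KRFW

namespace Pool.Agent.KRFCh

/-- the point with given complex coordinates -/
def pcoord {L : ℕ} (z : Fin L → ℂ) : Cn L := (fun k => (z k).re, fun k => (z k).im)

theorem cc_pcoord {L : ℕ} (z : Fin L → ℂ) : cc (pcoord z) = z := by
  funext k
  exact Complex.ext rfl rfl

/-- `exists_form` from the approximate polynomials on the slices -/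
theorem exists_form_of {L : ℕ} {C : ℝ} (happ : ∃ d : ℕ, ∀ (Γ : Set (Cn (L + 1)))
    (W : ℝ → Cn (L + 1) → ℝ), IsWeight Γ W C → ∀ (a : Fin (L + 1)) (t₀ : Cn L),
      slice a t₀ ∉ Γ → ∀ s : Finset (Cn L), (∀ t ∈ s, slice a t ∈ Γ) → ∀ δ > 0,
        ∃ P : MvPolynomial (Fin L) ℂ, P.totalDegree ≤ d ∧
          ‖MvPolynomial.eval (cc t₀) P - 1‖ ≤ δ ∧
          ∀ t ∈ s, ‖MvPolynomial.eval (cc t) P‖ ≤ δ) : ∃ d : ℕ, ∀ (Γ : Set (Cn (L + 1)))
    (W : ℝ → Cn (L + 1) → ℝ), IsWeight Γ W C → (∀ x ∈ Γ, x ≠ 0) →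
      (∀ x ∈ Γ, ∀ y : Cn (L + 1), ∀ c : ℂ, c ≠ 0 → cc y = c • cc x → y ∈ Γ) →
      ∀ x₀ : Cn (L + 1), x₀ ≠ 0 → x₀ ∉ Γ → ∃ Q : MvPolynomial (Fin (L + 1)) ℂ,
        Q.IsHomogeneous d ∧ (∀ x ∈ Γ, MvPolynomial.eval (cc x) Q = 0) ∧
          MvPolynomial.eval (cc x₀) Q ≠ 0 := by
  obtain ⟨d, hd⟩ := happ
  refine ⟨d + 1, fun Γ W hW _ hcone x₀ hx₀ hx₀Γ => ?_⟩
  obtain ⟨a, t₀, c, hc, hx⟩ := exists_slice hx₀
  have hsl : slice a t₀ ∉ Γ := fun h => hx₀Γ (hcone _ h x₀ c hc hx)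
  obtain ⟨P, hPd, hP0, hPT⟩ := exists_poly_of_approx (d := d) {z | slice a (pcoord z) ∈ Γ} (cc t₀)
    (fun s hs δ hδ => by
      classical
      obtain ⟨P, h1, h2, h3⟩ := hd Γ W hW a t₀ hsl (s.image pcoord) (fun t ht => by
        obtain ⟨z, hz, rfl⟩ := Finset.mem_image.1 ht
        exact hs hz) δ hδ
      exact ⟨P, h1, h2, fun z hz => by
        simpa only [cc_pcoord] using h3 _ (Finset.mem_image_of_mem _ hz)⟩)
  obtain ⟨Q, hQ, hQe, hQ0⟩ := exists_homog a P hPd
  refine ⟨Q, hQ, fun x hx => ?_, ?_⟩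
  · by_cases h0 : cc x a = 0
    · exact hQ0 _ h0
    · set z : Fin L → ℂ := (cc x a)⁻¹ • a.removeNth (cc x) with hz
      have e1 : a.insertNth (1 : ℂ) z = (cc x a)⁻¹ • cc x := by
        refine (Fin.eq_insertNth_iff.2 ⟨?_, ?_⟩).symm
        · rw [Pi.smul_apply, smul_eq_mul, inv_mul_cancel₀ h0]
        · rfl
      have hzT : slice a (pcoord z) ∈ Γ := by
        refine hcone x hx _ (cc x a)⁻¹ (inv_ne_zero h0) ?_
        rw [cc_slice, cc_pcoord, e1]
      have e2 : cc x = cc x a • a.insertNth (1 : ℂ) z := by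
        rw [e1, smul_inv_smul₀ h0]
      rw [e2, hQe, hPT z hzT, mul_zero]
  · rw [hx, cc_slice, hQe]
    exact mul_ne_zero (pow_ne_zero _ hc) hP0

end Pool.Agent.KRFCh

end

section

/-!
# The Levi form of the logarithm of a sum
-/

open scoped ContDiff Topology
open Set Filter Pool.Agent.ToricKRF Pool.Agent.ToricKRF.G Pool.Agent.KRFS
open Pool.Agent.KRFX.NC (contDiff_nsq nsq_nonneg nsq_eq_zero levz_log_nsq)

namespace Pool.Agent.KRFCh

/-- convexity of log-sum-exp, for functions which may vanish -/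
theorem levz_log_sum {l m : ℕ} {F : Fin m → Cn l → ℝ} {x v : Cn l} {a : Fin m → ℝ}
    (hF : ∀ i, ContDiffAt ℝ 2 (F i) x) (h0 : ∀ i, ∀ᶠ x' in 𝓝 x, 0 ≤ F i x')
    (hpos : ∃ i, 0 < F i x) (ha0 : ∀ i, 0 ≤ a i)
    (ha : ∀ i, 0 < F i x → -a i ≤ F i x * levz (fun x => Real.log (F i x)) v x) :
    -∑ i, a i ≤ (∑ i, F i x) * levz (fun x => Real.log (∑ i, F i x)) v x := by
  have h00 : ∀ i, 0 ≤ F i x := fun i => (h0 i).self_of_nhds
  have hS : 0 < ∑ i, F i x := by
    obtain ⟨i, hi⟩ := hpos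
    exact Finset.sum_pos' (fun j _ => h00 j) ⟨i, Finset.mem_univ i, hi⟩
  have h1 := Cp.levz_log_sum' (z := x) Finset.univ (fun i _ => hF i) (fun i _ => h0 i) hS v
    (m := fun i => if F i x = 0 then 0 else -a i / F i x) (fun i _ hi => by
      have hp : 0 < F i x := lt_of_le_of_ne (h00 i) (Ne.symm hi)
      simp only [if_neg hi]
      rw [div_le_iff₀ hp, mul_comm]
      exact ha i hp)
  have h2 := mul_le_mul_of_nonneg_left h1 hS.le
  refine le_trans ?_ h2
  rw [Finset.mul_sum, ← Finset.sum_neg_distrib]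
  refine Finset.sum_le_sum fun i _ => ?_
  by_cases hi : F i x = 0
  · rw [if_pos hi, mul_zero, mul_zero]
    linarith [ha0 i]
  · rw [if_neg hi]
    refine le_of_eq ?_
    field_simp

/-- `log (|E|^2 + ε^2)` is plurisubharmonic -/
theorem levz_log_nsq_add_nonneg {l r : ℕ} {E : Cn l → Cn r} {O : Set (Cn l)} (hO : IsOpen O)
    (hE : HolOn E O) {x : Cn l} (hx : x ∈ O) (v : Cn l) {ε : ℝ} (hε : 0 < ε) :
    0 ≤ levz (fun x => Real.log (nsq (E x) + ε ^ 2)) v x := by
  have h1 : (fun x => Real.log (nsq (E x) + ε ^ 2)) =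
      fun x => (fun y : Cn r => Real.log (nsq (y - 0) + ε ^ 2)) (E x) := by
    funext y
    simp
  rw [h1, levz_comp isOpen_univ (Pool.Agent.KRFZ.HM.contDiff_logpole 0 hε.ne').contDiffOn hO hE hx
    (mem_univ _) v]
  exact Pool.Agent.KRFZ.HM.levz_logpole 0 hε.ne' _ _

end Pool.Agent.KRFCh

end
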