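import Pool.Agent.Work.MP_a2bf38_gt.Fu.W.EmbDefs
import Pool.Agent.Work.MP_a2bf38_gt.Fu.Al.MetricA
import Pool.Agent.Work.MP_a2bf38_gt.Fu.I.GapA
import Pool.Agent.Work.MP_a2bf38_gt.Fu.W.DiscB
import Pool.Agent.Work.MP_a2bf38_gt.Fu.Ch.Homog
import Pool.Agent.Work.MP_a2bf38_gt.Fu.Z.Pole

section

/-!
# The distance to the points off the cone over a fibre
-/

open scoped ContDiff ENNReal ComplexOrder LinearAlgebra.Projectivization Topology
open Set Filter Pool.Agent.ToricKRF Pool.Agent.ToricKRF.G Pool.Agent.KRFS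
  Pool.Agent.KRFF Pool.Agent.KRFZ Pool.Agent.KRFW

namespace Pool.Agent.KRFCh

namespace AW

theorem norm_cc_sq_le {m : ℕ} (v : Cn m) : ‖cc v‖ ^ 2 ≤ nsq v := by
  have h0 := Gap.nsq_nonneg v
  have h1 : ‖cc v‖ ≤ √(nsq v) := by
    refine (pi_norm_le_iff_of_nonneg (Real.sqrt_nonneg _)).2 fun i => ?_
    refine Real.le_sqrt_of_sq_le ?_
    rw [← Complex.normSq_eq_norm_sq, Complex.normSq_apply]
    have := Gap.le_nsq v i
    simp only [cc]
    linarith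
  calc ‖cc v‖ ^ 2 ≤ √(nsq v) ^ 2 := pow_le_pow_left₀ (norm_nonneg _) h1 2
    _ = nsq v := Real.sq_sqrt h0

theorem cc_sub {m : ℕ} (u v : Cn m) : cc (u - v) = cc u - cc v := by
  rw [← MT.ccP_apply, map_sub, MT.ccP_apply, MT.ccP_apply]

variable {M Z : Type} [MetricSpace M] [MetricSpace Z] {n N : ℕ} {κ P : Type}
  {e : κ → OpenPartialHomeomorph M (Cn n)} {U : P → Set Z} {q : P → Z → Cn N} {f : M → Z}
  {ψ : κ → ℝ × Cn n → ℝ} {S : Set Z} {L : ℕ} {ι : M → ℙ ℂ (Fin (L + 1) → ℂ)}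

/-- the estimate for the points `x₁` and `p` -/
def Q (f : M → Z) (ι : M → ℙ ℂ (Fin (L + 1) → ℂ)) (w : Z) (c : ℝ) (x₁ : Cn (L + 1)) (p : M) :
    Prop :=
  ∀ (x' : Cn (L + 1)) (h : cc x' ≠ 0), ι p = Projectivization.mk ℂ (cc x') h →
    c ≤ nsq (x₁ - x') + dist (f p) w ^ 2

theorem local_away (G : GeoData e U q f ψ) (hι : IsEmbOver e U q f S ι) {w : Z}
    (hw : w ∈ S) {x : Cn (L + 1)} (hx : x ≠ 0) (hxw : x ∉ fcone f ι w) (p : M) :
    ∃ c > 0, ∀ᶠ z : Cn (L + 1) × M in 𝓝 (x, p), Q f ι w c z.1 z.2 := by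
  by_cases hfp : f p = w
  · obtain ⟨c, hc⟩ := G.atlas.cover p
    obtain ⟨F, W, hxW, hF, -⟩ := hι.lift c (e c p) ((e c).map_source hc)
      (by rwa [(e c).left_inv hc, hfp])
    have hX' : ContinuousAt (fun p => cc (F (e c p))) p := by
      have h1 : ContinuousAt F (e c p) := hF.2.2.1.1.continuousOn.continuousAt
        (hF.1.mem_nhds hxW)
      have h2 : ContinuousAt (fun p => MT.ccP (L + 1) (F (e c p))) p :=
        (MT.ccP (L + 1)).continuous.continuousAt.comp (h1.comp ((e c).continuousAt hc))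
      simpa only [MT.ccP_apply] using h2
    have hX : ContinuousAt (fun x : Cn (L + 1) => cc x) x := by
      have h2 : ContinuousAt (fun x : Cn (L + 1) => MT.ccP (L + 1) x) x :=
        (MT.ccP (L + 1)).continuous.continuousAt
      simpa only [MT.ccP_apply] using h2
    have hn' := (MT.exists_lift hF hc hxW).1
    have hcx : cc x ≠ 0 := cc_ne_zero hx
    have hne : ¬ ∃ a : ℂ, cc (F (e c p)) = a • cc x := by
      rintro ⟨a, ha⟩
      refine hxw ⟨p, hcx, hfp, ?_⟩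
      obtain ⟨h0, h1⟩ := hF.2.2.2 _ hxW
      rw [(e c).left_inv hc] at h1
      rw [h1]
      exact (Projectivization.mk_eq_mk_iff' ℂ _ _ h0 hcx).2 ⟨a, ha.symm⟩
    obtain ⟨ε, hε, hev⟩ := KRFAl.sep hX hX' hcx hne
    have hpos : 0 < ‖cc x‖ := norm_pos_iff.2 hcx
    refine ⟨(ε * (‖cc x‖ / 2)) ^ 2, by positivity, ?_⟩
    have e1 : ∀ᶠ z : Cn (L + 1) × M in 𝓝 (x, p), ‖cc x‖ / 2 < ‖cc z.1‖ := by
      have h3 : ∀ᶠ y in 𝓝 x, ‖cc x‖ / 2 < ‖cc y‖ :=
        continuousAt_const.eventually_lt hX.norm (by linarith)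
      exact (continuous_fst.tendsto (x, p)).eventually h3
    have e2 : ∀ᶠ z : Cn (L + 1) × M in 𝓝 (x, p), z.2 ∈ (e c).source ∧ e c z.2 ∈ W :=
      (continuous_snd.tendsto (x, p)).eventually (MT.near hc hF.1 hxW)
    filter_upwards [hev, e1, e2] with z h1 h2 h3 x' hx' hιx
    have h4 := h1 (cc z.1) (cc x') ⟨1, (one_smul _ _).symm⟩
      ((MT.exists_lift hF h3.1 h3.2).2 _ hx' hιx)
    rw [← cc_sub] at h4
    have h5 := norm_cc_sq_le (z.1 - x')
    have h6 : ε * (‖cc x‖ / 2) ≤ ‖cc (z.1 - x')‖ :=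
      (mul_le_mul_of_nonneg_left h2.le hε.le).trans h4
    have h7 := pow_le_pow_left₀ (by positivity) h6 2
    have h8 : 0 ≤ dist (f z.2) w ^ 2 := sq_nonneg _
    linarith
  · have hd : 0 < dist (f p) w := dist_pos.2 hfp
    refine ⟨(dist (f p) w / 2) ^ 2, by positivity, ?_⟩
    have h3 : ∀ᶠ y in 𝓝 p, dist (f p) w / 2 < dist (f y) w := by
      have h4 : ContinuousAt (fun y => dist (f y) w) p :=
        (G.cont.dist continuous_const).continuousAt
      exact continuousAt_const.eventually_lt h4 (by linarith)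
    have h4 : ∀ᶠ z : Cn (L + 1) × M in 𝓝 (x, p), dist (f p) w / 2 < dist (f z.2) w :=
      (continuous_snd.tendsto (x, p)).eventually h3
    filter_upwards [h4] with z hz x' _ _
    have h5 := Gap.nsq_nonneg (z.1 - x')
    have h6 := pow_le_pow_left₀ (by positivity) hz.le 2
    linarith

end AW

variable {M Z : Type} [MetricSpace M] [CompactSpace M] [MetricSpace Z] {n N : ℕ} {κ P : Type}
  {e : κ → OpenPartialHomeomorph M (Cn n)} {U : P → Set Z} {q : P → Z → Cn N} {f : M → Z}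
  {ψ : κ → ℝ × Cn n → ℝ} {S : Set Z} {L : ℕ} {ι : M → ℙ ℂ (Fin (L + 1) → ℂ)}

theorem fcone_away (G : GeoData e U q f ψ) (hι : IsEmbOver e U q f S ι) (_hS : IsOpen S) {w : Z}
    (hw : w ∈ S) {x : Cn (L + 1)} (hx : x ≠ 0) (hxw : x ∉ fcone f ι w) :
    ∃ c > 0, ∀ᶠ x₁ in 𝓝 x, ∀ (p : M) (x' : Cn (L + 1)) (h : cc x' ≠ 0),
      ι p = Projectivization.mk ℂ (cc x') h → c ≤ nsq (x₁ - x') + dist (f p) w ^ 2 := by
  classical
  choose c hc hev using fun p : M => AW.local_away G hι hw hx hxw p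
  have h1 : ∀ p : M, ∃ A ∈ 𝓝 p, ∃ B ∈ 𝓝 x, ∀ x₁ ∈ B, ∀ p' ∈ A, AW.Q f ι w (c p) x₁ p' := by
    intro p
    obtain ⟨B, hB, A, hA, hAB⟩ := mem_nhds_prod_iff.1 (hev p)
    exact ⟨A, hA, B, hB, fun x₁ h p' h' => hAB (mk_mem_prod h h')⟩
  choose A hA B hB hAB using h1
  obtain ⟨t, -, ht⟩ := (isCompact_univ : IsCompact (univ : Set M)).elim_nhds_subcover A
    (fun p _ => hA p)
  have hmin : ∃ c₀ > 0, ∀ p ∈ t, c₀ ≤ c p := by
    rcases t.eq_empty_or_nonempty with rfl | hne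
    · exact ⟨1, one_pos, fun p hp => absurd hp (Finset.notMem_empty p)⟩
    · obtain ⟨p, hp, hle⟩ := t.exists_min_image c hne
      exact ⟨c p, hc p, hle⟩
  obtain ⟨c₀, hc₀, hle⟩ := hmin
  refine ⟨c₀, hc₀, ?_⟩
  have h2 : ∀ᶠ x₁ in 𝓝 x, ∀ p ∈ t, x₁ ∈ B p :=
    (eventually_all_finset t).2 fun p _ => hB p
  filter_upwards [h2] with x₁ h3 p x' h hιx
  obtain ⟨p₀, hp₀, hp⟩ := mem_iUnion₂.1 (ht (mem_univ p))
  exact (hle p₀ hp₀).trans (hAB p₀ x₁ (h3 p₀ hp₀) p hp x' h hιx)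

end Pool.Agent.KRFCh

end

section

/-!
# Local equations of the cones over the fibres (A1)
-/

open scoped ContDiff ENNReal ComplexOrder LinearAlgebra.Projectivization Topology
open Set Filter Pool.Agent.ToricKRF Pool.Agent.ToricKRF.G Pool.Agent.KRFS Pool.Agent.KRFF
  Pool.Agent.KRFZ Pool.Agent.KRFW Pool.Agent.KRFLj

namespace Pool.Agent.KRFCh

section

variable {M Z : Type} [MetricSpace M] [CompactSpace M] [MetricSpace Z] {n N : ℕ} {κ P : Type}
  {e : κ → OpenPartialHomeomorph M (Cn n)} {U : P → Set Z} {q : P → Z → Cn N} {f : M → Z}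
  {ψ : κ → ℝ × Cn n → ℝ} {S : Set Z} {L : ℕ} {ι : M → ℙ ℂ (Fin (L + 1) → ℂ)}

/-- The points of `M` over `(x, w)` near `(x₁, z₀)` are near the points over `(x₁, z₀)`. -/
theorem ev_mem (G : GeoData e U q f ψ) (hι : IsEmbOver e U q f S ι) {z₀ : Z}
    (hz₀ : z₀ ∈ S) {x₁ : Cn (L + 1)} (hx₁ : cc x₁ ≠ 0) {V : Set M} (hV : IsOpen V)
    (hVm : ∀ p, f p = z₀ → ι p = Projectivization.mk ℂ (cc x₁) hx₁ → p ∈ V) :
    ∀ᶠ R : Cn (L + 1) × Z in 𝓝 (x₁, z₀), ∀ (p : M) (h : cc R.1 ≠ 0),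
      f p = R.2 → ι p = Projectivization.mk ℂ (cc R.1) h → p ∈ V := by
  have hK : IsCompact Vᶜ := hV.isClosed_compl.isCompact
  have hccc : Continuous fun x : Cn (L + 1) => cc x := by
    have h1 := (MT.ccP (L + 1)).continuous
    exact h1.congr fun x => MT.ccP_apply x
  have key := hK.eventually_forall_of_forall_eventually (x₀ := (x₁, z₀))
    (P := fun (R : Cn (L + 1) × Z) (p : M) => ∀ h : cc R.1 ≠ 0, f p = R.2 →
      ι p = Projectivization.mk ℂ (cc R.1) h → False) ?_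
  · filter_upwards [key] with R hR p h h1 h2
    by_contra hp
    exact hR p hp h h1 h2
  · intro p' hp'
    by_cases hfp : f p' = z₀
    · -- the point `ι p'` is different from `[x₁]`
      obtain ⟨c, hc⟩ := G.atlas.cover p'
      obtain ⟨F, W, hxW, hF, -⟩ := hι.lift c (e c p') ((e c).map_source hc)
        (by rw [(e c).left_inv hc, hfp]; exact hz₀)
      have hX : ContinuousAt (fun p => cc (F (e c p))) p' := by
        have h1 : ContinuousAt F (e c p') := hF.2.2.1.1.continuousOn.continuousAt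
          (hF.1.mem_nhds hxW)
        exact hccc.continuousAt.comp (h1.comp ((e c).continuousAt hc))
      have hn := (MT.exists_lift hF hc hxW).1
      have hne : ¬ ∃ a : ℂ, cc x₁ = a • cc (F (e c p')) := by
        rintro ⟨a, ha⟩
        refine hp' (hVm p' hfp ?_)
        obtain ⟨h0, h1⟩ := hF.2.2.2 _ hxW
        rw [(e c).left_inv hc] at h1
        rw [h1]
        exact ((Projectivization.mk_eq_mk_iff' ℂ _ _ hx₁ h0).2 ⟨a, ha.symm⟩).symm
      obtain ⟨ε, hε, hev⟩ := KRFAl.sep (X' := fun x : Cn (L + 1) => cc x) hX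
        (hccc.continuousAt (x := x₁)) hn hne
      have hs1 : ∀ᶠ p in 𝓝 p', p ∈ (e c).source ∧ e c p ∈ W := MT.near hc hF.1 hxW
      have ht : Tendsto (fun T : (Cn (L + 1) × Z) × M => (T.2, T.1.1))
          (𝓝 ((x₁, z₀), p')) (𝓝 (p', x₁)) :=
        (show Continuous fun T : (Cn (L + 1) × Z) × M => (T.2, T.1.1) by
          fun_prop).tendsto' _ _ rfl
      filter_upwards [ht.eventually hev, (continuous_snd.tendsto' ((x₁, z₀), p') p'
        rfl).eventually hs1] with T h1 h2 h3 _ h5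
      obtain ⟨a, ha⟩ := (MT.exists_lift hF h2.1 h2.2).2 (cc T.1.1) h3 h5
      have h6 := h1 (cc T.1.1) (cc T.1.1) ⟨a, ha⟩ ⟨1, (one_smul _ _).symm⟩
      rw [sub_self, norm_zero] at h6
      have h7 : 0 < ε * ‖cc T.1.1‖ := mul_pos hε (norm_pos_iff.2 h3)
      linarith
    · -- the point `f p'` is different from `z₀`
      have h1 : ContinuousAt (fun T : (Cn (L + 1) × Z) × M => dist (f T.2) T.1.2)
          ((x₁, z₀), p') :=
        ((G.cont.comp continuous_snd).dist (continuous_snd.comp continuous_fst)).continuousAt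
      filter_upwards [h1.eventually_ne (dist_ne_zero.2 hfp)] with T h2 _ h4 _
      exact h2 (by rw [h4, dist_self])

omit [CompactSpace M] in
/-- Away from the fibre. -/
theorem exists_eq_off [Nonempty M] (hS : IsOpen S) {z₀ : Z} (hz₀ : z₀ ∈ S) {x₁ : Cn (L + 1)}
    (hx₁ : x₁ ≠ 0) (hev : ∀ᶠ R : Cn (L + 1) × Z in 𝓝 (x₁, z₀), ∀ (p : M) (h : cc R.1 ≠ 0),
      f p = R.2 → ι p = Projectivization.mk ℂ (cc R.1) h → p ∈ (∅ : Set M)) :
    ∃ (O : Set (Cn (L + 1))) (S' : Set Z) (E : Z → Cn (L + 1) → Cn (L + 1 + N)) (C : ℝ),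
      x₁ ∈ O ∧ IsOpen S' ∧ z₀ ∈ S' ∧ S' ⊆ S ∧ 0 < C ∧ IsEq f ι O S' E C := by
  set v : Cn (L + 1 + N) := iot _ fun _ => 1 with hv
  have hv1 : 1 ≤ nsq v := by
    have h1 := EB.cc_le_nsq v
    have h2 : cc v = fun _ => 1 := ccv_iot _
    have h3 : ‖cc v (Fin.castAdd N 0)‖ ≤ ‖cc v‖ := norm_le_pi_norm (cc v) _
    rw [h2] at h1 h3
    simp only [norm_one] at h3
    nlinarith
  obtain ⟨p₀⟩ := ‹Nonempty M›
  set x₀ : Cn (L + 1) := iot _ (ι p₀).rep with hx₀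
  have hcx : cc x₀ = (ι p₀).rep := ccv_iot _
  have h0 : cc x₀ ≠ 0 := by
    rw [hcx]
    exact (ι p₀).rep_nonzero
  have hι₀ : ι p₀ = Projectivization.mk ℂ (cc x₀) h0 := by
    simp only [hcx]
    exact (Projectivization.mk_rep (ι p₀)).symm
  have hc : ContinuousAt (fun R : Cn (L + 1) × Z => nsq (R.1 - x₀) + dist (f p₀) R.2 ^ 2)
      (x₁, z₀) := by
    refine Continuous.continuousAt ?_
    have h1 : Continuous fun R : Cn (L + 1) × Z => nsq (R.1 - x₀) :=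
      EB.continuous_nsq.comp (by fun_prop)
    fun_prop
  have hup : ∀ᶠ R : (Cn (L + 1) × Z) × (Cn (L + 1) × Z) in 𝓝 ((x₁, z₀), (x₁, z₀)),
      ∀ (p : M) (h : cc R.2.1 ≠ 0), f p = R.2.2 → ι p = Projectivization.mk ℂ (cc R.2.1) h →
        nsq v ≤ 0 * (nsq (R.1.1 - R.2.1) + dist R.2.2 R.1.2 ^ 2) := by
    have ht : Tendsto (fun R : (Cn (L + 1) × Z) × (Cn (L + 1) × Z) => R.2)
        (𝓝 ((x₁, z₀), (x₁, z₀))) (𝓝 (x₁, z₀)) := continuous_snd.tendsto' _ _ rfl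
    filter_upwards [ht.eventually hev] with R hR p h h1 h2
    exact (hR p h h1 h2).elim
  have hlow : ∀ᶠ R : Cn (L + 1) × Z in 𝓝 (x₁, z₀), ∃ (p : M) (x' : Cn (L + 1))
      (h : cc x' ≠ 0), ι p = Projectivization.mk ℂ (cc x') h ∧
        nsq (R.1 - x') + dist (f p) R.2 ^ 2 ≤
          (nsq (x₁ - x₀) + dist (f p₀) z₀ ^ 2 + 1) * nsq v := by
    filter_upwards [hc.eventually_lt continuousAt_const
      (lt_add_one (nsq (x₁ - x₀) + dist (f p₀) z₀ ^ 2))] with R hR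
    refine ⟨p₀, x₀, h0, hι₀, hR.le.trans ?_⟩
    have h1 : 0 ≤ nsq (x₁ - x₀) + dist (f p₀) z₀ ^ 2 + 1 := by
      have := EB.nsq_nonneg (x₁ - x₀)
      positivity
    nlinarith
  obtain ⟨O, S', C, h1, h2, h3, h4, h5, h6⟩ := EB.exists_isEq (f := f) (ι := ι)
    (E := fun _ _ => v) (K₂ := nsq v) hx₁ hS hz₀ (fun _ => univ)
    (fun _ _ _ _ => rfl) (fun _ _ _ _ _ => mem_univ _)
    (fun w => ⟨isOpen_univ, contDiffOn_const, fun x _ u => by
      rw [fderiv_fun_const]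
      ext <;> simp [J]⟩)
    (Eventually.of_forall fun _ => mem_univ _) hup (Eventually.of_forall fun _ => le_rfl) hlow
  exact ⟨O, S', _, C, h1, h2, h3, h4, h5, h6⟩

/-- local equations of the cones over the fibres -/
theorem exists_eq [Nonempty M] (G : GeoData e U q f ψ) (hι : IsEmbOver e U q f S ι)
    (hS : IsOpen S) {z₀ : Z} (hz₀ : z₀ ∈ S) {x₁ : Cn (L + 1)} (hx₁ : x₁ ≠ 0) :
    ∃ (O : Set (Cn (L + 1))) (S' : Set Z) (E : Z → Cn (L + 1) → Cn (L + 1 + N)) (C : ℝ),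
      x₁ ∈ O ∧ IsOpen S' ∧ z₀ ∈ S' ∧ S' ⊆ S ∧ 0 < C ∧ IsEq f ι O S' E C := by
  classical
  have hx₁c : cc x₁ ≠ 0 := cc_ne_zero hx₁
  by_cases hp : ∃ p, f p = z₀ ∧ ι p = Projectivization.mk ℂ (cc x₁) hx₁c
  swap
  · exact exists_eq_off hS hz₀ hx₁ (ev_mem G hι hz₀ hx₁c isOpen_empty
      fun p h1 h2 => (hp ⟨p, h1, h2⟩).elim)
  obtain ⟨j, hj⟩ := G.cover z₀
  -- the set `S₀`
  obtain ⟨C, hC, hlip⟩ := G.qlip j z₀ hj
  rw [nhds_prod_eq] at hlip
  obtain ⟨t, ht, hts⟩ := Filter.mem_prod_self_iff.1 hlip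
  obtain ⟨S₀, hS₀t, hS₀o, hzS₀⟩ := mem_nhds_iff.1 (inter_mem ht (inter_mem (hS.mem_nhds hz₀)
    ((G.isOpen j).mem_nhds hj)))
  have hdist1 : ∀ z ∈ S₀, ∀ z' ∈ S₀, dist (q j z) (q j z') ≤ C * dist z z' :=
    fun z hz z' hz' => (hts (mk_mem_prod (hS₀t hz).1 (hS₀t hz').1)).1
  have hdist2 : ∀ z ∈ S₀, ∀ z' ∈ S₀, dist z z' ≤ C * dist (q j z) (q j z') :=
    fun z hz z' hz' => (hts (mk_mem_prod (hS₀t hz).1 (hS₀t hz').1)).2
  obtain ⟨p₁, hfp, hιp⟩ := hp
  obtain ⟨c, hc⟩ := G.atlas.cover p₁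
  set z₁ : Cn n := e c p₁ with hz₁
  have hz₁t : z₁ ∈ (e c).target := (e c).map_source hc
  have hsz : (e c).symm z₁ = p₁ := (e c).left_inv hc
  obtain ⟨F, W, hxW, hF, himm⟩ := hι.lift c z₁ hz₁t (by rw [hsz, hfp]; exact hz₀)
  obtain ⟨hWo, hWt, hFh, hlift⟩ := hF
  obtain ⟨a, ha⟩ : ∃ a, cc (F z₁) a ≠ 0 := by
    by_contra hc'
    push Not at hc'
    exact (hlift z₁ hxW).1 (funext hc')
  -- the open set on which `Φ` is defined
  have hUo : IsOpen (fdom e U f c j) :=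
    (e c).isOpen_inter_preimage_symm ((G.isOpen j).preimage G.cont)
  have hS₀c : IsOpen {z | z ∈ (e c).target ∧ f ((e c).symm z) ∈ S₀} :=
    (e c).isOpen_inter_preimage_symm (hS₀o.preimage G.cont)
  set D : Set (Cn n) := {z | z ∈ W ∧ cc (F z) a ≠ 0} ∩
    {z | z ∈ (e c).target ∧ f ((e c).symm z) ∈ S₀} with hD
  have hDo : IsOpen D := ((NF.holOn_cc hWo hFh a).1.continuousOn.isOpen_inter_preimage hWo
    isOpen_compl_singleton).inter hS₀c
  have hz₁D : z₁ ∈ D := ⟨⟨hxW, ha⟩, hz₁t, by rw [hsz, hfp]; exact hzS₀⟩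
  have hDU : D ⊆ fdom e U f c j := fun z hz => ⟨hz.2.1, (hS₀t hz.2.2).2.2⟩
  obtain ⟨hΦh, hΦi⟩ := LB.imm (H := fmap e q f c j) hDo hWo (fun z hz => hz.1.1) hFh hUo hDU
    (G.holo c j) (i0 := a) (fun z hz => hz.1.2) rfl
  set Φ : Cn n → Fin (L + 1) ⊕ Fin N → ℂ := fun z =>
    Sum.elim (fun i => cc (F z) i * (cc (F z) a)⁻¹) (fun k => cc (fmap e q f c j z) k) with hΦ
  obtain ⟨D', O₁, ρ, hD'o, hz₁D', hD'D, hO₁, hΦO₁, hρ, hρΦ, hg⟩ :=
    EA.exists_retr hDo hz₁D hΦh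
      (hΦi z₁ hz₁D (himm j (by rw [hsz, hfp]; exact hj)))
  -- the points of the image of `Φ`
  have hrat : ∀ (x : Cn (L + 1)) (h : cc x ≠ 0) (z : Cn n), z ∈ D →
      ι ((e c).symm z) = Projectivization.mk ℂ (cc x) h →
      cc x a ≠ 0 ∧ EA.rat a (cc x, cc (q j (f ((e c).symm z)))) = Φ z := by
    intro x h z hz hιz
    obtain ⟨h0, h1⟩ := hlift z hz.1.1
    rw [h1, Projectivization.mk_eq_mk_iff'] at hιz
    obtain ⟨b, hb⟩ := hιz
    have hb0 : b ≠ 0 := by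
      rintro rfl
      rw [zero_smul] at hb
      exact h0 hb.symm
    have hFa : cc (F z) a = b * cc x a := by rw [← hb]; rfl
    have hxa : cc x a ≠ 0 := by
      intro h2
      apply hz.1.2
      rw [hFa, h2, mul_zero]
    refine ⟨hxa, ?_⟩
    funext i
    rcases i with i | k
    · have hFi : cc (F z) i = b * cc x i := by rw [← hb]; rfl
      simp only [EA.rat, Sum.elim_inl, hΦ]
      rw [hFi, hFa]
      field_simp
    · rfl
  have hΓ : ∀ (t : ℂ), t ≠ 0 → ∀ z ∈ D, ∃ h : (EA.unr t (Φ z)).1 ≠ 0,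
      ι ((e c).symm z) = Projectivization.mk ℂ (EA.unr t (Φ z)).1 h := by
    intro t ht' z hz
    obtain ⟨h0, h1⟩ := hlift z hz.1.1
    have h2 : (EA.unr t (Φ z)).1 a = t := by
      simp only [EA.unr, hΦ, Sum.elim_inl]
      rw [mul_inv_cancel₀ hz.1.2, mul_one]
    have h3 : (EA.unr t (Φ z)).1 ≠ 0 := by
      intro h4
      rw [h4] at h2
      exact ht' h2.symm
    refine ⟨h3, ?_⟩
    rw [h1]
    symm
    refine (Projectivization.mk_eq_mk_iff' ℂ _ _ _ _).2 ⟨t * (cc (F z) a)⁻¹, ?_⟩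
    funext i
    simp only [EA.unr, hΦ, Sum.elim_inl, Pi.smul_apply, smul_eq_mul]
    ring
  -- the neighbourhood of `p₁`
  set V : Set M := (e c).source ∩ (e c) ⁻¹' D' with hV
  have hVo : IsOpen V := (e c).isOpen_inter_preimage hD'o
  have hp₁V : p₁ ∈ V := ⟨hc, hz₁D'⟩
  have hev := ev_mem G hι hz₀ hx₁c hVo (by
    intro p h1 h2
    have h3 : p = p₁ := hι.inj p p₁ (by rw [h1]; exact hz₀) (h1.trans hfp.symm)
      (h2.trans hιp.symm)
    rw [h3]
    exact hp₁V)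
  obtain ⟨hxa, hrat₁⟩ := hrat x₁ hx₁c z₁ hz₁D (by rw [hsz]; exact hιp)
  rw [hsz, hfp] at hrat₁
  -- continuity
  have hccc : ∀ m : ℕ, Continuous fun x : Cn m => cc x := fun m =>
    (MT.ccP m).continuous.congr fun x => MT.ccP_apply x
  have hqc : ContinuousAt (q j) z₀ := by
    rw [ContinuousAt, tendsto_iff_dist_tendsto_zero]
    have h1 : Tendsto (fun z => C * dist z z₀) (𝓝 z₀) (𝓝 0) := by
      have h2 : Continuous fun z => C * dist z z₀ := by fun_prop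
      exact h2.tendsto' _ _ (by simp)
    refine squeeze_zero' (Eventually.of_forall fun _ => dist_nonneg) ?_ h1
    filter_upwards [hS₀o.mem_nhds hzS₀] with z hz
    exact hdist1 z hz z₀ hzS₀
  set Q : Cn (L + 1) × Z → (Fin (L + 1) → ℂ) × (Fin N → ℂ) := fun R => (cc R.1, cc (q j R.2))
    with hQ
  have hQc : ContinuousAt Q (x₁, z₀) := by
    refine ContinuousAt.prodMk ((hccc _).continuousAt.comp continuousAt_fst) ?_
    exact (hccc _).continuousAt.comp (hqc.comp (x := (x₁, z₀)) continuousAt_snd)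
  have hratc : ContinuousAt (fun R => EA.rat a (Q R)) (x₁, z₀) :=
    ContinuousAt.comp (x := (x₁, z₀)) (EA.continuousAt_rat a (P := Q (x₁, z₀)) hxa) hQc
  -- the equations
  set g : (Fin (L + 1) ⊕ Fin N → ℂ) → (Fin (L + 1) ⊕ Fin N → ℂ) := fun v => v - Φ (ρ v) with hgdef
  set E : Z → Cn (L + 1) → Cn (L + 1 + N) := fun w x =>
    iot _ fun i => g (EA.rat a (cc x, cc (q j w))) (finSumFinEquiv.symm i) with hE
  have hE1 : ∀ w x, nsq (E w x) ≤ (L + 1 + N : ℕ) * ‖g (EA.rat a (cc x, cc (q j w)))‖ ^ 2 := by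
    intro w x
    refine EB.nsq_le_cc _ ?_
    have h1 : cc (E w x) = fun i => g (EA.rat a (cc x, cc (q j w))) (finSumFinEquiv.symm i) :=
      ccv_iot _
    rw [h1]
    exact (pi_norm_le_iff_of_nonneg (norm_nonneg _)).2 fun i => norm_le_pi_norm _ _
  have hE2 : ∀ w x, ‖g (EA.rat a (cc x, cc (q j w)))‖ ^ 2 ≤ nsq (E w x) := by
    intro w x
    refine le_trans ?_ (EB.cc_le_nsq _)
    have h1 : cc (E w x) = fun i => g (EA.rat a (cc x, cc (q j w))) (finSumFinEquiv.symm i) :=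
      ccv_iot _
    have h2 : ‖g (EA.rat a (cc x, cc (q j w)))‖ ≤ ‖cc (E w x)‖ := by
      refine (pi_norm_le_iff_of_nonneg (norm_nonneg _)).2 fun i => ?_
      have h3 := norm_le_pi_norm (cc (E w x)) (finSumFinEquiv i)
      rw [h1] at h3
      rw [h1]
      simpa using h3
    gcongr
  have hA : IsOpen {R : (Fin (L + 1) → ℂ) × (Fin N → ℂ) | R.1 a ≠ 0 ∧ EA.rat a R ∈ O₁} := by
    have h1 : IsOpen {R : (Fin (L + 1) → ℂ) × (Fin N → ℂ) | R.1 a ≠ 0} :=
      isOpen_ne_fun (by fun_prop) continuous_const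
    exact (EA.differentiableOn_rat a fun R hR => hR).continuousOn.isOpen_inter_preimage h1 hO₁
  have hGd : DifferentiableOn ℂ (fun R => g (EA.rat a R))
      {R : (Fin (L + 1) → ℂ) × (Fin N → ℂ) | R.1 a ≠ 0 ∧ EA.rat a R ∈ O₁} :=
    hg.comp (EA.differentiableOn_rat a fun R hR => hR.1) fun R hR => hR.2
  have hPA : Q (x₁, z₀) ∈ {R : (Fin (L + 1) → ℂ) × (Fin N → ℂ) | R.1 a ≠ 0 ∧ EA.rat a R ∈ O₁} := by
    refine ⟨hxa, ?_⟩
    change EA.rat a (cc x₁, cc (q j z₀)) ∈ O₁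
    rw [hrat₁]
    exact hΦO₁
  have hg0 : ∀ z ∈ D', g (Φ z) = 0 := by
    intro z hz
    change Φ z - Φ (ρ (Φ z)) = 0
    rw [hρΦ z hz, sub_self]
  have hG1 : ContDiffAt ℂ 1 (fun R => g (EA.rat a R)) (Q (x₁, z₀)) := by
    have := SCV.contDiffAt_of_differentiableOn hA hGd hPA (n := 1)
    exact_mod_cast this
  obtain ⟨K, t', ht', hK⟩ := hG1.exists_lipschitzOnWith
  have hGc : ContinuousAt (fun R => ‖g (EA.rat a (Q R))‖) (x₁, z₀) :=
    (ContinuousAt.comp (x := (x₁, z₀)) (g := fun R => g (EA.rat a R)) hG1.continuousAt hQc).norm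
  have hS₀e : ∀ᶠ R : Cn (L + 1) × Z in 𝓝 (x₁, z₀), R.2 ∈ S₀ :=
    continuous_snd.continuousAt.eventually (hS₀o.mem_nhds hzS₀)
  have hQA : ∀ᶠ R : Cn (L + 1) × Z in 𝓝 (x₁, z₀), (Q R).1 a ≠ 0 ∧ EA.rat a (Q R) ∈ O₁ :=
    hQc.eventually (hA.mem_nhds hPA)
  -- the upper estimate
  have hup : ∀ᶠ R : (Cn (L + 1) × Z) × (Cn (L + 1) × Z) in 𝓝 ((x₁, z₀), (x₁, z₀)),
      ∀ (p : M) (h : cc R.2.1 ≠ 0), f p = R.2.2 → ι p = Projectivization.mk ℂ (cc R.2.1) h →
        nsq (E R.1.2 R.1.1) ≤ ((L + 1 + N : ℕ) * (K ^ 2 * (1 + 4 * C ^ 2))) *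
          (nsq (R.1.1 - R.2.1) + dist R.2.2 R.1.2 ^ 2) := by
    have ht1 : Tendsto (fun R : (Cn (L + 1) × Z) × (Cn (L + 1) × Z) => R.1)
        (𝓝 ((x₁, z₀), (x₁, z₀))) (𝓝 (x₁, z₀)) := continuous_fst.tendsto' _ _ rfl
    have ht2 : Tendsto (fun R : (Cn (L + 1) × Z) × (Cn (L + 1) × Z) => R.2)
        (𝓝 ((x₁, z₀), (x₁, z₀))) (𝓝 (x₁, z₀)) := continuous_snd.tendsto' _ _ rfl
    have hQt : ∀ᶠ R in 𝓝 (x₁, z₀), Q R ∈ t' := hQc.eventually ht'
    filter_upwards [ht1.eventually (hQt.and hS₀e), ht2.eventually (hQt.and (hS₀e.and hev))]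
      with R h1 h2 p h hf hp
    obtain ⟨h3, h4⟩ := h1
    obtain ⟨h5, h6, h7⟩ := h2
    have hpV : p ∈ V := h7 p h hf hp
    have h9 : (e c).symm (e c p) = p := (e c).left_inv hpV.1
    obtain ⟨-, h10⟩ := hrat R.2.1 h (e c p) (hD'D hpV.2) (by rw [h9]; exact hp)
    rw [h9, hf] at h10
    have h11 : g (EA.rat a (Q R.2)) = 0 := by
      change g (EA.rat a (cc R.2.1, cc (q j R.2.2))) = 0
      rw [h10]
      exact hg0 _ hpV.2
    have h12 := hK.dist_le_mul _ h3 _ h5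
    simp only [h11, dist_zero_right] at h12
    have h13 : dist (Q R.1) (Q R.2) ^ 2 ≤
        (1 + 4 * C ^ 2) * (nsq (R.1.1 - R.2.1) + dist R.2.2 R.1.2 ^ 2) := by
      have h14 : dist (cc R.1.1) (cc R.2.1) ^ 2 ≤ nsq (R.1.1 - R.2.1) := by
        rw [dist_eq_norm, ← EB.cc_sub]
        exact EB.cc_le_nsq _
      have h15 : dist (cc (q j R.1.2)) (cc (q j R.2.2)) ≤ 2 * (C * dist R.2.2 R.1.2) := by
        rw [dist_eq_norm, dist_comm R.2.2]
        exact (norm_ccv_sub_le _ _).trans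
          (mul_le_mul_of_nonneg_left (hdist1 _ h4 _ h6) (by norm_num))
      have h16 := EB.nsq_nonneg (R.1.1 - R.2.1)
      have h17 : 0 ≤ dist R.2.2 R.1.2 ^ 2 := sq_nonneg _
      have h18 : 0 ≤ C ^ 2 := sq_nonneg _
      change max (dist (cc R.1.1) (cc R.2.1)) (dist (cc (q j R.1.2)) (cc (q j R.2.2))) ^ 2 ≤ _
      rcases max_choice (dist (cc R.1.1) (cc R.2.1)) (dist (cc (q j R.1.2)) (cc (q j R.2.2)))
        with h19 | h19
      · rw [h19]
        nlinarith [mul_nonneg h18 h16, mul_nonneg h18 h17]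
      · rw [h19]
        calc dist (cc (q j R.1.2)) (cc (q j R.2.2)) ^ 2 ≤ (2 * (C * dist R.2.2 R.1.2)) ^ 2 := by
              gcongr
          _ = 4 * C ^ 2 * dist R.2.2 R.1.2 ^ 2 := by ring
          _ ≤ _ := by nlinarith [mul_nonneg h18 h16, mul_nonneg h18 h17]
    calc nsq (E R.1.2 R.1.1) ≤ (L + 1 + N : ℕ) * ‖g (EA.rat a (Q R.1))‖ ^ 2 := hE1 _ _
      _ ≤ (L + 1 + N : ℕ) * (K * dist (Q R.1) (Q R.2)) ^ 2 := by gcongr
      _ = (L + 1 + N : ℕ) * K ^ 2 * dist (Q R.1) (Q R.2) ^ 2 := by ring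
      _ ≤ (L + 1 + N : ℕ) * K ^ 2 *
          ((1 + 4 * C ^ 2) * (nsq (R.1.1 - R.2.1) + dist R.2.2 R.1.2 ^ 2)) := by gcongr
      _ = _ := by ring
  -- the bound
  have hG0 : ‖g (EA.rat a (Q (x₁, z₀)))‖ = 0 := by
    change ‖g (EA.rat a (cc x₁, cc (q j z₀)))‖ = 0
    rw [hrat₁, hg0 z₁ hz₁D', norm_zero]
  have hbd : ∀ᶠ R : Cn (L + 1) × Z in 𝓝 (x₁, z₀), nsq (E R.2 R.1) ≤ (L + 1 + N : ℕ) * 1 ^ 2 := by
    filter_upwards [hGc.eventually_lt continuousAt_const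
      (show ‖g (EA.rat a (Q (x₁, z₀)))‖ < 1 by rw [hG0]; exact one_pos)] with R hR
    refine (hE1 _ _).trans ?_
    have h1 : ‖g (EA.rat a (cc R.1, cc (q j R.2)))‖ ≤ 1 := hR.le
    gcongr
  -- the lower estimate
  have hlow : ∀ᶠ R : Cn (L + 1) × Z in 𝓝 (x₁, z₀), ∃ (p : M) (x' : Cn (L + 1))
      (h : cc x' ≠ 0), ι p = Projectivization.mk ℂ (cc x') h ∧
        nsq (R.1 - x') + dist (f p) R.2 ^ 2 ≤
          (((L + 1 : ℕ) + C ^ 2) * (‖cc x₁ a‖ + 2) ^ 2) * nsq (E R.2 R.1) := by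
    have hac : ContinuousAt (fun R : Cn (L + 1) × Z => ‖cc R.1 a‖) (x₁, z₀) := by
      have h1 : Continuous fun R : Cn (L + 1) × Z => cc R.1 := (hccc _).comp continuous_fst
      exact ((continuous_apply a).comp h1).norm.continuousAt
    filter_upwards [hQA, hS₀e, hac.eventually_lt continuousAt_const (lt_add_one ‖cc x₁ a‖)]
      with R h1 h2 h3
    set z' : Cn n := ρ (EA.rat a (Q R)) with hz'
    have hz'D : z' ∈ D := hD'D (hρ _ h1.2)
    obtain ⟨h4, h5⟩ := hΓ (cc R.1 a) h1.1 z' hz'D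
    set x' : Cn (L + 1) := iot _ (EA.unr (cc R.1 a) (Φ z')).1 with hx'
    have hcx : cc x' = (EA.unr (cc R.1 a) (Φ z')).1 := ccv_iot _
    have h6 : cc x' ≠ 0 := by
      rw [hcx]
      exact h4
    have hdQ := EA.dist_unr (cc R.1 a) (EA.rat a (Q R)) (Φ z')
    have h7 : EA.unr (cc R.1 a) (EA.rat a (Q R)) = Q R := EA.unr_rat a (P := Q R) h1.1
    rw [h7] at hdQ
    have hgR : ‖EA.rat a (Q R) - Φ z'‖ = ‖g (EA.rat a (cc R.1, cc (q j R.2)))‖ := rfl
    rw [hgR] at hdQ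
    set γ : ℝ := ‖g (EA.rat a (cc R.1, cc (q j R.2)))‖ with hγ
    have hγ0 : 0 ≤ γ := norm_nonneg _
    have h8 : dist (Q R) (EA.unr (cc R.1 a) (Φ z')) ≤ (‖cc x₁ a‖ + 2) * γ :=
      hdQ.trans (mul_le_mul_of_nonneg_right (by linarith) hγ0)
    have h9 : ‖cc (R.1 - x')‖ ≤ (‖cc x₁ a‖ + 2) * γ := by
      rw [EB.cc_sub, hcx, ← dist_eq_norm]
      exact (le_max_left _ _).trans h8
    have h10 : dist (f ((e c).symm z')) R.2 ≤ C * ((‖cc x₁ a‖ + 2) * γ) := by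
      refine (hdist2 _ hz'D.2.2 _ h2).trans (mul_le_mul_of_nonneg_left ?_ hC.le)
      rw [dist_comm, dist_eq_norm]
      refine (EB.norm_le_cc _).trans ?_
      rw [EB.cc_sub, ← dist_eq_norm]
      exact (le_max_right _ _).trans h8
    refine ⟨(e c).symm z', x', h6, ?_, ?_⟩
    · rw [h5]
      simp only [hcx]
    · have h11 := EB.nsq_le_cc _ h9
      have h12 : dist (f ((e c).symm z')) R.2 ^ 2 ≤ (C * ((‖cc x₁ a‖ + 2) * γ)) ^ 2 := by
        have := dist_nonneg (x := f ((e c).symm z')) (y := R.2)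
        gcongr
      have h13 : γ ^ 2 ≤ nsq (E R.2 R.1) := hE2 _ _
      have h14 : 0 ≤ (((L + 1 : ℕ) : ℝ) + C ^ 2) * (‖cc x₁ a‖ + 2) ^ 2 := by positivity
      calc nsq (R.1 - x') + dist (f ((e c).symm z')) R.2 ^ 2
          ≤ (L + 1 : ℕ) * ((‖cc x₁ a‖ + 2) * γ) ^ 2 + (C * ((‖cc x₁ a‖ + 2) * γ)) ^ 2 := by
            linarith
        _ = (((L + 1 : ℕ) + C ^ 2) * (‖cc x₁ a‖ + 2) ^ 2) * γ ^ 2 := by ring
        _ ≤ _ := mul_le_mul_of_nonneg_left h13 h14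
  -- the result
  have hinv : ∀ w x, ∀ b : ℂ, b ≠ 0 → E w (EB.csm b x) = E w x := by
    intro w x b hb
    simp only [hE, EB.cc_csm, EA.rat_smul a _ _ hb]
  have hDD : ∀ (w : Z) (x : Cn (L + 1)) (b : ℂ), b ≠ 0 →
      EB.csm b x ∈ {x | cc x a ≠ 0 ∧ EA.rat a (cc x, cc (q j w)) ∈ O₁} →
      x ∈ {x | cc x a ≠ 0 ∧ EA.rat a (cc x, cc (q j w)) ∈ O₁} := by
    rintro w x b hb ⟨h1, h2⟩
    rw [EB.cc_csm] at h1 h2
    rw [EA.rat_smul a _ _ hb] at h2
    refine ⟨fun h3 => h1 ?_, h2⟩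
    rw [Pi.smul_apply, h3, smul_zero]
  have hhol : ∀ w : Z, IsOpen {x : Cn (L + 1) | cc x a ≠ 0 ∧ EA.rat a (cc x, cc (q j w)) ∈ O₁} ∧
      HolOn (E w) {x | cc x a ≠ 0 ∧ EA.rat a (cc x, cc (q j w)) ∈ O₁} := by
    intro w
    have hcont : Continuous fun x : Cn (L + 1) => (cc x, cc (q j w)) :=
      (hccc _).prodMk continuous_const
    have hDw : IsOpen {x : Cn (L + 1) | cc x a ≠ 0 ∧ EA.rat a (cc x, cc (q j w)) ∈ O₁} :=
      hA.preimage hcont
    refine ⟨hDw, EB.holOn_of hDw (H := fun v i => g (EA.rat a (v, cc (q j w)))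
      (finSumFinEquiv.symm i)) ?_⟩
    intro x hx
    have hcv : Continuous fun v : Fin (L + 1) → ℂ => (v, cc (q j w)) := by fun_prop
    filter_upwards [(hA.preimage hcv).mem_nhds hx] with v hv
    have h1 : DifferentiableAt ℂ (fun v : Fin (L + 1) → ℂ => g (EA.rat a (v, cc (q j w)))) v := by
      have h2 : DifferentiableAt ℂ (fun R => g (EA.rat a R)) (v, cc (q j w)) :=
        hGd.differentiableAt (hA.mem_nhds hv)
      have h3 : DifferentiableAt ℂ (fun v : Fin (L + 1) → ℂ => (v, cc (q j w))) v := by fun_prop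
      exact DifferentiableAt.comp (f := fun v : Fin (L + 1) → ℂ => (v, cc (q j w))) v h2 h3
    exact differentiableAt_pi.2 fun i => differentiableAt_pi.1 h1 (finSumFinEquiv.symm i)
  obtain ⟨O, S', C', h1, h2, h3, h4, h5, h6⟩ := EB.exists_isEq (f := f) (ι := ι) (E := E) hx₁ hS hz₀
    _ hinv hDD hhol hQA hup hbd hlow
  exact ⟨O, S', E, C', h1, h2, h3, h4, h5, h6⟩

end

end Pool.Agent.KRFCh

end

section

/-!
# The weight `∑ χ_i (hcap (b i) x) (|E_i w x|^2 + ε^2)`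
-/

open scoped ContDiff ENNReal ComplexOrder LinearAlgebra.Projectivization Topology
open Set Filter MeasureTheory Pool.Agent.ToricKRF Pool.Agent.ToricKRF.G Pool.Agent.KRFS
  Pool.Agent.KRFF Pool.Agent.KRFZ Pool.Agent.KRFW

namespace Pool.Agent.KRFCh

namespace Wt

variable {l r : ℕ}

/-- one term of the weight -/
noncomputable def term (b : Cn l) (χ : ℝ → ℝ) (E : Cn l → Cn r) (ε : ℝ) (x : Cn l) : ℝ :=
  χ (hcap b x) * (nsq (E x) + ε ^ 2)

/-- the assumptions on one term -/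
structure IsTerm (b : Cn l) (η : ℝ) (χ : ℝ → ℝ) (C : ℝ) (O : Set (Cn l)) (E : Cn l → Cn r) :
    Prop where
  b_ne : b ≠ 0
  η_pos : 0 < η
  smooth : ContDiff ℝ ∞ χ
  C_pos : 0 < C
  bound : ∀ s, 0 ≤ χ s ∧ χ s ≤ 1
  zero : ∀ s, χ s = 0 ↔ s ≤ 1 - η / 2
  big : ∀ s, 1 - η / 4 ≤ s → C⁻¹ ≤ χ s
  lev : ∀ x v : Cn l, x ≠ 0 → 1 - η / 2 < hcap b x →
    -C * levz (fun x => Real.log (nsq x)) v x ≤
      χ (hcap b x) * levz (fun x => Real.log (χ (hcap b x))) v x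
  isOpen : IsOpen O
  mem : ∀ x, x ≠ 0 → 1 - η < hcap b x → x ∈ O
  hol : HolOn E O

variable {b : Cn l} {η : ℝ} {χ : ℝ → ℝ} {C : ℝ} {O : Set (Cn l)} {E : Cn l → Cn r} {ε : ℝ}

theorem isOpen_ne0 : IsOpen {x : Cn l | x ≠ 0} := isOpen_ne

theorem term_nonneg (h : IsTerm b η χ C O E) (ε : ℝ) (x : Cn l) : 0 ≤ term b χ E ε x :=
  mul_nonneg (h.bound _).1 (add_nonneg (Pool.Agent.KRFX.NC.nsq_nonneg _) (sq_nonneg _))

theorem pos_iff (h : IsTerm b η χ C O E) (hε : 0 < ε) (x : Cn l) :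
    0 < term b χ E ε x ↔ 1 - η / 2 < hcap b x := by
  have h1 : 0 < nsq (E x) + ε ^ 2 := by
    have := Pool.Agent.KRFX.NC.nsq_nonneg (E x)
    positivity
  unfold term
  rw [mul_pos_iff_of_pos_right h1]
  have h2 := h.bound (hcap b x)
  have h3 := h.zero (hcap b x)
  constructor
  · intro h4
    by_contra h5
    exact h4.ne' (h3.2 (not_lt.1 h5))
  · intro h4
    exact lt_of_le_of_ne h2.1 fun h5 => absurd (h3.1 h5.symm) (not_le.2 h4)

theorem smooth_E (h : IsTerm b η χ C O E) (ε : ℝ) :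
    ContDiffOn ℝ ∞ (fun x => nsq (E x) + ε ^ 2) O :=
  (Pool.Agent.KRFX.NC.contDiff_nsq.comp_contDiffOn h.hol.1).add contDiffOn_const

theorem contDiffAt_term (h : IsTerm b η χ C O E) (ε : ℝ) {x : Cn l} (hx : x ≠ 0) :
    ContDiffAt ℝ ∞ (term b χ E ε) x := by
  have hcont : ContDiffAt ℝ ∞ (hcap b) x := (contDiffOn_hcap b).contDiffAt (isOpen_ne0.mem_nhds hx)
  by_cases hc : 1 - η < hcap b x
  · have hxO := h.mem x hx hc
    exact (h.smooth.contDiffAt.comp x hcont).mul ((smooth_E h ε).contDiffAt (h.isOpen.mem_nhds hxO))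
  · have h1 : ∀ᶠ x' in 𝓝 x, hcap b x' < 1 - η / 2 := by
      refine hcont.continuousAt.eventually_lt continuousAt_const ?_
      have := h.η_pos
      linarith [not_lt.1 hc]
    have h2 : term b χ E ε =ᶠ[𝓝 x] fun _ => 0 := by
      filter_upwards [h1] with x' hx'
      unfold term
      rw [(h.zero _).2 hx'.le, zero_mul]
    exact contDiffAt_const.congr_of_eventuallyEq h2

/-- the Levi form of one term -/
theorem lev_term (h : IsTerm b η χ C O E) (hε : 0 < ε) {x : Cn l} (hx : x ≠ 0)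
    (hc : 1 - η / 2 < hcap b x) (v : Cn l) :
    -(C * levz (fun x => Real.log (nsq x)) v x * (nsq (E x) + ε ^ 2)) ≤
      term b χ E ε x * levz (fun x => Real.log (term b χ E ε x)) v x := by
  have hη := h.η_pos
  have hxO : x ∈ O := h.mem x hx (by linarith)
  have hcont : ContDiffAt ℝ ∞ (hcap b) x := (contDiffOn_hcap b).contDiffAt (isOpen_ne0.mem_nhds hx)
  have hχ : ContDiffAt ℝ ∞ (fun x => χ (hcap b x)) x := h.smooth.contDiffAt.comp x hcont
  have hH : ContDiffAt ℝ ∞ (fun x => nsq (E x) + ε ^ 2) x :=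
    (smooth_E h ε).contDiffAt (h.isOpen.mem_nhds hxO)
  have hH0 : ∀ x, 0 < nsq (E x) + ε ^ 2 := fun x => by
    have := Pool.Agent.KRFX.NC.nsq_nonneg (E x)
    positivity
  have hχ0 : 0 < χ (hcap b x) :=
    lt_of_le_of_ne (h.bound _).1 fun h5 => absurd ((h.zero _).1 h5.symm) (not_le.2 hc)
  have h1 : levz (fun x => Real.log (term b χ E ε x)) v x =
      levz (fun x => Real.log (χ (hcap b x))) v x +
        levz (fun x => Real.log (nsq (E x) + ε ^ 2)) v x := by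
    have e1 : (fun x => Real.log (term b χ E ε x)) =ᶠ[𝓝 x]
        fun x => Real.log (χ (hcap b x)) + Real.log (nsq (E x) + ε ^ 2) := by
      filter_upwards [hχ.continuousAt.eventually_ne hχ0.ne'] with y hy
      exact Real.log_mul hy (hH0 y).ne'
    have c1 : ContDiffAt ℝ 2 (fun x => Real.log (χ (hcap b x))) x :=
      (hχ.log hχ0.ne').of_le two_le_infty
    have c2 : ContDiffAt ℝ 2 (fun x => Real.log (nsq (E x) + ε ^ 2)) x :=
      (hH.log (hH0 x).ne').of_le two_le_infty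
    unfold levz
    rw [LC.D_D_congr _ _ e1, LC.D_D_congr _ _ e1, LC.D_D_add _ _ c1 c2, LC.D_D_add _ _ c1 c2]
    ring
  have h2 := h.lev x v hx hc
  have h3 := levz_log_nsq_add_nonneg h.isOpen h.hol hxO v hε
  have h4 := hH0 x
  rw [h1]
  unfold term
  nlinarith [mul_nonneg (mul_nonneg hχ0.le h4.le) h3, mul_le_mul_of_nonneg_right h2 h4.le]

theorem nsq_pos {x : Cn l} (hx : x ≠ 0) : 0 < nsq x :=
  lt_of_le_of_ne (Pool.Agent.KRFX.NC.nsq_nonneg x) fun h =>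
    hx (Pool.Agent.KRFX.NC.nsq_eq_zero.1 h.symm)

theorem fs_levz_nonneg {x : Cn l} (hx : x ≠ 0) (v : Cn l) :
    0 ≤ levz (fun x => Real.log (nsq x)) v x := by
  rw [Pool.Agent.KRFX.NC.levz_log_nsq (nsq_pos hx).ne']
  exact div_nonneg (Pool.Agent.KRFX.NC.fs_nonneg _ _) (sq_nonneg _)

theorem nsq_sub_le (x y : Cn l) : nsq (x - y) ≤ 2 * nsq x + 2 * nsq y := by
  simp only [nsq, dotProduct, Prod.fst_sub, Prod.snd_sub, Pi.sub_apply, Finset.mul_sum, mul_add]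
  have h : ∀ a b : Fin l → ℝ, ∑ i, (a i - b i) * (a i - b i) ≤
      ∑ i, 2 * (a i * a i) + ∑ i, 2 * (b i * b i) := by
    intro a b
    rw [← Finset.sum_add_distrib]
    refine Finset.sum_le_sum fun i _ => ?_
    nlinarith [sq_nonneg (a i + b i)]
  have h1 := h x.1 y.1
  have h2 := h x.2 y.2
  linarith

theorem nsq_smul (t : ℝ) (x : Cn l) : nsq (t • x) = t ^ 2 * nsq x := by
  simp only [nsq, Prod.smul_fst, Prod.smul_snd, smul_dotProduct, dotProduct_smul, smul_eq_mul]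
  ring

theorem cc_smul (t : ℝ) (x : Cn l) : cc (t • x) = (t : ℂ) • cc x := by
  funext k
  apply Complex.ext <;> simp [cc]

/-- homogeneous coordinates of a point of the size of `x` -/
theorem exists_rep {L : ℕ} (P : ℙ ℂ (Fin (L + 1) → ℂ)) {x : Cn (L + 1)} (hx : x ≠ 0) :
    ∃ (x' : Cn (L + 1)) (h : cc x' ≠ 0), P = Projectivization.mk ℂ (cc x') h ∧
      nsq (x - x') / nsq x ≤ 4 := by
  set y : Cn (L + 1) := (fun k => (P.rep k).re, fun k => (P.rep k).im) with hy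
  have hyc : cc y = P.rep := by
    funext k
    apply Complex.ext <;> simp [cc, hy]
  have hy0 : y ≠ 0 := by
    intro h
    refine P.rep_nonzero ?_
    rw [← hyc, h]
    funext k
    apply Complex.ext <;> simp [cc]
  have hny := nsq_pos hy0
  have hnx := nsq_pos hx
  set t : ℝ := Real.sqrt (nsq x / nsq y) with ht
  have ht0 : 0 < t := Real.sqrt_pos.2 (div_pos hnx hny)
  have ht2 : t ^ 2 = nsq x / nsq y := Real.sq_sqrt (div_pos hnx hny).le
  have hc : cc (t • y) ≠ 0 := by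
    rw [cc_smul, hyc]
    exact smul_ne_zero (by exact_mod_cast ht0.ne') P.rep_nonzero
  refine ⟨t • y, hc, ?_, ?_⟩
  · rw [← P.mk_rep]
    rw [Projectivization.mk_eq_mk_iff']
    refine ⟨(t : ℂ)⁻¹, ?_⟩
    rw [cc_smul, hyc, smul_smul, inv_mul_cancel₀ (by exact_mod_cast ht0.ne'), one_smul]
  · rw [div_le_iff₀ hnx]
    refine (nsq_sub_le _ _).trans ?_
    rw [nsq_smul, ht2, div_mul_cancel₀ _ hny.ne']
    linarith

end Wt

section

variable {M Z : Type} [MetricSpace M] [MetricSpace Z] {f : M → Z} {S : Set Z} {L r : ℕ}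
  {ι : M → ℙ ℂ (Fin (L + 1) → ℂ)}

open Wt

/-- `W = ∑ χ_i (hcap (b i) x) (|E_i w x|^2 + ε^2)`, from the cover and from the estimate away from
the cone -/
theorem exists_weight_of [Nonempty M] {z₀ : Z}
    (hcover : ∃ (S' : Set Z) (C : ℝ) (m : ℕ) (b : Fin m → Cn (L + 1)) (η : Fin m → ℝ)
      (O : Fin m → Set (Cn (L + 1))) (E : Fin m → Z → Cn (L + 1) → Cn r),
      IsOpen S' ∧ z₀ ∈ S' ∧ S' ⊆ S ∧ 0 < C ∧
      (∀ i, b i ≠ 0 ∧ 0 < η i ∧ η i ≤ 1 ∧ IsEq f ι (O i) S' (E i) C ∧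
        ∀ x, x ≠ 0 → 1 - η i < hcap (b i) x → x ∈ O i) ∧
      ∀ x, x ≠ 0 → ∃ i, 1 - η i / 4 < hcap (b i) x)
    (haway : ∀ w ∈ S, ∀ x : Cn (L + 1), x ≠ 0 → x ∉ fcone f ι w →
      ∃ c > 0, ∀ᶠ x₁ in 𝓝 x, ∀ (p : M) (x' : Cn (L + 1)) (h : cc x' ≠ 0),
        ι p = Projectivization.mk ℂ (cc x') h → c ≤ nsq (x₁ - x') + dist (f p) w ^ 2) :
    ∃ (S' : Set Z) (C : ℝ), IsOpen S' ∧ z₀ ∈ S' ∧
      S' ⊆ S ∧ 0 < C ∧ ∀ w ∈ S', ∃ W, IsWeight (fcone f ι w) W C := by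
  classical
  obtain ⟨S₁, C₀, m, b, η, O, E, hS₁o, hz₁, hS₁S, hC₀, hi, hcov⟩ := hcover
  have hcap' := fun i => exists_cap (L + 1) (hi i).2.1 (hi i).2.2.1
  choose χ Cc hχ hCc hχb hχ0 hχ1 hχl using hcap'
  have hT : ∀ w ∈ S₁, ∀ i, IsTerm (b i) (η i) (χ i) (Cc i) (O i) (E i w) := fun w hw i =>
    { b_ne := (hi i).1
      η_pos := (hi i).2.1
      smooth := hχ i
      C_pos := hCc i
      bound := hχb i
      zero := hχ0 i
      big := hχ1 i
      lev := fun x v hx hc => hχl i (b i) x v (hi i).1 hx hc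
      isOpen := (hi i).2.2.2.1.isOpen
      mem := (hi i).2.2.2.2
      hol := (hi i).2.2.2.1.hol w hw }
  have hsub : ∀ x : Cn (L + 1), x ≠ 0 → ∀ i, 1 - η i / 2 < hcap (b i) x → x ∈ O i :=
    fun x hx i h => (hi i).2.2.2.2 x hx (by linarith [(hi i).2.1])
  set p₀ : M := Classical.arbitrary M
  set K : ℝ := C₀ * (4 + (dist (f p₀) z₀ + 1) ^ 2) with hK
  have hK0 : 0 ≤ K := by positivity
  set Cm : ℝ := ∑ i, Cc i with hCm
  have hCm0 : 0 ≤ Cm := Finset.sum_nonneg fun i _ => (hCc i).le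
  have hCmi : ∀ i, Cc i ≤ Cm := fun i =>
    Finset.single_le_sum (f := Cc) (fun i _ => (hCc i).le) (Finset.mem_univ i)
  -- the bound of the equations
  have hEb : ∀ w ∈ S₁ ∩ Metric.ball z₀ 1, ∀ i, ∀ x ∈ O i, nsq (E i w x) ≤ K := by
    intro w hw i x hx
    have hx0 := (hi i).2.2.2.1.ne x hx
    obtain ⟨x', hx', hP, h4⟩ := exists_rep (ι p₀) hx0
    refine ((hi i).2.2.2.1.upper w hw.1 x hx p₀ x' hx' hP).trans ?_
    rw [hK]
    have h5 : dist (f p₀) w ≤ dist (f p₀) z₀ + 1 := by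
      have h6 := dist_triangle (f p₀) z₀ w
      have h7 : dist z₀ w < 1 := by
        rw [dist_comm]
        exact hw.2
      linarith
    gcongr
  -- comparison
  have hcmp : ∀ w ∈ S₁, ∀ x : Cn (L + 1), x ≠ 0 → ∀ i, x ∈ O i → ∀ ε : ℝ, 0 < ε →
      nsq (E i w x) + ε ^ 2 ≤ (C₀ ^ 2 + 1) * Cm *
        ∑ k, term (b k) (χ k) (E k w) ε x := by
    intro w hw x hx i hxi ε hε
    obtain ⟨k, hk⟩ := hcov x hx
    have hxk : x ∈ O k := hsub x hx k (by linarith [(hi k).2.1])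
    obtain ⟨p, x', hx', hP, h1⟩ := (hi k).2.2.2.1.lower w hw x hxk
    have h2 := (hi i).2.2.2.1.upper w hw x hxi p x' hx' hP
    have h3 : nsq (E i w x) ≤ C₀ ^ 2 * nsq (E k w x) := by
      refine h2.trans ?_
      calc C₀ * (nsq (x - x') / nsq x + dist (f p) w ^ 2) ≤ C₀ * (C₀ * nsq (E k w x)) := by
            gcongr
        _ = _ := by ring
    have hEk := Pool.Agent.KRFX.NC.nsq_nonneg (E k w x)
    have h4 : nsq (E i w x) + ε ^ 2 ≤ (C₀ ^ 2 + 1) * (nsq (E k w x) + ε ^ 2) := by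
      nlinarith [sq_nonneg ε, sq_nonneg C₀, mul_nonneg (sq_nonneg C₀) (sq_nonneg ε)]
    have h5 : nsq (E k w x) + ε ^ 2 ≤ Cc k * term (b k) (χ k) (E k w) ε x := by
      unfold term
      have h6 := hχ1 k _ hk.le
      have h7 : 0 ≤ nsq (E k w x) + ε ^ 2 := by positivity
      have h8 : 1 ≤ Cc k * χ k (hcap (b k) x) := by
        have := mul_le_mul_of_nonneg_left h6 (hCc k).le
        rwa [mul_inv_cancel₀ (hCc k).ne'] at this
      nlinarith
    have h9 : term (b k) (χ k) (E k w) ε x ≤ ∑ k, term (b k) (χ k) (E k w) ε x :=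
      Finset.single_le_sum (f := fun k => term (b k) (χ k) (E k w) ε x)
        (fun k _ => term_nonneg (hT w hw k) ε x) (Finset.mem_univ k)
    have h10 : 0 ≤ term (b k) (χ k) (E k w) ε x := term_nonneg (hT w hw k) ε x
    calc nsq (E i w x) + ε ^ 2 ≤ (C₀ ^ 2 + 1) * (nsq (E k w x) + ε ^ 2) := h4
      _ ≤ (C₀ ^ 2 + 1) * (Cc k * term (b k) (χ k) (E k w) ε x) := by gcongr
      _ ≤ (C₀ ^ 2 + 1) * (Cm * ∑ k, term (b k) (χ k) (E k w) ε x) := by
          gcongr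
          exact hCmi k
      _ = _ := by ring
  have hWpos : ∀ w ∈ S₁, ∀ x : Cn (L + 1), x ≠ 0 → ∀ ε : ℝ, 0 < ε →
      ∃ i, 0 < term (b i) (χ i) (E i w) ε x := by
    intro w hw x hx ε hε
    obtain ⟨k, hk⟩ := hcov x hx
    exact ⟨k, (pos_iff (hT w hw k) hε x).2 (by linarith [(hi k).2.1])⟩
  set C : ℝ := m * (K + 1) + (C₀ ^ 2 + 1) * Cm ^ 2 + 1 with hC
  have hC0 : 0 < C := by positivity
  refine ⟨S₁ ∩ Metric.ball z₀ 1, C, hS₁o.inter Metric.isOpen_ball,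
    ⟨hz₁, Metric.mem_ball_self one_pos⟩, inter_subset_left.trans hS₁S, hC0, fun w hw => ?_⟩
  have hup : ∀ ε ∈ Ioc (0 : ℝ) 1, ∀ x : Cn (L + 1), x ≠ 0 →
      ∑ i, term (b i) (χ i) (E i w) ε x ≤ C := by
    intro ε hε x hx
    have h1 : ∀ i ∈ (Finset.univ : Finset (Fin m)), term (b i) (χ i) (E i w) ε x ≤ K + 1 := by
      intro i _
      by_cases hc : 1 - η i / 2 < hcap (b i) x
      · have h2 := hEb w hw i x (hsub x hx i hc)
        have h3 := hχb i (hcap (b i) x)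
        have h4 : ε ^ 2 ≤ 1 := pow_le_one₀ hε.1.le hε.2
        have h5 := Pool.Agent.KRFX.NC.nsq_nonneg (E i w x)
        unfold term
        nlinarith [sq_nonneg ε]
      · unfold term
        rw [(hχ0 i _).2 (not_lt.1 hc), zero_mul]
        positivity
    have h2 := Finset.sum_le_card_nsmul _ _ _ h1
    rw [Finset.card_univ, Fintype.card_fin, nsmul_eq_mul] at h2
    refine h2.trans ?_
    rw [hC]
    have : 0 ≤ (C₀ ^ 2 + 1) * Cm ^ 2 := by positivity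
    linarith
  refine ⟨fun ε x => ∑ i, term (b i) (χ i) (E i w) ε x, ?_, ?_, ?_, ?_, ?_⟩
  · intro ε hε x hx
    exact (ContDiffAt.sum fun i _ => contDiffAt_term (hT w hw.1 i) ε hx).contDiffWithinAt
  · intro ε hε x hx
    refine ⟨?_, hup ε hε x hx⟩
    obtain ⟨k, hk⟩ := hWpos w hw.1 x hx ε hε.1
    exact Finset.sum_pos' (fun i _ => term_nonneg (hT w hw.1 i) ε x) ⟨k, Finset.mem_univ k, hk⟩
  · intro ε hε x hx v
    set FS := levz (fun x => Real.log (nsq x)) v x with hFS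
    have hFS0 : 0 ≤ FS := fs_levz_nonneg hx v
    have hH0 : ∀ i, 0 ≤ nsq (E i w x) + ε ^ 2 := fun i => by
      have := Pool.Agent.KRFX.NC.nsq_nonneg (E i w x)
      positivity
    have h1 := levz_log_sum (F := fun i => term (b i) (χ i) (E i w) ε) (x := x) (v := v)
      (a := fun i => if 0 < term (b i) (χ i) (E i w) ε x then
        Cc i * FS * (nsq (E i w x) + ε ^ 2) else 0)
      (fun i => (contDiffAt_term (hT w hw.1 i) ε hx).of_le two_le_infty)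
      (fun i => Eventually.of_forall fun x' => term_nonneg (hT w hw.1 i) ε x')
      (hWpos w hw.1 x hx ε hε.1)
      (fun i => by
        split_ifs
        · exact mul_nonneg (mul_nonneg (hCc i).le hFS0) (hH0 i)
        · exact le_rfl)
      (fun i hpos => by
        rw [if_pos hpos]
        exact lev_term (hT w hw.1 i) hε.1 hx ((pos_iff (hT w hw.1 i) hε.1 x).1 hpos) v)
    set Wx := ∑ i, term (b i) (χ i) (E i w) ε x with hWx
    have hWx0 : 0 < Wx := by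
      obtain ⟨k, hk⟩ := hWpos w hw.1 x hx ε hε.1
      exact Finset.sum_pos' (fun i _ => term_nonneg (hT w hw.1 i) ε x) ⟨k, Finset.mem_univ k, hk⟩
    have h2 : (∑ i, if 0 < term (b i) (χ i) (E i w) ε x then
        Cc i * FS * (nsq (E i w x) + ε ^ 2) else 0) ≤
        ∑ i, Cc i * (FS * ((C₀ ^ 2 + 1) * Cm * Wx)) := by
      refine Finset.sum_le_sum fun i _ => ?_
      split_ifs with hpos
      · have h3 := hcmp w hw.1 x hx i
          (hsub x hx i ((pos_iff (hT w hw.1 i) hε.1 x).1 hpos)) ε hε.1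
        rw [mul_assoc]
        have := (hCc i).le
        gcongr
      · have := (hCc i).le
        positivity
    rw [← Finset.sum_mul, ← hCm] at h2
    have h3 : -(C * FS) * Wx ≤ Wx * levz (fun x => Real.log (∑ i, term (b i) (χ i) (E i w) ε x))
        v x := by
      have h4 : (C₀ ^ 2 + 1) * Cm ^ 2 ≤ C := by
        rw [hC]
        have : 0 ≤ (m : ℝ) * (K + 1) := by positivity
        linarith
      have h5 : (C₀ ^ 2 + 1) * Cm ^ 2 * (FS * Wx) ≤ C * (FS * Wx) :=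
        mul_le_mul_of_nonneg_right h4 (by positivity)
      linarith
    rw [neg_mul]
    have h4 : Wx * (-(C * FS)) ≤
        Wx * levz (fun x => Real.log (∑ i, term (b i) (χ i) (E i w) ε x)) v x := by
      linarith
    exact le_of_mul_le_mul_left h4 hWx0
  · rintro x₁ ⟨p, hx₁, hp, hP⟩
    have hx₁0 : x₁ ≠ 0 := by
      rintro rfl
      refine hx₁ ?_
      funext k
      apply Complex.ext <;> simp [cc]
    have hn₁ := nsq_pos hx₁0
    refine ⟨m * (4 * C₀ / nsq x₁ + 1) + C * (4 / nsq x₁), fun ε hε x hx hxx => ?_⟩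
    have hA0 : 0 ≤ (m : ℝ) * (4 * C₀ / nsq x₁ + 1) := by positivity
    have hB0 : 0 ≤ C * (4 / nsq x₁) := by positivity
    by_cases hc : nsq x₁ / 4 ≤ nsq x
    · have h1 : ∀ i ∈ (Finset.univ : Finset (Fin m)), term (b i) (χ i) (E i w) ε x ≤
          (4 * C₀ / nsq x₁ + 1) * ε ^ 2 := by
        intro i _
        by_cases hci : 1 - η i / 2 < hcap (b i) x
        · have h2 := (hi i).2.2.2.1.upper w hw.1 x (hsub x hx i hci) p x₁ hx₁ hP
          rw [hp, dist_self, zero_pow two_ne_zero, add_zero] at h2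
          have h3 : nsq (x - x₁) / nsq x ≤ 4 * ε ^ 2 / nsq x₁ := by
            have hnx := nsq_pos hx
            rw [div_le_div_iff₀ hnx hn₁]
            nlinarith [sq_nonneg ε, mul_le_mul hxx hc (by positivity) (sq_nonneg ε)]
          have h4 : nsq (E i w x) ≤ C₀ * (4 * ε ^ 2 / nsq x₁) := by
            refine h2.trans ?_
            gcongr
          have h5 := hχb i (hcap (b i) x)
          have h6 := Pool.Agent.KRFX.NC.nsq_nonneg (E i w x)
          have h7 : term (b i) (χ i) (E i w) ε x ≤ nsq (E i w x) + ε ^ 2 := by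
            unfold term
            nlinarith [sq_nonneg ε]
          refine h7.trans ?_
          calc nsq (E i w x) + ε ^ 2 ≤ C₀ * (4 * ε ^ 2 / nsq x₁) + ε ^ 2 := by linarith
            _ = (4 * C₀ / nsq x₁ + 1) * ε ^ 2 := by ring
        · unfold term
          rw [(hχ0 i _).2 (not_lt.1 hci), zero_mul]
          positivity
      have h2 := Finset.sum_le_card_nsmul _ _ _ h1
      rw [Finset.card_univ, Fintype.card_fin, nsmul_eq_mul] at h2
      refine h2.trans ?_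
      nlinarith [sq_nonneg ε, mul_nonneg hB0 (sq_nonneg ε)]
    · have h1 : nsq x₁ / 4 ≤ ε ^ 2 := by
        have h2 := nsq_sub_le x (x - x₁)
        rw [sub_sub_cancel] at h2
        linarith [not_le.1 hc]
      have h2 := hup ε hε x hx
      have h3 : C ≤ C * (4 / nsq x₁) * ε ^ 2 := by
        have h4 : 1 ≤ 4 / nsq x₁ * ε ^ 2 := by
          rw [div_mul_eq_mul_div, le_div_iff₀ hn₁]
          linarith
        nlinarith
      nlinarith [mul_nonneg hA0 (sq_nonneg ε)]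
  · intro x hx hxΓ
    obtain ⟨c₁, hc₁, hev⟩ := haway w (hS₁S hw.1) x hx hxΓ
    have hCm1 : 0 < Cm := by
      obtain ⟨k, -⟩ := hcov x hx
      exact (hCc k).trans_le (hCmi k)
    have hnx := nsq_pos hx
    refine ⟨c₁ / (C₀ * (nsq x + 2)) / Cm, by positivity, ?_⟩
    have hcx : ∀ᶠ x' in 𝓝 x, nsq x' < nsq x + 1 :=
      (Pool.Agent.KRFX.NC.contDiff_nsq.continuous.continuousAt).eventually_lt
        continuousAt_const (by linarith)
    filter_upwards [hev, hcx, isOpen_ne.mem_nhds hx] with x' h1 h2 hx'0 ε hε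
    obtain ⟨k, hk⟩ := hcov x' hx'0
    have hxk : x' ∈ O k := hsub x' hx'0 k (by linarith [(hi k).2.1])
    obtain ⟨p, y, hy, hP, h3⟩ := (hi k).2.2.2.1.lower w hw.1 x' hxk
    have h4 := h1 p y hy hP
    have hnx' := nsq_pos hx'0
    have hEk := Pool.Agent.KRFX.NC.nsq_nonneg (E k w x')
    have hd : 0 ≤ nsq (x' - y) := Pool.Agent.KRFX.NC.nsq_nonneg _
    have h5 : c₁ ≤ C₀ * (nsq x + 2) * nsq (E k w x') := by
      have h6 : nsq (x' - y) + dist (f p) w ^ 2 ≤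
          (nsq x + 2) * (nsq (x' - y) / nsq x' + dist (f p) w ^ 2) := by
        have h7 : nsq (x' - y) ≤ (nsq x + 2) * (nsq (x' - y) / nsq x') := by
          rw [mul_div_assoc', le_div_iff₀ hnx']
          nlinarith
        nlinarith [sq_nonneg (dist (f p) w)]
      calc c₁ ≤ nsq (x' - y) + dist (f p) w ^ 2 := h4
        _ ≤ (nsq x + 2) * (nsq (x' - y) / nsq x' + dist (f p) w ^ 2) := h6
        _ ≤ (nsq x + 2) * (C₀ * nsq (E k w x')) := by gcongr
        _ = _ := by ring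
    have h6 : c₁ / (C₀ * (nsq x + 2)) ≤ nsq (E k w x') := by
      rw [div_le_iff₀ (by positivity)]
      linarith
    have h7 : nsq (E k w x') / Cm ≤ term (b k) (χ k) (E k w) ε x' := by
      unfold term
      have h8 := hχ1 k _ hk.le
      have h9 : Cm⁻¹ ≤ χ k (hcap (b k) x') :=
        (inv_anti₀ (hCc k) (hCmi k)).trans h8
      rw [div_eq_inv_mul]
      have h10 : 0 ≤ Cm⁻¹ := by positivity
      have h11 : nsq (E k w x') ≤ nsq (E k w x') + ε ^ 2 := by nlinarith [sq_nonneg ε]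
      exact mul_le_mul h9 h11 hEk (h10.trans h9)
    calc c₁ / (C₀ * (nsq x + 2)) / Cm ≤ nsq (E k w x') / Cm := by gcongr
      _ ≤ term (b k) (χ k) (E k w) ε x' := h7
      _ ≤ _ := Finset.single_le_sum (f := fun k => term (b k) (χ k) (E k w) ε x')
        (fun k _ => term_nonneg (hT w hw.1 k) ε x') (Finset.mem_univ k)

end

section

variable {M Z : Type} [MetricSpace M] [CompactSpace M] [MetricSpace Z] {n N : ℕ} {κ P : Type}
  {e : κ → OpenPartialHomeomorph M (Cn n)} {U : P → Set Z} {q : P → Z → Cn N} {f : M → Z}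
  {ψ : κ → ℝ × Cn n → ℝ} {S : Set Z} {L : ℕ} {ι : M → ℙ ℂ (Fin (L + 1) → ℂ)}

/-- `W = ∑ χ_i (hcap (b i) x) (|E_i w x|^2 + ε^2)` -/
theorem exists_weight [Nonempty M] (G : GeoData e U q f ψ) (hι : IsEmbOver e U q f S ι)
    (hS : IsOpen S) {z₀ : Z} (hz₀ : z₀ ∈ S) : ∃ (S' : Set Z) (C : ℝ), IsOpen S' ∧ z₀ ∈ S' ∧
      S' ⊆ S ∧ 0 < C ∧ ∀ w ∈ S', ∃ W, IsWeight (fcone f ι w) W C :=
  exists_weight_of (exists_cover fun _ hx₁ => exists_eq G hι hS hz₀ hx₁)
    fun _ hw _ hx hxw => fcone_away G hι hS hw hx hxw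

end

end Pool.Agent.KRFCh

end
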