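import Pool.Agent.Work.MP_a2bf38_gt.Fu.W.EmbDefs
import Pool.Agent.Work.MP_a2bf38_gt.Fu.Q.Rep
import Pool.Agent.Work.MP_a2bf38_gt.Fu.Z.Pole
import Pool.Agent.Work.MP_a2bf38_gt.Fu.I.GapA
import Pool.Agent.Work.MP_a2bf38_gt.Fu.I.Ray
import Mathlib
import Pool.Agent.Work.MP_a2bf38_gt.Fu.L.Defs
import Pool.Agent.Work.MP_a2bf38_gt.Fu.Ch.Homog

section

/-!
# Theorem G on `ℂ^L`
-/

open scoped ContDiff Topology
open Set MeasureTheory Pool.Agent.ToricKRF Pool.Agent.ToricKRF.G Pool.Agent.KRFS Pool.Agent.KRFF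
  Pool.Agent.KRFQ Pool.Agent.KRFZ

namespace Pool.Agent.KRFCh

namespace HC

variable {L : ℕ}

/-- the identity chart of `ℂ^L` -/
noncomputable def idc (L : ℕ) : Unit → OpenPartialHomeomorph (Cn L) (Cn L) :=
  fun _ => OpenPartialHomeomorph.refl _

theorem tr_idc (c c' : Unit) : tr (idc L) c c' = id := rfl

theorem dom_idc (c c' : Unit) : dom (idc L) c c' = univ := by
  ext z
  simp [dom, idc]

theorem fderiv_id_apply (z u : Cn L) : fderiv ℝ (id : Cn L → Cn L) z u = u := by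
  rw [fderiv_id]
  rfl

theorem holOn_id : HolOn (id : Cn L → Cn L) univ :=
  ⟨contDiff_id.contDiffOn, fun z _ u => by rw [fderiv_id_apply, fderiv_id_apply]⟩

theorem l2d {ρ : Cn L → ℝ} (hρ : ContDiff ℝ ∞ ρ) :
    L2D (idc L) univ (fun _ z => Real.exp (-ρ z)) (fun _ => nsq) where
  sub _ := subset_univ _
  cover p _ := ⟨(), mem_univ p⟩
  holo c c' := by
    rw [tr_idc, dom_idc]
    exact holOn_id
  w_smooth _ := (Real.contDiff_exp.comp hρ.neg).contDiffOn
  w_pos _ z _ := Real.exp_pos _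
  w_compat c c' z _ := by
    rw [tr_idc, fderiv_id]
    have h1 : (ContinuousLinearMap.id ℝ (Cn L)).det = 1 := by
      change LinearMap.det (ContinuousLinearMap.id ℝ (Cn L) : Cn L →ₗ[ℝ] Cn L) = 1
      exact LinearMap.det_id
    rw [h1]
    simp
  w_lev c c' z _ u := by
    rw [tr_idc, fderiv_id_apply]
    rfl
  g_smooth _ := Gap.contDiff_nsq'.contDiffOn
  g_pos _ z _ u hu := by
    rw [Gap.levz_nsq']
    exact Gap.nsq_pos hu
  g_compat c c' z _ u := by
    rw [tr_idc, fderiv_id_apply]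
    rfl

/-- the measure `exp (-ρ)` -/
noncomputable def mu (ρ : Cn L → ℝ) : Measure (Cn L) :=
  volume.withDensity fun z => ENNReal.ofReal (Real.exp (-ρ z))

theorem isDens (ρ : Cn L → ℝ) : IsDens (idc L) (fun _ z => Real.exp (-ρ z)) (mu ρ) where
  eq c := by
    simp [idc, mu]

/-- the exhaustion function -/
noncomputable def ex (z : Cn L) : ℝ := √(1 + nsq z)

theorem one_add_pos (z : Cn L) : 0 < 1 + nsq z := by
  have := Gap.nsq_nonneg z
  linarith

theorem contDiff_ex : ContDiff ℝ ∞ (ex (L := L)) := by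
  have h1 : ContDiff ℝ ∞ fun z : Cn L => 1 + nsq z := contDiff_const.add Gap.contDiff_nsq'
  exact h1.sqrt fun z => (one_add_pos z).ne'

theorem D_ex (u z : Cn L) : D u ex z = ABP.ip z u / √(1 + nsq z) := by
  have h1 : HasFDerivAt (fun z : Cn L => 1 + nsq z) (fderiv ℝ nsq z) z :=
    ((Gap.contDiff_nsq'.differentiable (by simp) z).hasFDerivAt).const_add 1
  have h2 := (h1.sqrt (one_add_pos z).ne').fderiv
  unfold D ex
  rw [h2]
  have h3 := Pool.Agent.KRFX.NC.D_nsq z u
  unfold D at h3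
  simp only [smul_apply, smul_eq_mul, h3]
  have h4 : 0 < √(1 + nsq z) := Real.sqrt_pos.2 (one_add_pos z)
  field_simp

theorem D_ex_sq (u z : Cn L) : (D u ex z) ^ 2 ≤ nsq u := by
  rw [D_ex, div_pow, Real.sq_sqrt (one_add_pos z).le, div_le_iff₀ (one_add_pos z)]
  have h1 := ABP.ip_sq_le z u
  have h2 := Gap.nsq_nonneg u
  nlinarith

theorem isCompact_nsq_le (R : ℝ) : IsCompact {z : Cn L | nsq z ≤ R} := by
  refine Metric.isCompact_of_isClosed_isBounded (isClosed_le Gap.contDiff_nsq'.continuous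
    continuous_const) ((Metric.isBounded_closedBall (x := 0) (r := √|R|)).subset fun z hz => ?_)
  rw [mem_closedBall_zero_iff]
  exact (norm_le_sqrt_nsq z).trans (Real.sqrt_le_sqrt (le_trans hz (le_abs_self R)))

theorem isExh : IsExh (idc L) univ (fun _ => nsq) (ex (L := L)) where
  smooth _ := contDiff_ex.contDiffOn
  cpt R := by
    refine (isCompact_nsq_le (R ^ 2)).of_isClosed_subset ?_ ?_
    · simp only [mem_univ, true_and]
      exact isClosed_le contDiff_ex.continuous continuous_const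
    · rintro z ⟨-, hz⟩
      change nsq z ≤ R ^ 2
      have h1 : 0 ≤ ex z := Real.sqrt_nonneg _
      have h2 : ex z ^ 2 = 1 + nsq z := Real.sq_sqrt (one_add_pos z).le
      nlinarith
  grad c z _ u := by
    change ((D u ex z) ^ 2 + (D (J u) ex z) ^ 2) / 4 ≤ levz nsq u z
    rw [Gap.levz_nsq']
    have h1 := D_ex_sq u z
    have h2 := D_ex_sq (J u) z
    rw [Gap.nsq_J] at h2
    have h3 := Gap.nsq_nonneg u
    linarith

end HC

open HC in
/-- **Theorem G on `ℂ^L`**, for a semipositive form `k`. -/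
theorem HC.horm_form {L : ℕ} {ρ k : Cn L → ℝ} (hρ : ContDiff ℝ ∞ ρ)
    (hk : ∀ z u, 0 ≤ levz k u z) (hcurv : ∀ z u, levz k u z ≤ levz ρ u z)
    {χ : Cn L → ℂ} (hχ : ContDiff ℝ ∞ χ) (hcs : HasCompactSupport χ) {B : Cn L → ℝ}
    (hB0 : ∀ z, 0 ≤ B z) (hBi : Integrable fun z => B z * Real.exp (-ρ z))
    (hB : ∀ z u, ‖∑ j, dzb j χ z * (starRingEnd ℂ) (cc u j)‖ ^ 2 ≤ B z * levz k u z) :
    ∃ b : Cn L → ℂ, ContDiff ℝ ∞ b ∧ (∀ j z, dzb j b z = 0) ∧
      Integrable (fun z => ‖b z‖ ^ 2 * Real.exp (-ρ z)) ∧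
      Integrable (fun z => ‖χ z - b z‖ ^ 2 * Real.exp (-ρ z)) ∧
      ∫ z, ‖χ z - b z‖ ^ 2 * Real.exp (-ρ z) ≤ ∫ z, B z * Real.exp (-ρ z) := by
  have hd : ∀ z, (ENNReal.ofReal (Real.exp (-ρ z))).toReal = Real.exp (-ρ z) := fun z =>
    ENNReal.toReal_ofReal (Real.exp_pos _).le
  have hm : Measurable fun z => ENNReal.ofReal (Real.exp (-ρ z)) :=
    (Real.measurable_exp.comp hρ.continuous.measurable.neg).ennreal_ofReal
  have hI : ∀ F : Cn L → ℝ, ∫ z, F z ∂(mu ρ) = ∫ z, F z * Real.exp (-ρ z) := by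
    intro F
    rw [mu, integral_withDensity_eq_integral_toReal_smul hm (by simp)]
    refine integral_congr_ae (Filter.Eventually.of_forall fun z => ?_)
    simp only [hd, smul_eq_mul]
    ring
  have hJ : ∀ F : Cn L → ℝ, Integrable F (mu ρ) ↔ Integrable fun z => F z * Real.exp (-ρ z) := by
    intro F
    rw [mu, integrable_withDensity_iff hm (by simp)]
    simp only [hd]
  have h2 : MemLp χ 2 (mu ρ) := by
    have : IsLocallyFiniteMeasure (mu ρ) := by
      refine IsLocallyFiniteMeasure.withDensity_ofReal ?_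
      exact Real.continuous_exp.comp hρ.continuous.neg
    exact hχ.continuous.memLp_of_hasCompactSupport hcs
  obtain ⟨b, hb, hb2, hle⟩ := (isDens ρ).hormander (l2d hρ) (ψ := ex) isExh (fun _ => ()) (by
    intro z _
    simp [idc]) (by simp) (k := fun _ => k) (c₀ := 1) one_pos (fun _ z _ u => hk z u)
    (fun _ z _ u => by simpa using hcurv z u) (χ := χ) (fun _ => hχ.contDiffOn) h2
    (B := B) hB0 ((hJ B).2 hBi) (fun _ z _ u => hB z u)
  have hcd : ContDiff ℝ ∞ b := by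
    have := (hb ()).1
    rwa [idc, OpenPartialHomeomorph.refl_target, contDiffOn_univ] at this
  refine ⟨b, hcd, fun j z => (hb ()).2 j z (mem_univ _), ?_, ?_, ?_⟩
  · rw [← hJ fun z => ‖b z‖ ^ 2]
    exact hb2.integrable_norm_pow (by norm_num)
  · rw [← hJ fun z => ‖χ z - b z‖ ^ 2]
    exact (h2.sub hb2).integrable_norm_pow (by norm_num)
  · rw [← hI fun z => ‖χ z - b z‖ ^ 2, ← hI]
    simpa using hle

theorem HC.levz_log_one_add_nonneg {L : ℕ} (t v : Cn L) :
    0 ≤ levz (fun t => Real.log (1 + nsq t)) v t := by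
  have h1 := Pool.Agent.KRFZ.HM.levz_logpole (0 : Cn L) one_ne_zero t v
  have h2 : (fun y : Cn L => Real.log (nsq (y - 0) + 1 ^ 2)) =
      fun t => Real.log (1 + nsq t) := by
    funext t
    rw [sub_zero, one_pow, add_comm]
  rwa [h2] at h1

/-- **Theorem G on `ℂ^L`.** -/
theorem horm_CL {L : ℕ} {ρ : Cn L → ℝ} (hρ : ContDiff ℝ ∞ ρ)
    (hlev : ∀ t v, levz (fun t => Real.log (1 + nsq t)) v t ≤ levz ρ v t) {u : Cn L → ℂ}
    (hu : ContDiff ℝ ∞ u) (hc : HasCompactSupport u) {B : Cn L → ℝ} (hB : Continuous B)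
    (hB0 : ∀ t, 0 ≤ B t) (hBc : HasCompactSupport B)
    (hBu : ∀ t v, ‖dbv u v t‖ ^ 2 ≤ B t * levz (fun t => Real.log (1 + nsq t)) v t) :
    ∃ b : Cn L → ℂ, NF.HolC b univ ∧
      ∫⁻ t, ENNReal.ofReal (‖u t - b t‖ ^ 2 * Real.exp (-ρ t)) ≤
        ∫⁻ t, ENNReal.ofReal (B t * Real.exp (-ρ t)) := by
  have hBi : Integrable fun z => B z * Real.exp (-ρ z) :=
    (hB.mul (Real.continuous_exp.comp hρ.continuous.neg)).integrable_of_hasCompactSupport
      hBc.mul_right
  obtain ⟨b, hb, hbz, -, hi, hle⟩ := HC.horm_form hρ HC.levz_log_one_add_nonneg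
    (fun z u => hlev z u) hu hc hB0 hBi (fun z v => by
      rw [← dbar_apply]
      exact hBu z v)
  refine ⟨b, ⟨hb.contDiffOn, fun z _ v => fderiv_J_of_dzb (fun k => hbz k z) v⟩, ?_⟩
  rw [← ofReal_integral_eq_lintegral_ofReal hi (Filter.Eventually.of_forall fun x => by positivity),
    ← ofReal_integral_eq_lintegral_ofReal hBi (Filter.Eventually.of_forall fun x =>
      mul_nonneg (hB0 x) (Real.exp_pos _).le)]
  exact ENNReal.ofReal_le_ofReal hle

end Pool.Agent.KRFCh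

end

section

/-!
# Functions of polynomial growth which are entire on every line are polynomials
-/

open MvPolynomial Finset

namespace Pool.Agent.KRFCh

/-! ## one variable -/

/-- an entire function of one variable of polynomial growth is a polynomial -/
theorem poly_one {f : ℂ → ℂ} (hf : Differentiable ℂ f) {A : ℕ} {K : ℝ}
    (hK : ∀ z, ‖f z‖ ≤ K * (1 + ‖z‖) ^ A) :
    ∃ q : Polynomial ℂ, q.natDegree ≤ A ∧ ∀ z, f z = q.eval z := by
  have hK0 : 0 ≤ K := by
    have := hK 0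
    simp only [norm_zero, add_zero, one_pow, mul_one] at this
    exact (norm_nonneg _).trans this
  have hzero : ∀ n : ℕ, A < n → iteratedDeriv n f 0 = 0 := by
    intro n hn
    have hb : ∀ R : ℝ, 1 ≤ R → ‖iteratedDeriv n f 0‖ ≤ (n.factorial * (K * 2 ^ A)) / R := by
      intro R hR
      have hR0 : 0 < R := by linarith
      have h1 := Complex.norm_iteratedDeriv_le_of_forall_mem_sphere_norm_le (c := 0) (R := R)
        (C := K * (1 + R) ^ A) n hR0 hf.diffContOnCl (by
          intro z hz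
          have hz' : ‖z‖ = R := by simpa using hz
          have := hK z
          rwa [hz'] at this)
      refine h1.trans ?_
      rw [div_le_div_iff₀ (by positivity) hR0]
      have h2 : (1 + R) ^ A ≤ 2 ^ A * R ^ A := by
        rw [← mul_pow]
        exact pow_le_pow_left₀ (by linarith) (by linarith) A
      have h3 : R ^ A * R ≤ R ^ n := by
        rw [← pow_succ]
        exact pow_le_pow_right₀ hR hn
      have hf0 : (0 : ℝ) ≤ n.factorial := Nat.cast_nonneg _
      calc (n.factorial : ℝ) * (K * (1 + R) ^ A) * R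
          ≤ (n.factorial : ℝ) * (K * (2 ^ A * R ^ A)) * R := by gcongr
        _ = (n.factorial : ℝ) * (K * 2 ^ A) * (R ^ A * R) := by ring
        _ ≤ (n.factorial : ℝ) * (K * 2 ^ A) * R ^ n := by
            apply mul_le_mul_of_nonneg_left h3
            positivity
    have hlim : Filter.Tendsto (fun R : ℝ => ((n.factorial : ℝ) * (K * 2 ^ A)) / R) Filter.atTop
        (nhds 0) := Filter.Tendsto.const_div_atTop Filter.tendsto_id _
    have h4 : ‖iteratedDeriv n f 0‖ ≤ 0 :=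
      ge_of_tendsto hlim ((Filter.eventually_ge_atTop 1).mono hb)
    exact norm_le_zero_iff.1 h4
  refine ⟨∑ n ∈ Finset.range (A + 1), Polynomial.C ((n.factorial : ℂ)⁻¹ * iteratedDeriv n f 0) *
    Polynomial.X ^ n, ?_, ?_⟩
  · apply Polynomial.natDegree_sum_le_of_forall_le
    intro n hn
    refine (Polynomial.natDegree_C_mul_X_pow_le _ _).trans ?_
    have := Finset.mem_range.1 hn
    omega
  · intro z
    have h5 := Complex.taylorSeries_eq_of_entire' 0 z hf
    rw [← h5, tsum_eq_sum (s := Finset.range (A + 1))]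
    · rw [Polynomial.eval_finsetSum]
      apply Finset.sum_congr rfl
      intro n _
      simp
    · intro n hn
      rw [hzero n (by simpa using hn)]
      simp

/-- the interpolation polynomials for the nodes `0, 1, .., A` -/
noncomputable def lag (A a : ℕ) : Polynomial ℂ :=
  Lagrange.basis (Finset.range (A + 1)) (fun i : ℕ => (i : ℂ)) a

theorem interp_one {q : Polynomial ℂ} {A : ℕ} (hq : q.natDegree ≤ A) (w : ℂ) :
    q.eval w = ∑ a : Fin (A + 1), q.eval ((a : ℕ) : ℂ) * (lag A a).eval w := by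
  have hinj : Set.InjOn (fun i : ℕ => (i : ℂ)) (Finset.range (A + 1)) :=
    fun a _ b _ hab => Nat.cast_injective hab
  have hdeg : q.degree < (Finset.range (A + 1)).card := by
    rw [Finset.card_range]
    refine (Polynomial.degree_le_natDegree).trans_lt ?_
    exact_mod_cast Nat.lt_succ_of_le hq
  have h := Lagrange.eq_interpolate (s := Finset.range (A + 1)) (v := fun i : ℕ => (i : ℂ))
    (f := q) hinj hdeg
  have h2 := congrArg (Polynomial.eval w) h
  rw [Lagrange.interpolate_apply, Polynomial.eval_finsetSum] at h2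
  rw [h2, Finset.sum_range]
  apply Finset.sum_congr rfl
  intro a _
  rw [Polynomial.eval_mul, Polynomial.eval_C]
  rfl

/-! ## several variables -/

/-- `G` is a polynomial of degree at most `A` in each variable -/
def Sep {L : ℕ} (A : ℕ) (G : (Fin L → ℂ) → ℂ) : Prop :=
  ∀ (x : Fin L → ℂ) (j : Fin L), ∃ q : Polynomial ℂ, q.natDegree ≤ A ∧
    ∀ w, G (Function.update x j w) = q.eval w

/-- the nodes -/
def node {L A : ℕ} (i : Fin L → Fin (A + 1)) : Fin L → ℂ := fun j => ((i j : ℕ) : ℂ)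

/-- the interpolation polynomials -/
noncomputable def Lam {L A : ℕ} (i : Fin L → Fin (A + 1)) : MvPolynomial (Fin L) ℂ :=
  ∏ j, Polynomial.aeval (X j) (lag A (i j))

theorem eval_Lam {L A : ℕ} (i : Fin L → Fin (A + 1)) (x : Fin L → ℂ) :
    eval x (Lam i) = ∏ j, (lag A (i j)).eval (x j) := by
  unfold Lam
  rw [map_prod]
  apply Finset.prod_congr rfl
  intro j _
  rw [← MvPolynomial.coe_aeval_eq_eval, RingHom.coe_coe, ← Polynomial.aeval_algHom_apply, aeval_X]
  exact (Polynomial.aeval_def _ _).trans (by simp [Polynomial.eval₂_eq_eval_map])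

theorem interp {L : ℕ} : ∀ {A : ℕ} {G : (Fin L → ℂ) → ℂ}, Sep A G → ∀ x,
    G x = ∑ i : Fin L → Fin (A + 1), G (node i) * ∏ j, (lag A (i j)).eval (x j) := by
  induction L with
  | zero =>
    intro A G _ x
    rw [Fintype.sum_unique]
    simp only [Finset.univ_eq_empty, Finset.prod_empty, mul_one]
    congr 1
    funext j
    exact j.elim0
  | succ L ih =>
    intro A G hG x
    obtain ⟨q, hq, hqe⟩ := hG x 0
    have h1 : G x = q.eval (x 0) := by rw [← hqe, Function.update_eq_self]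
    have h2 : ∀ a : Fin (A + 1), q.eval ((a : ℕ) : ℂ) =
        ∑ i' : Fin L → Fin (A + 1), G (node (Fin.cons a i')) *
          ∏ j, (lag A (i' j)).eval (x j.succ) := by
      intro a
      have hS : Sep A (fun x' : Fin L → ℂ => G (Fin.cons ((a : ℕ) : ℂ) x')) := by
        intro x' j
        obtain ⟨q', hq', hqe'⟩ := hG (Fin.cons ((a : ℕ) : ℂ) x') j.succ
        refine ⟨q', hq', fun w => ?_⟩
        rw [← hqe', ← Fin.cons_update]
      have h3 := ih hS (Fin.tail x)
      rw [← hqe]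
      have h4 : Function.update x 0 ((a : ℕ) : ℂ) = Fin.cons ((a : ℕ) : ℂ) (Fin.tail x) := by
        rw [← Fin.update_cons_zero (x 0) (Fin.tail x), Fin.cons_self_tail]
      rw [h4, h3]
      apply Finset.sum_congr rfl
      intro i' _
      have h5 : (Fin.cons ((a : ℕ) : ℂ) (node i') : Fin (L + 1) → ℂ) =
          node (Fin.cons a i' : Fin (L + 1) → Fin (A + 1)) := by
        funext j
        refine Fin.cases ?_ (fun j => ?_) j
        · simp [node]
        · simp [node]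
      rw [h5]
      rfl
    rw [h1, interp_one hq]
    simp_rw [h2]
    rw [← (Fin.consEquiv (fun _ : Fin (L + 1) => Fin (A + 1))).sum_comp, Fintype.sum_prod_type]
    apply Finset.sum_congr rfl
    intro a _
    rw [Finset.sum_mul]
    apply Finset.sum_congr rfl
    intro i' _
    have h6 : (Fin.consEquiv (fun _ : Fin (L + 1) => Fin (A + 1))) (a, i') = Fin.cons a i' := rfl
    rw [Fin.prod_univ_succ, h6]
    simp only [Fin.cons_zero, Fin.cons_succ]
    ring

/-- the interpolating polynomial -/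
noncomputable def ipoly {L : ℕ} (A : ℕ) (G : (Fin L → ℂ) → ℂ) : MvPolynomial (Fin L) ℂ :=
  ∑ i : Fin L → Fin (A + 1), C (G (node i)) * Lam i

theorem eval_ipoly {L A : ℕ} {G : (Fin L → ℂ) → ℂ} (hG : Sep A G) (x : Fin L → ℂ) :
    eval x (ipoly A G) = G x := by
  rw [interp hG x]
  unfold ipoly
  rw [map_sum]
  apply Finset.sum_congr rfl
  intro i _
  rw [map_mul, eval_C, eval_Lam]

/-- the sum of the absolute values of all coefficients of the interpolation polynomials -/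
noncomputable def lsum (L A : ℕ) : ℝ :=
  ∑ i : Fin L → Fin (A + 1), ∑ m ∈ (Lam i).support, ‖coeff m (Lam i)‖

theorem lsum_nonneg (L A : ℕ) : 0 ≤ lsum L A :=
  Finset.sum_nonneg fun _ _ => Finset.sum_nonneg fun _ _ => norm_nonneg _

theorem coeff_Lam_le {L A : ℕ} (i : Fin L → Fin (A + 1)) (m : Fin L →₀ ℕ) :
    ‖coeff m (Lam i)‖ ≤ ∑ m ∈ (Lam i).support, ‖coeff m (Lam i)‖ := by
  by_cases hm : m ∈ (Lam i).support
  · exact Finset.single_le_sum (f := fun m => ‖coeff m (Lam i)‖) (fun _ _ => norm_nonneg _) hm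
  · rw [MvPolynomial.notMem_support_iff.1 hm, norm_zero]
    exact Finset.sum_nonneg fun _ _ => norm_nonneg _

theorem coeff_ipoly_le {L A : ℕ} {G : (Fin L → ℂ) → ℂ} {B : ℝ}
    (hB : ∀ i : Fin L → Fin (A + 1), ‖G (node i)‖ ≤ B) (m : Fin L →₀ ℕ) :
    ‖coeff m (ipoly A G)‖ ≤ lsum L A * B := by
  have hB0 : 0 ≤ B := (norm_nonneg _).trans (hB 0)
  unfold ipoly lsum
  rw [coeff_sum, Finset.sum_mul]
  refine (norm_sum_le _ _).trans (Finset.sum_le_sum fun i _ => ?_)
  rw [coeff_C_mul, norm_mul, mul_comm]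
  exact mul_le_mul (coeff_Lam_le i m) (hB i) (norm_nonneg _)
    (Finset.sum_nonneg fun _ _ => norm_nonneg _)

/-- a homogeneous polynomial at a multiple -/
theorem eval_smul_hom {L n : ℕ} {P : MvPolynomial (Fin L) ℂ} (hP : P.IsHomogeneous n) (s : ℂ)
    (x : Fin L → ℂ) : eval (s • x) P = s ^ n * eval x P := by
  rw [MvPolynomial.eval_eq, MvPolynomial.eval_eq, Finset.mul_sum]
  apply Finset.sum_congr rfl
  intro d hd
  have hdeg : ∑ i ∈ d.support, d i = n := by
    have := hP (MvPolynomial.mem_support_iff.1 hd)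
    rw [← this, Finsupp.weight_apply, Finsupp.sum]
    simp
  rw [← hdeg, ← Finset.prod_pow_eq_pow_sum]
  simp only [Pi.smul_apply, smul_eq_mul, mul_pow, Finset.prod_mul_distrib]
  ring

/-- a polynomial of growth `A` has total degree at most `A` -/
theorem totalDegree_le_of_growth {L A : ℕ} {P : MvPolynomial (Fin L) ℂ} {K : ℝ}
    (hK : ∀ x, ‖eval x P‖ ≤ K * (1 + ‖x‖) ^ A) : P.totalDegree ≤ A := by
  have hK0 : 0 ≤ K := by
    have := hK 0
    simp only [norm_zero, add_zero, one_pow, mul_one] at this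
    exact (norm_nonneg _).trans this
  have hhom : ∀ n, A < n → homogeneousComponent n P = 0 := by
    intro n hn
    apply MvPolynomial.funext
    intro x
    rw [map_zero]
    set D := P.totalDegree with hD
    set q : Polynomial ℂ := ∑ k ∈ Finset.range (D + 1),
      Polynomial.C (eval x (homogeneousComponent k P)) * Polynomial.X ^ k with hq
    have hqe : ∀ s : ℂ, eval (s • x) P = q.eval s := by
      intro s
      conv_lhs => rw [← MvPolynomial.sum_homogeneousComponent P]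
      rw [map_sum, hq, Polynomial.eval_finsetSum]
      apply Finset.sum_congr rfl
      intro k _
      rw [eval_smul_hom (homogeneousComponent_isHomogeneous k P), Polynomial.eval_mul,
        Polynomial.eval_C, Polynomial.eval_pow, Polynomial.eval_X, mul_comm]
    obtain ⟨q', hq', hqe'⟩ := poly_one (f := fun s => eval (s • x) P) (A := A)
      (K := K * (1 + ‖x‖) ^ A) (by
        have : (fun s : ℂ => eval (s • x) P) = fun s => q.eval s := funext hqe
        rw [this]
        exact q.differentiable) (by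
        intro s
        refine (hK _).trans ?_
        rw [mul_assoc, ← mul_pow]
        apply mul_le_mul_of_nonneg_left _ hK0
        apply pow_le_pow_left₀ (by positivity)
        rw [norm_smul]
        nlinarith [norm_nonneg s, norm_nonneg x])
    have hqq : q = q' := Polynomial.funext fun s => by rw [← hqe s, ← hqe' s]
    have hc : q.coeff n = 0 := by
      rw [hqq]
      exact Polynomial.coeff_eq_zero_of_natDegree_lt (by omega)
    by_cases hnD : n ≤ D
    · rw [hq, Polynomial.finsetSum_coeff] at hc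
      rw [Finset.sum_eq_single n] at hc
      · simpa using hc
      · intro k _ hkn
        simp [Polynomial.coeff_X_pow, Ne.symm hkn]
      · intro h
        exact absurd (Finset.mem_range.2 (by omega)) h
    · rw [homogeneousComponent_eq_zero n P (by omega), map_zero]
  unfold MvPolynomial.totalDegree
  refine Finset.sup_le fun m hm => ?_
  by_contra hlt
  push Not at hlt
  have h1 := hhom _ hlt
  have h2 := congrArg (coeff m) h1
  rw [coeff_homogeneousComponent] at h2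
  simp only [coeff_zero, ite_eq_right_iff] at h2
  exact (MvPolynomial.mem_support_iff.1 hm) (h2 rfl)

/-- **Liouville.**  A function of polynomial growth which is entire in every variable is a
polynomial; its coefficients are bounded by its values at the nodes. -/
theorem liouville {L : ℕ} {G : (Fin L → ℂ) → ℂ}
    (hG : ∀ (x : Fin L → ℂ) (j : Fin L), Differentiable ℂ fun w => G (Function.update x j w))
    {A : ℕ} {K : ℝ} (hK : ∀ x, ‖G x‖ ≤ K * (1 + ‖x‖) ^ A) :
    ∃ P : MvPolynomial (Fin L) ℂ, P.totalDegree ≤ A ∧ (∀ x, G x = eval x P) ∧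
      ∀ m, ‖coeff m P‖ ≤ lsum L A * (K * (1 + A) ^ A) := by
  have hK0 : 0 ≤ K := by
    have := hK 0
    simp only [norm_zero, add_zero, one_pow, mul_one] at this
    exact (norm_nonneg _).trans this
  have hS : Sep A G := by
    intro x j
    refine poly_one (hG x j) (K := K * (1 + ‖x‖) ^ A) fun w => (hK _).trans ?_
    rw [mul_assoc, ← mul_pow]
    apply mul_le_mul_of_nonneg_left _ hK0
    apply pow_le_pow_left₀ (by positivity)
    have h1 : ‖Function.update x j w‖ ≤ ‖x‖ + ‖w‖ := by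
      rw [pi_norm_le_iff_of_nonneg (by positivity)]
      intro k
      by_cases hk : k = j
      · subst hk
        rw [Function.update_self]
        linarith [norm_nonneg x]
      · rw [Function.update_of_ne hk]
        linarith [norm_le_pi_norm x k, norm_nonneg w]
    nlinarith [norm_nonneg w, norm_nonneg x]
  refine ⟨ipoly A G, totalDegree_le_of_growth (K := K) fun x => ?_, fun x => (eval_ipoly hS x).symm,
    fun m => coeff_ipoly_le (fun i => ?_) m⟩
  · rw [eval_ipoly hS]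
    exact hK x
  · refine (hK _).trans ?_
    apply mul_le_mul_of_nonneg_left _ hK0
    apply pow_le_pow_left₀ (by positivity)
    have h1 : ‖(node i : Fin L → ℂ)‖ ≤ A := by
      rw [pi_norm_le_iff_of_nonneg (by positivity)]
      intro k
      unfold node
      rw [Complex.norm_natCast]
      have := (i k).2
      exact_mod_cast Nat.le_of_lt_succ this
    linarith

end Pool.Agent.KRFCh

end

section

/-!
# Entire functions with a finite weighted square integral are polynomials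
-/

open scoped ContDiff ENNReal ComplexOrder Topology
open Set MeasureTheory Filter Pool.Agent.ToricKRF Pool.Agent.ToricKRF.G Pool.Agent.KRFS
  Pool.Agent.KRFF Pool.Agent.KRFG Pool.Agent.KRFZ

namespace Pool.Agent.KRFCh

variable {L : ℕ}

/-- the point with the complex coordinates `x` -/
def toCn (x : Fin L → ℂ) : Cn L := (fun j => (x j).re, fun j => (x j).im)

theorem cc_toCn (x : Fin L → ℂ) : cc (toCn x) = x := by
  funext j
  exact Complex.ext rfl rfl

theorem toCn_cc (t : Cn L) : toCn (cc t) = t := rfl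

theorem nsq_add_le (a b : Cn L) : nsq (a + b) ≤ 2 * (nsq a + nsq b) := by
  rw [KRFH.BallM.nsq_eq_sum, KRFH.BallM.nsq_eq_sum, KRFH.BallM.nsq_eq_sum,
    ← Finset.sum_add_distrib, Finset.mul_sum]
  refine Finset.sum_le_sum fun j _ => ?_
  simp only [Prod.fst_add, Prod.snd_add, Pi.add_apply]
  nlinarith [sq_nonneg (a.1 j - b.1 j), sq_nonneg (a.2 j - b.2 j)]

theorem nsq_toCn_le (x : Fin L → ℂ) : nsq (toCn x) ≤ L * ‖x‖ ^ 2 := by
  rw [KRFH.BallM.nsq_eq_sum]
  calc ∑ j, ((toCn x).1 j ^ 2 + (toCn x).2 j ^ 2) ≤ ∑ _j : Fin L, ‖x‖ ^ 2 := by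
        refine Finset.sum_le_sum fun j _ => ?_
        have h1 : (toCn x).1 j ^ 2 + (toCn x).2 j ^ 2 = ‖x j‖ ^ 2 := by
          rw [Complex.sq_norm, Complex.normSq_apply]
          simp [toCn]
          ring
        rw [h1]
        exact pow_le_pow_left₀ (norm_nonneg _) (norm_le_pi_norm x j) 2
    _ = L * ‖x‖ ^ 2 := by simp

/-- the value of an entire function is bounded by its weighted square integral -/
theorem val_le {F : Cn L → ℂ} (hF : NF.HolC F univ) {A : ℕ} {I : ℝ} (hI : 0 ≤ I)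
    (hint : ∫⁻ t, ENNReal.ofReal (‖F t‖ ^ 2 / (1 + nsq t) ^ A) ≤ ENNReal.ofReal I) (z : Cn L) :
    (volume {w : Cn L | nsq w ≤ 1}).toReal * ‖F z‖ ^ 2 ≤ (3 * (1 + nsq z)) ^ A * I := by
  have hz := KRFH.BallM.continuous_nsq (n := L)
  have hz0 : 0 ≤ nsq z := Fb.nsq_nonneg z
  have hM : 0 ≤ (3 * (1 + nsq z)) ^ A := by positivity
  have h1 := HM.mean_sq_lint (z := z) (r := 1) isOpen_univ hF one_pos (subset_univ _)
    (I := (3 * (1 + nsq z)) ^ A * I) (by positivity) (by
      rw [ENNReal.ofReal_mul hM]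
      calc ∫⁻ w in {w : Cn L | nsq (w - z) ≤ 1 ^ 2}, ENNReal.ofReal (‖F w‖ ^ 2)
          ≤ ∫⁻ w in {w : Cn L | nsq (w - z) ≤ 1 ^ 2}, ENNReal.ofReal ((3 * (1 + nsq z)) ^ A) *
              ENNReal.ofReal (‖F w‖ ^ 2 / (1 + nsq w) ^ A) := by
            refine lintegral_mono_ae ?_
            filter_upwards [ae_restrict_mem (HM.isCompact_ball z 1).measurableSet] with w hw
            rw [← ENNReal.ofReal_mul hM]
            apply ENNReal.ofReal_le_ofReal
            have hw0 : 0 ≤ nsq w := Fb.nsq_nonneg w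
            have hw1 : 1 + nsq w ≤ 3 * (1 + nsq z) := by
              have h2 := nsq_add_le (w - z) z
              rw [sub_add_cancel] at h2
              have h3 : nsq (w - z) ≤ 1 ^ 2 := hw
              linarith
            have hp : 0 < (1 + nsq w) ^ A := by positivity
            rw [mul_div_assoc', le_div_iff₀ hp, mul_comm]
            exact mul_le_mul_of_nonneg_right (pow_le_pow_left₀ (by positivity) hw1 A)
              (by positivity)
        _ = ENNReal.ofReal ((3 * (1 + nsq z)) ^ A) *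
              ∫⁻ w in {w : Cn L | nsq (w - z) ≤ 1 ^ 2},
                ENNReal.ofReal (‖F w‖ ^ 2 / (1 + nsq w) ^ A) :=
            lintegral_const_mul' _ _ ENNReal.ofReal_ne_top
        _ ≤ ENNReal.ofReal ((3 * (1 + nsq z)) ^ A) * ENNReal.ofReal I := by
            gcongr
            exact (setLIntegral_le_lintegral _ _).trans hint)
  simpa using h1

/-- an entire function is entire in every variable -/
theorem slice_diff {F : Cn L → ℂ} (hF : NF.HolC F univ) (x : Fin L → ℂ) (j : Fin L) :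
    Differentiable ℂ fun w => F (toCn (Function.update x j w)) := by
  have h1 := KRFH.AsubN.diff_line isOpen_univ hF (toCn (Function.update x j 0))
    (Pi.single j 1, 0)
  rw [preimage_univ, differentiableOn_univ] at h1
  convert h1 using 1
  funext w
  congr 1
  refine Prod.ext (funext fun k => ?_) (funext fun k => ?_)
  · by_cases hk : k = j
    · subst hk
      simp [toCn, line, J]
    · simp [toCn, line, J, Function.update_of_ne hk, Pi.single_eq_of_ne hk]
  · by_cases hk : k = j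
    · subst hk
      simp [toCn, line, J]
    · simp [toCn, line, J, Function.update_of_ne hk, Pi.single_eq_of_ne hk]

/-- An entire function with a finite weighted square integral is a polynomial, with a bound for
the coefficients. -/
theorem exists_poly_bound (L A : ℕ) : ∃ C : ℝ, 0 ≤ C ∧ ∀ (F : Cn L → ℂ) (I : ℝ), NF.HolC F univ →
    0 ≤ I → ∫⁻ t, ENNReal.ofReal (‖F t‖ ^ 2 / (1 + nsq t) ^ A) ≤ ENNReal.ofReal I →
    ∃ P : MvPolynomial (Fin L) ℂ, P.totalDegree ≤ A ∧ (∀ t, F t = MvPolynomial.eval (cc t) P) ∧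
      ∀ m, ‖MvPolynomial.coeff m P‖ ≤ C * √I := by
  set v := (volume {w : Cn L | nsq w ≤ 1}).toReal with hv
  have hvp : 0 < v := Pole.volume_unit_pos
  set K : ℝ := √(v⁻¹ * (3 * (1 + L)) ^ A) with hK
  refine ⟨lsum L A * (K * (1 + A) ^ A), mul_nonneg (lsum_nonneg L A) (by positivity), ?_⟩
  intro F I hF hI hint
  obtain ⟨P, hP1, hP2, hP3⟩ := liouville (G := fun x => F (toCn x)) (slice_diff hF) (A := A)
    (K := K * √I) (by
      intro x
      have h1 := val_le hF hI hint (toCn x)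
      have h2 : 1 + nsq (toCn x) ≤ (1 + L) * (1 + ‖x‖) ^ 2 := by
        have h3 := nsq_toCn_le x
        have hL : (0 : ℝ) ≤ L := Nat.cast_nonneg L
        nlinarith [norm_nonneg x, mul_nonneg hL (norm_nonneg x), sq_nonneg ‖x‖]
      have h4 : ‖F (toCn x)‖ ^ 2 ≤ (K * √I * (1 + ‖x‖) ^ A) ^ 2 := by
        rw [mul_pow, mul_pow, Real.sq_sqrt hI, hK, Real.sq_sqrt (by positivity)]
        have h5 : (3 * (1 + nsq (toCn x))) ^ A ≤
            (3 * (1 + L)) ^ A * ((1 + ‖x‖) ^ A) ^ 2 := by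
          rw [← pow_mul, mul_comm A 2, pow_mul, ← mul_pow]
          apply pow_le_pow_left₀
          · have := Fb.nsq_nonneg (toCn x)
            positivity
          · linarith
        have h6 : v * ‖F (toCn x)‖ ^ 2 ≤ (3 * (1 + L)) ^ A * ((1 + ‖x‖) ^ A) ^ 2 * I :=
          h1.trans (mul_le_mul_of_nonneg_right h5 hI)
        calc ‖F (toCn x)‖ ^ 2 = v⁻¹ * (v * ‖F (toCn x)‖ ^ 2) := by
              rw [← mul_assoc, inv_mul_cancel₀ hvp.ne', one_mul]
          _ ≤ v⁻¹ * ((3 * (1 + L)) ^ A * ((1 + ‖x‖) ^ A) ^ 2 * I) :=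
              mul_le_mul_of_nonneg_left h6 (by positivity)
          _ = v⁻¹ * (3 * (1 + L)) ^ A * I * ((1 + ‖x‖) ^ A) ^ 2 := by ring
      exact le_of_sq_le_sq h4 (by positivity))
  refine ⟨P, hP1, fun t => ?_, fun m => (hP3 m).trans (le_of_eq ?_)⟩
  · rw [← hP2]
    rfl
  · ring

/-- **An entire function with a finite weighted square integral is a polynomial.** -/
theorem exists_poly {L A : ℕ} {F : Cn L → ℂ} (hF : NF.HolC F univ)
    (hI : ∫⁻ t, ENNReal.ofReal (‖F t‖ ^ 2 * ((1 + nsq t) ^ A)⁻¹) ≠ ⊤) :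
    ∃ P : MvPolynomial (Fin L) ℂ, P.totalDegree ≤ A ∧
      ∀ t, F t = MvPolynomial.eval (cc t) P := by
  obtain ⟨C, _, h⟩ := exists_poly_bound L A
  obtain ⟨P, hP1, hP2, _⟩ := h F
    (∫⁻ t, ENNReal.ofReal (‖F t‖ ^ 2 * ((1 + nsq t) ^ A)⁻¹)).toReal hF ENNReal.toReal_nonneg (by
      simp_rw [div_eq_mul_inv]
      exact (ENNReal.ofReal_toReal hI).ge)
  exact ⟨P, hP1, hP2⟩

/-- The same with the weight `exp (- A log (1 + |t|^2))` and the integral. -/
theorem exists_poly_exp (L A : ℕ) : ∃ C : ℝ, 0 ≤ C ∧ ∀ (F : Cn L → ℂ), NF.HolC F univ →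
    Integrable (fun t => ‖F t‖ ^ 2 * Real.exp (-((A : ℝ) * Real.log (1 + nsq t)))) →
    ∃ P : MvPolynomial (Fin L) ℂ, P.totalDegree ≤ A ∧ (∀ t, F t = MvPolynomial.eval (cc t) P) ∧
      ∀ m, ‖MvPolynomial.coeff m P‖ ≤
        C * √(∫ t, ‖F t‖ ^ 2 * Real.exp (-((A : ℝ) * Real.log (1 + nsq t)))) := by
  obtain ⟨C, hC, h⟩ := exists_poly_bound L A
  refine ⟨C, hC, fun F hF hint => ?_⟩
  have hw : ∀ t : Cn L, ‖F t‖ ^ 2 / (1 + nsq t) ^ A =
      ‖F t‖ ^ 2 * Real.exp (-((A : ℝ) * Real.log (1 + nsq t))) := by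
    intro t
    have ht : 0 < 1 + nsq t := by linarith [Fb.nsq_nonneg t]
    rw [Real.exp_neg, Real.exp_nat_mul, Real.exp_log ht, div_eq_mul_inv]
  refine h F _ hF (integral_nonneg fun t => by positivity) ?_
  rw [ofReal_integral_eq_lintegral_ofReal hint (Eventually.of_forall fun t => by positivity)]
  simp_rw [hw]
  exact le_rfl

end Pool.Agent.KRFCh

end

section

/-!
# Polynomials with approximate values on a slice (helper28)
-/

open scoped ContDiff ENNReal ComplexOrder Topology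
open Set Filter MeasureTheory Pool.Agent.ToricKRF Pool.Agent.ToricKRF.G Pool.Agent.KRFS
  Pool.Agent.KRFF Pool.Agent.KRFZ

namespace Pool.Agent.KRFCh

namespace Ap

variable {L : ℕ}

theorem nsq_add_two (x y : Cn L) : nsq (x + y) ≤ 2 * nsq x + 2 * nsq y := by
  have h := Pool.Agent.KRFG.Fb.nsq_nonneg (x - y)
  have e : nsq (x + y) + nsq (x - y) = 2 * nsq x + 2 * nsq y := by
    simp only [nsq, Prod.fst_add, Prod.snd_add, Prod.fst_sub, Prod.snd_sub, add_dotProduct,
      dotProduct_add, sub_dotProduct, dotProduct_sub, dotProduct_comm y.1 x.1,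
      dotProduct_comm y.2 x.2]
    ring
  linarith

theorem nsq_comm_sub (x y : Cn L) : nsq (x - y) = nsq (y - x) := by
  simp only [nsq, Prod.fst_sub, Prod.snd_sub, sub_dotProduct, dotProduct_sub,
    dotProduct_comm y.1 x.1, dotProduct_comm y.2 x.2]
  ring

theorem slice_ne (a : Fin (L + 1)) (t : Cn L) : slice a t ≠ 0 := by
  intro h
  have h1 := nsq_slice a t
  rw [h] at h1
  have h2 := Pool.Agent.KRFG.Fb.nsq_nonneg t
  have h3 : nsq (0 : Cn (L + 1)) = 0 := by simp [nsq]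
  rw [h3] at h1
  linarith

theorem isOpen_ne0 : IsOpen {x : Cn (L + 1) | x ≠ 0} := isOpen_ne

theorem log_one_eq : (fun t : Cn L => Real.log (1 + nsq t)) =
    fun t : Cn L => Real.log (nsq (t - 0) + 1 ^ 2) := by
  funext t
  rw [sub_zero, one_pow, add_comm]

theorem contDiff_log_one : ContDiff ℝ ∞ fun t : Cn L => Real.log (1 + nsq t) := by
  rw [log_one_eq]
  exact HM.contDiff_logpole 0 one_ne_zero

theorem levz_log_one_nonneg (v t : Cn L) : 0 ≤ levz (fun t : Cn L => Real.log (1 + nsq t)) v t := by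
  rw [log_one_eq]
  exact HM.levz_logpole 0 one_ne_zero t v

theorem contDiffOn_log_nsq : ContDiffOn ℝ ∞ (fun x : Cn (L + 1) => Real.log (nsq x))
    {x : Cn (L + 1) | x ≠ 0} := by
  refine (Pool.Agent.KRFG.Fb.contDiff_nsq.contDiffOn).log fun x hx => ?_
  exact fun h => hx (Pool.Agent.KRFX.NC.nsq_eq_zero.1 h)

/-- the weight on the slice -/
noncomputable def rho (W : ℝ → Cn (L + 1) → ℝ) (a : Fin (L + 1)) (t₀ : Cn L) (A : ℕ) (ε : ℝ)
    (t : Cn L) : ℝ :=
  (L + 1) * Real.log (W ε (slice a t)) + (L + 1) * Real.log (nsq (t - t₀) + ε ^ 2) +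
    A * Real.log (1 + nsq t)

section

variable {Γ : Set (Cn (L + 1))} {W : ℝ → Cn (L + 1) → ℝ} {C : ℝ} (h : IsWeight Γ W C)
include h

theorem contDiff_log_W (a : Fin (L + 1)) {ε : ℝ} (hε : ε ∈ Ioc (0 : ℝ) 1) :
    ContDiff ℝ ∞ fun t : Cn L => Real.log (W ε (slice a t)) := by
  rw [← contDiffOn_univ]
  exact ((h.smooth ε hε).comp (contDiff_slice a).contDiffOn fun t _ => slice_ne a t).log
    fun t _ => (h.pos ε hε _ (slice_ne a t)).1.ne'

theorem contDiff_rho (a : Fin (L + 1)) (t₀ : Cn L) (A : ℕ) {ε : ℝ} (hε : ε ∈ Ioc (0 : ℝ) 1) :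
    ContDiff ℝ ∞ (rho W a t₀ A ε) :=
  ((contDiff_const.mul (contDiff_log_W h a hε)).add
    (contDiff_const.mul (HM.contDiff_logpole t₀ hε.1.ne'))).add
    (contDiff_const.mul contDiff_log_one)

theorem levz_log_W (a : Fin (L + 1)) {ε : ℝ} (hε : ε ∈ Ioc (0 : ℝ) 1) (t v : Cn L) :
    -C * levz (fun t : Cn L => Real.log (1 + nsq t)) v t ≤
      levz (fun t : Cn L => Real.log (W ε (slice a t))) v t := by
  have hx := slice_ne a t
  have h1 := h.lev ε hε _ hx (slice a v - slice a 0)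
  have h2 : ContDiffAt ℝ 2 (fun x => Real.log (W ε x)) (slice a t) :=
    (((h.smooth ε hε).log fun x hx => (h.pos ε hε x hx).1.ne').contDiffAt
      (isOpen_ne0.mem_nhds hx)).of_le two_le_infty
  have h3 : ContDiffAt ℝ 2 (fun x : Cn (L + 1) => Real.log (nsq x)) (slice a t) :=
    (contDiffOn_log_nsq.contDiffAt (isOpen_ne0.mem_nhds hx)).of_le two_le_infty
  have h4 := levz_slice a h2 v
  have h5 := levz_slice a h3 v
  have h6 : (fun t : Cn L => Real.log (nsq (slice a t))) = fun t => Real.log (1 + nsq t) := by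
    funext t
    rw [nsq_slice]
  rw [h6] at h5
  rw [h4, h5]
  exact h1

theorem levz_rho (a : Fin (L + 1)) (t₀ : Cn L) {A : ℕ} (hA : (L + 1) * C + 1 ≤ A) {ε : ℝ}
    (hε : ε ∈ Ioc (0 : ℝ) 1) (t v : Cn L) :
    levz (fun t : Cn L => Real.log (1 + nsq t)) v t ≤ levz (rho W a t₀ A ε) v t := by
  have c1 : ContDiffAt ℝ 2 (fun t : Cn L => Real.log (W ε (slice a t))) t :=
    (contDiff_log_W h a hε).contDiffAt.of_le two_le_infty
  have c2 : ContDiffAt ℝ 2 (fun t : Cn L => Real.log (nsq (t - t₀) + ε ^ 2)) t :=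
    (HM.contDiff_logpole t₀ hε.1.ne').contDiffAt.of_le two_le_infty
  have c3 : ContDiffAt ℝ 2 (fun t : Cn L => Real.log (1 + nsq t)) t :=
    contDiff_log_one.contDiffAt.of_le two_le_infty
  have e : levz (rho W a t₀ A ε) v t =
      (L + 1) * levz (fun t : Cn L => Real.log (W ε (slice a t))) v t +
      (L + 1) * levz (fun t : Cn L => Real.log (nsq (t - t₀) + ε ^ 2)) v t +
      A * levz (fun t : Cn L => Real.log (1 + nsq t)) v t := by
    unfold rho
    rw [Bd.levz_add ((contDiffAt_const.mul c1).add (contDiffAt_const.mul c2))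
      (contDiffAt_const.mul c3), Bd.levz_add (contDiffAt_const.mul c1) (contDiffAt_const.mul c2),
      Bd.levz_const_mul _ c1, Bd.levz_const_mul _ c2, Bd.levz_const_mul _ c3]
  have h1 := levz_log_W h a hε t v
  have h2 := HM.levz_logpole t₀ hε.1.ne' t v
  have h3 := levz_log_one_nonneg v t
  rw [e]
  have hL : (0 : ℝ) ≤ L + 1 := by positivity
  have h4 := mul_le_mul_of_nonneg_left h1 hL
  have h5 := mul_nonneg hL h2
  have h6 := mul_le_mul_of_nonneg_right hA h3
  nlinarith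

omit h in
theorem exp_rho (a : Fin (L + 1)) (t₀ : Cn L) (A : ℕ) {ε : ℝ} (hε : 0 < ε) (t : Cn L)
    (hW : 0 < W ε (slice a t)) : Real.exp (-rho W a t₀ A ε t) =
      (W ε (slice a t) ^ (L + 1))⁻¹ * ((nsq (t - t₀) + ε ^ 2) ^ (L + 1))⁻¹ *
        ((1 + nsq t) ^ A)⁻¹ := by
  have h1 := HM.pos_pole t₀ hε.ne' t
  have h2 : 0 < 1 + nsq t := by
    have := Pool.Agent.KRFG.Fb.nsq_nonneg t
    linarith
  have e : ∀ (m : ℕ) {x : ℝ}, 0 < x → Real.exp (-((m : ℝ) * Real.log x)) = (x ^ m)⁻¹ := by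
    intro m x hx
    rw [Real.exp_neg, Real.exp_nat_mul, Real.exp_log hx]
  unfold rho
  rw [neg_add, neg_add, Real.exp_add, Real.exp_add, e A h2]
  have e1 := e (L + 1) hW
  have e2 := e (L + 1) h1
  push_cast at e1 e2
  rw [e1, e2]

omit h in
/-- the radius around `t₀` -/
theorem exists_radius {c : ℝ} {W : ℝ → Cn (L + 1) → ℝ} (a : Fin (L + 1))
    (t₀ : Cn L) (hc : ∀ᶠ x' in 𝓝 (slice a t₀), ∀ ε ∈ Ioc (0 : ℝ) 1, c ≤ W ε x') :
    ∃ r > 0, ∀ t, nsq (t - t₀) ≤ r ^ 2 → ∀ ε ∈ Ioc (0 : ℝ) 1, c ≤ W ε (slice a t) := by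
  have h1 : ∀ᶠ t in 𝓝 t₀, ∀ ε ∈ Ioc (0 : ℝ) 1, c ≤ W ε (slice a t) :=
    (contDiff_slice a).continuous.continuousAt.eventually hc
  obtain ⟨r, hr, hr1⟩ := Metric.eventually_nhds_iff.1 h1
  refine ⟨r / 2, by positivity, fun t ht => hr1 ?_⟩
  rw [dist_eq_norm]
  have := Pool.Agent.KRFG.norm_le_of_nsq_le (by positivity : (0 : ℝ) ≤ r / 2) ht
  linarith

end

/-- the value at the centre of a ball of radius `ε` on which `w ≤ B` -/
theorem value_le {g : Cn L → ℂ} (hg : NF.HolC g univ) {z₀ : Cn L} {ε B I : ℝ} (hε : 0 < ε)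
    {ρ : Cn L → ℝ} (hρ : ∀ t, nsq (t - z₀) ≤ ε ^ 2 →
      ρ t ≤ B + (L + 1) * Real.log (nsq (t - z₀) + ε ^ 2)) (hI : 0 ≤ I)
    (hint : ∫⁻ t in {t : Cn L | nsq (t - z₀) ≤ ε ^ 2}, ENNReal.ofReal (‖g t‖ ^ 2 *
      Real.exp (-ρ t)) ≤ ENNReal.ofReal I) :
    ‖g z₀‖ ^ 2 ≤ Real.exp B * 2 ^ (L + 1) / (volume {w : Cn L | nsq w ≤ 1}).toReal * ε ^ 2 * I := by
  have h1 := HM.pole (n := L) (F := fun t : Cn L => t) (W₁ := fun _ => B) (Ω := fun _ => 1)
    (z₀ := z₀) (L := 1) (B := B) (o := 1) hε one_pos (fun w _ => by simp) (fun _ _ => le_rfl)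
    (fun _ _ => le_rfl) isOpen_univ hg (subset_univ _) hI ?_
  · rw [one_mul, one_pow, one_add_one_eq_two] at h1
    exact h1
  · refine le_trans ?_ hint
    refine setLIntegral_mono' (HM.isCompact_ball z₀ ε).measurableSet fun t ht => ?_
    refine ENNReal.ofReal_le_ofReal ?_
    rw [mul_one]
    refine mul_le_mul_of_nonneg_left (Real.exp_le_exp.2 ?_) (sq_nonneg _)
    have := hρ t ht
    linarith

end Ap

open Ap

theorem exists_approx (L : ℕ) {C : ℝ} (hC : 0 < C) : ∃ d : ℕ, ∀ (Γ : Set (Cn (L + 1)))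
    (W : ℝ → Cn (L + 1) → ℝ), IsWeight Γ W C → ∀ (a : Fin (L + 1)) (t₀ : Cn L),
      slice a t₀ ∉ Γ → ∀ s : Finset (Cn L), (∀ t ∈ s, slice a t ∈ Γ) → ∀ δ > 0,
        ∃ P : MvPolynomial (Fin L) ℂ, P.totalDegree ≤ d ∧
          ‖MvPolynomial.eval (cc t₀) P - 1‖ ≤ δ ∧
            ∀ t ∈ s, ‖MvPolynomial.eval (cc t) P‖ ≤ δ := by
  obtain ⟨A, hA⟩ := exists_nat_ge ((L + 1) * C + 1)
  refine ⟨A + (L + 1), fun Γ W h a t₀ ht₀ s hs δ hδ => ?_⟩
  obtain ⟨c, hc, hc1⟩ := h.away _ (slice_ne a t₀) ht₀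
  obtain ⟨r, hr, hr1⟩ := exists_radius a t₀ hc1
  -- the points of `s` are far from `t₀`
  have hfar : ∀ t ∈ s, r ^ 2 < nsq (t - t₀) := by
    intro t ht
    by_contra hcon
    push Not at hcon
    obtain ⟨C', hC'⟩ := h.near _ (hs t ht)
    have h0 : nsq (slice a t - slice a t) = 0 := by simp [nsq]
    have h1 : ∀ ε ∈ Ioc (0 : ℝ) 1, c ≤ C' * ε ^ 2 := fun ε hε =>
      (hr1 t hcon ε hε).trans (hC' ε hε _ (slice_ne a t) (by rw [h0]; positivity))
    have h2 := h1 1 ⟨one_pos, le_rfl⟩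
    have h3 : 0 < C' := by linarith
    set ε : ℝ := min 1 (Real.sqrt (c / (2 * C'))) with hε
    have h4 : 0 < Real.sqrt (c / (2 * C')) := Real.sqrt_pos.2 (by positivity)
    have h5 : 0 < ε := lt_min one_pos h4
    have h6 := h1 ε ⟨h5, min_le_left _ _⟩
    have h7 : ε ^ 2 ≤ c / (2 * C') := by
      have : ε ≤ Real.sqrt (c / (2 * C')) := min_le_right _ _
      calc ε ^ 2 ≤ Real.sqrt (c / (2 * C')) ^ 2 := by gcongr
        _ = c / (2 * C') := Real.sq_sqrt (by positivity)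
    have h8 : C' * ε ^ 2 ≤ c / 2 := by
      calc C' * ε ^ 2 ≤ C' * (c / (2 * C')) := by gcongr
        _ = c / 2 := by field_simp
    linarith
  -- the cut-off function
  obtain ⟨u, B, hu, hus, hB, hBs, hB0, hin, hout, hdb⟩ := exists_cutoff_slice t₀ (half_pos hr)
  have hBi : Integrable B := hB.integrable_of_hasCompactSupport hBs
  have hBint : 0 ≤ ∫ t, B t := integral_nonneg hB0
  -- the constant on the right
  set κ : ℝ := (c ^ (L + 1))⁻¹ * ((r ^ 2 / 16) ^ (L + 1))⁻¹ with hκ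
  have hκ0 : 0 ≤ κ := by positivity
  set I : ℝ := κ * ∫ t, B t with hI
  have hI0 : 0 ≤ I := mul_nonneg hκ0 hBint
  -- the solutions
  have hsol : ∀ ε ∈ Ioc (0 : ℝ) 1, ∃ b : Cn L → ℂ, NF.HolC b univ ∧
      ∫⁻ t, ENNReal.ofReal (‖u t - b t‖ ^ 2 * Real.exp (-rho W a t₀ A ε t)) ≤
        ENNReal.ofReal I := by
    intro ε hε
    obtain ⟨b, hb, hb1⟩ := horm_CL (contDiff_rho h a t₀ A hε) (levz_rho h a t₀ hA hε) hu hus hB
      hB0 hBs hdb
    refine ⟨b, hb, hb1.trans ?_⟩
    calc ∫⁻ t, ENNReal.ofReal (B t * Real.exp (-rho W a t₀ A ε t)) ≤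
        ∫⁻ t, ENNReal.ofReal (κ * B t) := by
          refine lintegral_mono fun t => ENNReal.ofReal_le_ofReal ?_
          have hWp := (h.pos ε hε _ (slice_ne a t)).1
          rw [exp_rho a t₀ A hε.1 t hWp]
          by_cases h1 : nsq (t - t₀) ≤ (r / 2) ^ 2 / 4
          · rw [(hin t h1).2, zero_mul, mul_zero]
          by_cases h2 : (r / 2) ^ 2 ≤ nsq (t - t₀)
          · rw [(hout t h2).2, zero_mul, mul_zero]
          push Not at h1 h2
          have h3 : c ≤ W ε (slice a t) := hr1 t (by nlinarith [sq_nonneg r]) ε hε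
          have h4 : r ^ 2 / 16 ≤ nsq (t - t₀) + ε ^ 2 := by nlinarith [sq_nonneg ε]
          have h5 : (1 : ℝ) ≤ (1 + nsq t) ^ A := one_le_pow₀ (by
            have := Pool.Agent.KRFG.Fb.nsq_nonneg t
            linarith)
          rw [mul_comm (B t)]
          refine mul_le_mul_of_nonneg_right ?_ (hB0 t)
          have h6 : ((1 + nsq t) ^ A)⁻¹ ≤ 1 := inv_le_one_of_one_le₀ h5
          have h7 : (W ε (slice a t) ^ (L + 1))⁻¹ ≤ (c ^ (L + 1))⁻¹ := by gcongr
          have h8 : ((nsq (t - t₀) + ε ^ 2) ^ (L + 1))⁻¹ ≤ ((r ^ 2 / 16) ^ (L + 1))⁻¹ := by gcongr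
          have h9 : 0 ≤ ((nsq (t - t₀) + ε ^ 2) ^ (L + 1))⁻¹ := by
            have := HM.pos_pole t₀ hε.1.ne' t
            positivity
          calc (W ε (slice a t) ^ (L + 1))⁻¹ * ((nsq (t - t₀) + ε ^ 2) ^ (L + 1))⁻¹ *
              ((1 + nsq t) ^ A)⁻¹ ≤
              (c ^ (L + 1))⁻¹ * ((r ^ 2 / 16) ^ (L + 1))⁻¹ * 1 := by gcongr
            _ = κ := by rw [mul_one]
      _ = ENNReal.ofReal I := by
          rw [hI, ← integral_const_mul, ofReal_integral_eq_lintegral_ofReal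
            (hBi.const_mul κ) (Eventually.of_forall fun t => mul_nonneg hκ0 (hB0 t))]
  -- the solutions are polynomials
  have hpoly : ∀ ε ∈ Ioc (0 : ℝ) 1, ∀ b : Cn L → ℂ, NF.HolC b univ →
      ∫⁻ t, ENNReal.ofReal (‖u t - b t‖ ^ 2 * Real.exp (-rho W a t₀ A ε t)) ≤
        ENNReal.ofReal I → ∃ P : MvPolynomial (Fin L) ℂ, P.totalDegree ≤ A + (L + 1) ∧
          ∀ t, b t = MvPolynomial.eval (cc t) P := by
    intro ε hε b hb hbI
    refine exists_poly hb (ne_of_lt ?_)
    set K2 : ℝ := C ^ (L + 1) * (2 + 2 * nsq t₀) ^ (L + 1) with hK2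
    have ht0 := Pool.Agent.KRFG.Fb.nsq_nonneg t₀
    have hK20 : 0 ≤ K2 := by positivity
    have hu2 : Integrable fun t => 2 * ‖u t‖ ^ 2 := by
      have h1 : HasCompactSupport fun t => ‖u t‖ ^ 2 :=
        hus.norm.comp_left (g := fun x : ℝ => x ^ 2) (by simp)
      exact (Continuous.integrable_of_hasCompactSupport (hu.continuous.norm.pow 2) h1).const_mul 2
    calc ∫⁻ t, ENNReal.ofReal (‖b t‖ ^ 2 * ((1 + nsq t) ^ (A + (L + 1)))⁻¹) ≤
        ∫⁻ t, (ENNReal.ofReal (2 * K2) *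
          ENNReal.ofReal (‖u t - b t‖ ^ 2 * Real.exp (-rho W a t₀ A ε t)) +
            ENNReal.ofReal (2 * ‖u t‖ ^ 2)) := by
          refine lintegral_mono fun t => ?_
          rw [← ENNReal.ofReal_mul (by positivity), ← ENNReal.ofReal_add (by positivity)
            (by positivity)]
          refine ENNReal.ofReal_le_ofReal ?_
          have hn := Pool.Agent.KRFG.Fb.nsq_nonneg t
          obtain ⟨hWp, hWC⟩ := h.pos ε hε _ (slice_ne a t)
          have h1 : ‖b t‖ ^ 2 ≤ 2 * ‖u t - b t‖ ^ 2 + 2 * ‖u t‖ ^ 2 := by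
            have h2 : ‖b t‖ ≤ ‖u t - b t‖ + ‖u t‖ := by
              have := norm_sub_norm_le (b t) (u t)
              rw [norm_sub_rev] at this
              linarith
            have h3 : ‖b t‖ ^ 2 ≤ (‖u t - b t‖ + ‖u t‖) ^ 2 := by gcongr
            nlinarith [sq_nonneg (‖u t - b t‖ - ‖u t‖)]
          have h4 : ((1 + nsq t) ^ (A + (L + 1)))⁻¹ ≤ 1 :=
            inv_le_one_of_one_le₀ (one_le_pow₀ (by linarith))
          have h5 : ((1 + nsq t) ^ (A + (L + 1)))⁻¹ ≤ K2 * Real.exp (-rho W a t₀ A ε t) := by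
            rw [exp_rho a t₀ A hε.1 t hWp]
            have hq : nsq (t - t₀) + ε ^ 2 ≤ (2 + 2 * nsq t₀) * (1 + nsq t) := by
              have h6 := nsq_add_two t (-t₀)
              have h7 : nsq (-t₀) = nsq t₀ := by simp [nsq]
              rw [← sub_eq_add_neg, h7] at h6
              have h8 : ε ^ 2 ≤ 1 := pow_le_one₀ hε.1.le hε.2
              nlinarith [mul_nonneg ht0 hn]
            have hqp := HM.pos_pole t₀ hε.1.ne' t
            have h9 : (C ^ (L + 1))⁻¹ ≤ (W ε (slice a t) ^ (L + 1))⁻¹ := by gcongr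
            have h10 : (((2 + 2 * nsq t₀) * (1 + nsq t)) ^ (L + 1))⁻¹ ≤
                ((nsq (t - t₀) + ε ^ 2) ^ (L + 1))⁻¹ := by gcongr
            calc ((1 + nsq t) ^ (A + (L + 1)))⁻¹ = K2 * ((C ^ (L + 1))⁻¹ *
                (((2 + 2 * nsq t₀) * (1 + nsq t)) ^ (L + 1))⁻¹ * ((1 + nsq t) ^ A)⁻¹) := by
                  rw [hK2, pow_add, mul_pow]
                  have : (1 + nsq t) ≠ 0 := by positivity
                  have : (2 + 2 * nsq t₀) ≠ 0 := by positivity
                  field_simp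
              _ ≤ _ := by gcongr
          calc ‖b t‖ ^ 2 * ((1 + nsq t) ^ (A + (L + 1)))⁻¹ ≤
              (2 * ‖u t - b t‖ ^ 2 + 2 * ‖u t‖ ^ 2) * ((1 + nsq t) ^ (A + (L + 1)))⁻¹ := by
                gcongr
            _ = 2 * ‖u t - b t‖ ^ 2 * ((1 + nsq t) ^ (A + (L + 1)))⁻¹ +
                2 * ‖u t‖ ^ 2 * ((1 + nsq t) ^ (A + (L + 1)))⁻¹ := by ring
            _ ≤ 2 * ‖u t - b t‖ ^ 2 * (K2 * Real.exp (-rho W a t₀ A ε t)) +
                2 * ‖u t‖ ^ 2 * 1 := by gcongr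
            _ = _ := by ring
      _ = ENNReal.ofReal (2 * K2) *
          (∫⁻ t, ENNReal.ofReal (‖u t - b t‖ ^ 2 * Real.exp (-rho W a t₀ A ε t))) +
            ∫⁻ t, ENNReal.ofReal (2 * ‖u t‖ ^ 2) := by
          have hm : Measurable fun t : Cn L => ENNReal.ofReal (2 * ‖u t‖ ^ 2) :=
            (ENNReal.continuous_ofReal.comp
              (continuous_const.mul (hu.continuous.norm.pow 2))).measurable
          rw [lintegral_add_right _ hm, lintegral_const_mul' _ _ ENNReal.ofReal_ne_top]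
      _ < ⊤ := by
          refine ENNReal.add_lt_top.2 ⟨ENNReal.mul_lt_top ENNReal.ofReal_lt_top
            (hbI.trans_lt ENNReal.ofReal_lt_top), ?_⟩
          exact hu2.lintegral_lt_top
  -- the value at `t₀`
  have hval0 : ∀ ε ∈ Ioc (0 : ℝ) 1, ε ≤ r / 4 → ∀ b : Cn L → ℂ, NF.HolC b univ →
      ∫⁻ t, ENNReal.ofReal (‖u t - b t‖ ^ 2 * Real.exp (-rho W a t₀ A ε t)) ≤
        ENNReal.ofReal I → ‖b t₀ - 1‖ ^ 2 ≤ Real.exp ((L + 1) * Real.log C +
          A * Real.log (1 + (2 * nsq t₀ + 2))) * 2 ^ (L + 1) /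
            (volume {w : Cn L | nsq w ≤ 1}).toReal * ε ^ 2 * I := by
    intro ε hε hεr b hb hbI
    have hg : NF.HolC (fun t => b t + (-1)) univ := hb.add isOpen_univ (NF.HolC.const _ _)
    have hε2 : ε ^ 2 ≤ (r / 2) ^ 2 / 4 := by
      have : ε ^ 2 ≤ (r / 4) ^ 2 := by gcongr; exact hε.1.le
      nlinarith
    have h1 := value_le hg (z₀ := t₀) (B := (L + 1) * Real.log C +
      A * Real.log (1 + (2 * nsq t₀ + 2))) (ρ := rho W a t₀ A ε) hε.1 ?_ hI0 ?_
    · simpa [sub_eq_add_neg] using h1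
    · intro t ht
      obtain ⟨hWp, hWC⟩ := h.pos ε hε _ (slice_ne a t)
      have h2 : Real.log (W ε (slice a t)) ≤ Real.log C := Real.log_le_log hWp hWC
      have h3 : nsq t ≤ 2 * nsq t₀ + 2 := by
        have h4 := nsq_add_two (t - t₀) t₀
        rw [sub_add_cancel] at h4
        have h5 : ε ^ 2 ≤ 1 := pow_le_one₀ hε.1.le hε.2
        linarith
      have hn := Pool.Agent.KRFG.Fb.nsq_nonneg t
      have h4 : Real.log (1 + nsq t) ≤ Real.log (1 + (2 * nsq t₀ + 2)) :=
        Real.log_le_log (by linarith) (by linarith)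
      unfold Ap.rho
      have h5 := mul_le_mul_of_nonneg_left h2 (by positivity : (0 : ℝ) ≤ L + 1)
      have h6 := mul_le_mul_of_nonneg_left h4 (by positivity : (0 : ℝ) ≤ A)
      linarith
    · refine le_trans ?_ hbI
      refine le_trans ?_ (setLIntegral_le_lintegral {t : Cn L | nsq (t - t₀) ≤ ε ^ 2} _)
      refine setLIntegral_mono' (HM.isCompact_ball t₀ ε).measurableSet fun t ht => ?_
      have ht' : nsq (t - t₀) ≤ ε ^ 2 := ht
      rw [(hin t (ht'.trans hε2)).1, ← norm_neg]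
      ring_nf
      exact le_rfl
  -- the values at the points of `s`
  have hval1 : ∀ t₁ ∈ s, ∃ K : ℝ, ∀ ε ∈ Ioc (0 : ℝ) 1, ε ≤ r / 4 → ∀ b : Cn L → ℂ,
      NF.HolC b univ →
      ∫⁻ t, ENNReal.ofReal (‖u t - b t‖ ^ 2 * Real.exp (-rho W a t₀ A ε t)) ≤
        ENNReal.ofReal I → ‖b t₁‖ ^ 2 ≤ K * ε ^ 2 := by
    intro t₁ ht₁
    obtain ⟨C', hC'⟩ := h.near _ (hs t₁ ht₁)
    have hC'0 : 0 < C' := by
      have h1 := hC' 1 ⟨one_pos, le_rfl⟩ (slice a t₁) (slice_ne a t₁) (by simp [nsq])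
      have h2 := (h.pos 1 ⟨one_pos, le_rfl⟩ _ (slice_ne a t₁)).1
      linarith
    refine ⟨Real.exp ((L + 1) * Real.log C' + (L + 1) * Real.log (2 * nsq (t₁ - t₀) + 3) +
      A * Real.log (1 + (2 * nsq t₁ + 2))) * 2 ^ (L + 1) /
        (volume {w : Cn L | nsq w ≤ 1}).toReal * I, fun ε hε hεr b hb hbI => ?_⟩
    have hε2 : ε ^ 2 ≤ r ^ 2 / 16 := by
      have : ε ^ 2 ≤ (r / 4) ^ 2 := by gcongr; exact hε.1.le
      nlinarith
    have h1 := value_le hb (z₀ := t₁) (B := (L + 1) * Real.log C' +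
      (L + 1) * Real.log (2 * nsq (t₁ - t₀) + 3) + A * Real.log (1 + (2 * nsq t₁ + 2)))
      (ρ := rho W a t₀ A ε) hε.1 ?_ hI0 ?_
    · linarith
    · intro t ht
      have hWp := (h.pos ε hε _ (slice_ne a t)).1
      have h2 := hC' ε hε (slice a t) (slice_ne a t) (by rw [nsq_slice_sub]; exact ht)
      have h3 : Real.log (W ε (slice a t)) ≤ Real.log C' +
          Real.log (nsq (t - t₁) + ε ^ 2) := by
        rw [← Real.log_mul hC'0.ne' (HM.pos_pole t₁ hε.1.ne' t).ne']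
        refine Real.log_le_log hWp (h2.trans ?_)
        have := Pool.Agent.KRFG.Fb.nsq_nonneg (t - t₁)
        gcongr
        linarith
      have hε1 : ε ^ 2 ≤ 1 := pow_le_one₀ hε.1.le hε.2
      have h4 : nsq t ≤ 2 * nsq t₁ + 2 := by
        have h4 := nsq_add_two (t - t₁) t₁
        rw [sub_add_cancel] at h4
        linarith
      have h5 : nsq (t - t₀) + ε ^ 2 ≤ 2 * nsq (t₁ - t₀) + 3 := by
        have h6 := nsq_add_two (t - t₁) (t₁ - t₀)
        rw [sub_add_sub_cancel] at h6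
        linarith
      have hn := Pool.Agent.KRFG.Fb.nsq_nonneg t
      have h7 : Real.log (1 + nsq t) ≤ Real.log (1 + (2 * nsq t₁ + 2)) :=
        Real.log_le_log (by linarith) (by linarith)
      have h8 : Real.log (nsq (t - t₀) + ε ^ 2) ≤ Real.log (2 * nsq (t₁ - t₀) + 3) :=
        Real.log_le_log (HM.pos_pole t₀ hε.1.ne' t) h5
      unfold Ap.rho
      have h9 := mul_le_mul_of_nonneg_left h3 (by positivity : (0 : ℝ) ≤ L + 1)
      have h10 := mul_le_mul_of_nonneg_left h7 (by positivity : (0 : ℝ) ≤ A)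
      have h11 := mul_le_mul_of_nonneg_left h8 (by positivity : (0 : ℝ) ≤ L + 1)
      linarith
    · refine le_trans ?_ hbI
      refine le_trans ?_ (setLIntegral_le_lintegral {t : Cn L | nsq (t - t₁) ≤ ε ^ 2} _)
      refine setLIntegral_mono' (HM.isCompact_ball t₁ ε).measurableSet fun t ht => ?_
      have ht' : nsq (t - t₁) ≤ ε ^ 2 := ht
      have h2 : (r / 2) ^ 2 ≤ nsq (t - t₀) := by
        have h3 := nsq_add_two (t₁ - t) (t - t₀)
        rw [sub_add_sub_cancel, nsq_comm_sub t₁ t] at h3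
        have h4 := hfar t₁ ht₁
        nlinarith
      rw [(hout t h2).1, zero_sub, norm_neg]
  -- the choice of `ε`
  obtain ⟨K, hK⟩ : ∃ K : ℝ, 0 < K ∧ ∀ ε ∈ Ioc (0 : ℝ) 1, ε ≤ r / 4 → ∀ b : Cn L → ℂ,
      NF.HolC b univ →
      ∫⁻ t, ENNReal.ofReal (‖u t - b t‖ ^ 2 * Real.exp (-rho W a t₀ A ε t)) ≤
        ENNReal.ofReal I → ‖b t₀ - 1‖ ^ 2 ≤ K * ε ^ 2 ∧ ∀ t₁ ∈ s, ‖b t₁‖ ^ 2 ≤ K * ε ^ 2 := by
    choose! K1 hK1 using hval1
    set K0 : ℝ := Real.exp ((L + 1) * Real.log C +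
          A * Real.log (1 + (2 * nsq t₀ + 2))) * 2 ^ (L + 1) /
            (volume {w : Cn L | nsq w ≤ 1}).toReal * I with hK0
    refine ⟨|K0| + ∑ t₁ ∈ s, |K1 t₁| + 1, by positivity, fun ε hε hεr b hb hbI => ⟨?_, ?_⟩⟩
    · have h1 := hval0 ε hε hεr b hb hbI
      have h2 : ‖b t₀ - 1‖ ^ 2 ≤ K0 * ε ^ 2 := by
        rw [hK0]
        linarith
      have h3 : 0 ≤ ∑ t₁ ∈ s, |K1 t₁| := Finset.sum_nonneg fun _ _ => abs_nonneg _
      refine h2.trans (mul_le_mul_of_nonneg_right ?_ (sq_nonneg ε))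
      have := le_abs_self K0
      linarith
    · intro t₁ ht₁
      have h1 := hK1 t₁ ht₁ ε hε hεr b hb hbI
      have h3 : |K1 t₁| ≤ ∑ t₁ ∈ s, |K1 t₁| :=
        Finset.single_le_sum (f := fun t => |K1 t|) (fun _ _ => abs_nonneg _) ht₁
      refine h1.trans (mul_le_mul_of_nonneg_right ?_ (sq_nonneg ε))
      have := le_abs_self (K1 t₁)
      have := abs_nonneg K0
      linarith
  obtain ⟨hK0, hK⟩ := hK
  set ε : ℝ := min (min 1 (r / 4)) (δ / Real.sqrt K) with hε
  have hsK : 0 < Real.sqrt K := Real.sqrt_pos.2 hK0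
  have hε0 : 0 < ε := lt_min (lt_min one_pos (by positivity)) (by positivity)
  have hε1 : ε ≤ 1 := (min_le_left _ _).trans (min_le_left _ _)
  have hε2 : ε ≤ r / 4 := (min_le_left _ _).trans (min_le_right _ _)
  have hε3 : K * ε ^ 2 ≤ δ ^ 2 := by
    have h1 : ε ≤ δ / Real.sqrt K := min_le_right _ _
    calc K * ε ^ 2 ≤ K * (δ / Real.sqrt K) ^ 2 := by gcongr
      _ = δ ^ 2 := by
        rw [div_pow, Real.sq_sqrt hK0.le]
        field_simp
  obtain ⟨b, hb, hbI⟩ := hsol ε ⟨hε0, hε1⟩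
  obtain ⟨P, hP, hP1⟩ := hpoly ε ⟨hε0, hε1⟩ b hb hbI
  obtain ⟨h1, h2⟩ := hK ε ⟨hε0, hε1⟩ hε2 b hb hbI
  refine ⟨P, hP, ?_, fun t ht => ?_⟩
  · rw [← hP1]
    exact abs_le_of_sq_le_sq' (h1.trans hε3) hδ.le |>.2
  · rw [← hP1]
    exact abs_le_of_sq_le_sq' ((h2 t ht).trans hε3) hδ.le |>.2

end Pool.Agent.KRFCh

end

section

/-!
# Forms which vanish on the zeros of a weight
-/

open scoped ContDiff ENNReal ComplexOrder LinearAlgebra.Projectivization Topology
open Set Filter MeasureTheory Pool.Agent.ToricKRF Pool.Agent.ToricKRF.G Pool.Agent.KRFS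
  Pool.Agent.KRFF Pool.Agent.KRFZ Pool.Agent.KRFW

namespace Pool.Agent.KRFCh

theorem exists_form (L : ℕ) {C : ℝ} (hC : 0 < C) : ∃ d : ℕ, ∀ (Γ : Set (Cn (L + 1)))
    (W : ℝ → Cn (L + 1) → ℝ), IsWeight Γ W C → (∀ x ∈ Γ, x ≠ 0) →
      (∀ x ∈ Γ, ∀ y : Cn (L + 1), ∀ c : ℂ, c ≠ 0 → cc y = c • cc x → y ∈ Γ) →
      ∀ x₀ : Cn (L + 1), x₀ ≠ 0 → x₀ ∉ Γ → ∃ Q : MvPolynomial (Fin (L + 1)) ℂ,
        Q.IsHomogeneous d ∧ (∀ x ∈ Γ, MvPolynomial.eval (cc x) Q = 0) ∧
          MvPolynomial.eval (cc x₀) Q ≠ 0 := exists_form_of (exists_approx L hC)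

end Pool.Agent.KRFCh

end
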