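import Pool.Agent.Work.MP_a2bf38_gt.Fu.W.EmbDefs
import Pool.Agent.Work.MP_a2bf38_gt.Fu.Lj.Defs
import Pool.Agent.Work.MP_a2bf38_gt.Fu.Ch.PolyA
import Pool.Agent.Work.MP_a2bf38_gt.Fu.Ch.Away
import Pool.Agent.Work.MP_a2bf38_gt.Fu.Z.PeakE
import Pool.Agent.Work.MP_a2bf38_gt.Fu.Ko.NatData

section

/-!
# Equations of bounded degree, from weights
-/

open scoped ContDiff ENNReal ComplexOrder LinearAlgebra.Projectivization Topology
open Set Filter Pool.Agent.ToricKRF Pool.Agent.ToricKRF.G Pool.Agent.KRFS Pool.Agent.KRFF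
  Pool.Agent.KRFZ Pool.Agent.KRFW

namespace Pool.Agent.KRFCh

theorem cc_iot {l : ℕ} (x : Fin l → ℂ) : cc (KRFLj.iot l x) = x := KRFLj.ccv_iot x

theorem ne_zero_of_cc {l : ℕ} {x : Cn l} (h : cc x ≠ 0) : x ≠ 0 := by
  rintro rfl
  apply h
  funext k
  apply Complex.ext <;> simp [cc]

theorem fcone_ne {M Z : Type} [MetricSpace M] [MetricSpace Z] {f : M → Z} {L : ℕ}
    {ι : M → ℙ ℂ (Fin (L + 1) → ℂ)} {w : Z} {x : Cn (L + 1)} (hx : x ∈ fcone f ι w) : x ≠ 0 := by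
  obtain ⟨-, h, -⟩ := hx
  exact ne_zero_of_cc h

theorem fcone_smul {M Z : Type} [MetricSpace M] [MetricSpace Z] {f : M → Z} {L : ℕ}
    {ι : M → ℙ ℂ (Fin (L + 1) → ℂ)} {w : Z} {x : Cn (L + 1)} (hx : x ∈ fcone f ι w)
    (y : Cn (L + 1)) (c : ℂ) (hc : c ≠ 0) (hy : cc y = c • cc x) : y ∈ fcone f ι w := by
  obtain ⟨p, h, hp, hιp⟩ := hx
  have hy0 : cc y ≠ 0 := by
    rw [hy]
    exact smul_ne_zero hc h
  refine ⟨p, hy0, hp, ?_⟩
  rw [hιp, Projectivization.mk_eq_mk_iff']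
  refine ⟨c⁻¹, ?_⟩
  rw [hy, smul_smul, inv_mul_cancel₀ hc, one_smul]

/-- the sets of forms of degree `d` define the fibres -/
theorem isProjOver_of {M Z : Type} [MetricSpace M] [MetricSpace Z]
    {n N : ℕ} {κ P : Type} {e : κ → OpenPartialHomeomorph M (Cn n)} {U : P → Set Z}
    {q : P → Z → Cn N} {f : M → Z} {S : Set Z} {L : ℕ}
    {ι : M → ℙ ℂ (Fin (L + 1) → ℂ)} (hι : IsEmbOver e U q f S ι)
    (hS : IsOpen S) {z₀ : Z} (hz₀ : z₀ ∈ S)
    (hweight : Nonempty M → ∃ (S' : Set Z) (C : ℝ), IsOpen S' ∧ z₀ ∈ S' ∧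
      S' ⊆ S ∧ 0 < C ∧ ∀ w ∈ S', ∃ W, IsWeight (fcone f ι w) W C)
    (hform : ∀ {C : ℝ}, 0 < C → ∃ d : ℕ, ∀ (Γ : Set (Cn (L + 1)))
      (W : ℝ → Cn (L + 1) → ℝ), IsWeight Γ W C → (∀ x ∈ Γ, x ≠ 0) →
      (∀ x ∈ Γ, ∀ y : Cn (L + 1), ∀ c : ℂ, c ≠ 0 → cc y = c • cc x → y ∈ Γ) →
      ∀ x₀ : Cn (L + 1), x₀ ≠ 0 → x₀ ∉ Γ → ∃ Q : MvPolynomial (Fin (L + 1)) ℂ,
        Q.IsHomogeneous d ∧ (∀ x ∈ Γ, MvPolynomial.eval (cc x) Q = 0) ∧
          MvPolynomial.eval (cc x₀) Q ≠ 0) :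
    ∃ (S' : Set Z) (d : ℕ), IsOpen S' ∧ z₀ ∈ S' ∧ IsProjOver e U q f S' ι d := by
  by_cases hM : Nonempty M
  · obtain ⟨S', C, hS'o, hz, hS'S, hC, hW⟩ := hweight hM
    obtain ⟨d, hd⟩ := hform hC
    refine ⟨S', d, hS'o, hz, hι.isProjOver hS'S fun w hw => ?_⟩
    obtain ⟨W, hW⟩ := hW w hw
    refine ⟨{Q | Q.IsHomogeneous d ∧ ∀ x ∈ fcone f ι w, MvPolynomial.eval (cc x) Q = 0},
      fun Q hQ => hQ.1, fun x hx => ⟨fun h => ?_, ?_⟩⟩
    · by_contra hcon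
      have hx0 : cc (KRFLj.iot (L + 1) x) ≠ 0 := by rwa [cc_iot]
      have hxΓ : KRFLj.iot (L + 1) x ∉ fcone f ι w := by
        rintro ⟨p, h0, hp, hιp⟩
        apply hcon
        refine ⟨p, hp, ?_⟩
        rw [hιp, Projectivization.mk_eq_mk_iff']
        exact ⟨1, by rw [cc_iot, one_smul]⟩
      obtain ⟨Q, hQ1, hQ2, hQ3⟩ := hd (fcone f ι w) W hW (fun y hy => fcone_ne hy)
        (fun y hy y' c hc hy' => fcone_smul hy y' c hc hy') _ (ne_zero_of_cc hx0) hxΓ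
      apply hQ3
      rw [cc_iot]
      exact h Q ⟨hQ1, hQ2⟩
    · rintro ⟨p, hp, hιp⟩ Q ⟨-, hQ⟩
      have hx0 : cc (KRFLj.iot (L + 1) x) ≠ 0 := by rwa [cc_iot]
      have h1 : KRFLj.iot (L + 1) x ∈ fcone f ι w := by
        refine ⟨p, hx0, hp, ?_⟩
        rw [hιp, Projectivization.mk_eq_mk_iff']
        exact ⟨1, by rw [cc_iot, one_smul]⟩
      have h2 := hQ _ h1
      rwa [cc_iot] at h2
  · refine ⟨S, 0, hS, hz₀, hι.isProjOver subset_rfl fun w _ => ⟨{1}, ?_, fun x hx => ⟨?_, ?_⟩⟩⟩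
    · intro Q hQ
      rw [mem_singleton_iff.1 hQ]
      exact MvPolynomial.isHomogeneous_one _ _
    · intro h
      have := h 1 rfl
      simp at this
    · rintro ⟨p, -⟩
      exact absurd ⟨p⟩ hM

end Pool.Agent.KRFCh

end

section

/-!
# The fibres of an embedding over the base are cut out by forms of bounded degree

An embedding `ι` over an open set `S` of the base of the geometric data is, near every point of
`S`, a projective structure: over a neighbourhood `S'` of the point the images of the fibres are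
the common zero sets of forms of one degree `d`.
-/

open scoped ContDiff ENNReal ComplexOrder LinearAlgebra.Projectivization Topology
open Set Filter Pool.Agent.ToricKRF Pool.Agent.ToricKRF.G Pool.Agent.KRFS Pool.Agent.KRFF
  Pool.Agent.KRFZ Pool.Agent.KRFW

namespace Pool.Agent.KRFCh

theorem exists_isProjOver {M Z : Type} [MetricSpace M] [CompactSpace M] [MetricSpace Z]
    {n N : ℕ} {κ P : Type} {e : κ → OpenPartialHomeomorph M (Cn n)} {U : P → Set Z}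
    {q : P → Z → Cn N} {f : M → Z} {ψ : κ → ℝ × Cn n → ℝ} {S : Set Z} {L : ℕ}
    {ι : M → ℙ ℂ (Fin (L + 1) → ℂ)} (G : GeoData e U q f ψ) (hι : IsEmbOver e U q f S ι)
    (hS : IsOpen S) {z₀ : Z} (hz₀ : z₀ ∈ S) :
    ∃ (S' : Set Z) (d : ℕ), IsOpen S' ∧ z₀ ∈ S' ∧ IsProjOver e U q f S' ι d :=
  isProjOver_of hι hS hz₀ (fun _ => exists_weight G hι hS hz₀) (fun hC => exists_form L hC)

end Pool.Agent.KRFCh

end

section

/-!
# The diameter bound for all semi-ample limit classes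
-/

open scoped ContDiff ENNReal ComplexOrder Topology
open Set Filter Pool.Agent.ToricKRF Pool.Agent.ToricKRF.G Pool.Agent.KRFS Pool.Agent.KRFF

namespace Pool.Agent.KRFZ

section

variable {M Z : Type} [MetricSpace M] [MetricSpace Z]
  {n N : ℕ} {κ P : Type} {e : κ → OpenPartialHomeomorph M (Cn n)} {U : P → Set Z}
  {q : P → Z → Cn N} {O : P → Set (Cn N)} {K : P → Cn N → ℝ} {f : M → Z} {T : ℝ}
  {ψ : κ → ℝ × Cn n → ℝ} {Ω : κ → Cn n → ℝ}

theorem geoData_of (hT : 0 < T) (he : IsAtlas e) (hl : ∀ c, IsLip (e c) (e c).source)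
    (hZ : IsKahlerSpace U q O K) (hf : IsHolConn e U q f) (hψ : IsKRF e T ψ) :
    KRFW.GeoData e U q f ψ where
  atlas := he
  lip := hl
  isOpen := hZ.isOpen
  cover := hZ.cover
  qlip := hZ.lip
  cont := hf.cont
  holo := hf.holo
  smooth := fun c => by
    obtain ⟨S, hS, hsub, hs⟩ := hψ.smooth c
    refine ⟨S, hS, fun x hx => hsub ⟨?_, hx.2⟩, hs⟩
    rw [mem_singleton_iff.1 hx.1]
    exact ⟨le_rfl, hT⟩

/-- Locally over `Z` the fibres of `f` are embedded in projective spaces as zero sets of forms. -/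
theorem isLocProj_of_limit [CompactSpace M] (hT : 0 < T) (he : IsAtlas e)
    (hl : ∀ c, IsLip (e c) (e c).source) (hZ : IsKahlerSpace U q O K) (hf : IsHolConn e U q f)
    (hψ : IsKRF e T ψ) (hlim : IsSemiampleLimit e U q f T ψ Ω K) : IsLocProj e U q f := by
  intro z
  obtain ⟨S, L, ι, hS, hz, hι⟩ := KRFKo.exists_embOver hT he hZ hf hψ hlim z
  obtain ⟨S', d, hS', hz', hp⟩ :=
    KRFCh.exists_isProjOver (geoData_of hT he hl hZ hf hψ) hι hS hz
  exact ⟨S', L, ι, d, hS', hz', hp⟩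

/-- The diameter of `(M, ω(t))` is bounded if the limit class is the pull-back of a Kähler class
under a holomorphic map with connected fibres. -/
theorem diam_bounded_semiample [CompactSpace M] [ConnectedSpace M] (he : IsAtlas e)
    (hl : ∀ c, IsLip (e c) (e c).source) (hZ : IsKahlerSpace U q O K) (hf : IsHolConn e U q f)
    (hψ : IsKRF e T ψ) (hlim : IsSemiampleLimit e U q f T ψ Ω K) :
    ⨆ t ∈ Ico 0 T, rdiam e ψ t < ⊤ := by
  by_cases hT : 0 < T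
  swap
  · have : Ico (0 : ℝ) T = ∅ := Ico_eq_empty hT
    simp [this]
  exact diam_bounded_of_locProj he hl hZ hf (isLocProj_of_limit hT he hl hZ hf hψ hlim) hψ hlim

end

end Pool.Agent.KRFZ

end
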